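import Pool.Agent.Run7.h42.WN_MAXU
import Pool.Agent.Run7.h291.WN.Stm3

set_option autoImplicit false

/-! The sharp bound for large values of zeta in windows: adapted from the file `Run7/h42/WN_MAXC.lean` of helper42 -/

namespace Run7.h291.WC

open Finset Filter MeasureTheory Topology Complex
open Pool.Agent.N748.MG Run7.h42.WN

/-- large values of zeta give large values of the polynomial -/
theorem point2 {q κ y : ℝ} {δ u : ℝ} {K : ℕ} (hq0 : 0 < q) (hκ : 2 ≤ κ)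
    (hcmp : ‖((‖riemannZeta (pw δ u)‖ : ℝ) : ℂ) ^ (2 * (q:ℂ)) - AS (q:ℂ) y K (pw δ u) *
      (starRingEnd ℂ) (AS ((starRingEnd ℂ) (q:ℂ)) y K (pw δ u))‖ ≤ 1 / 16)
    (hbig : κ ≤ ‖riemannZeta (pw δ u)‖) : κ ^ q / 2 ≤ ‖AS (q:ℂ) y K (pw δ u)‖ := by
  set Z : ℝ := ‖riemannZeta (pw δ u)‖ with hZ
  have hZ0 : 0 ≤ Z := norm_nonneg _
  set A : ℝ := ‖AS (q:ℂ) y K (pw δ u)‖ with hA
  have e1 : ((Z : ℝ) : ℂ) ^ (2 * (q:ℂ)) = ((Z ^ (2 * q) : ℝ) : ℂ) := by
    rw [Complex.ofReal_cpow hZ0]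
    push_cast
    rfl
  rw [Complex.conj_ofReal, AS_sq, e1, ← Complex.ofReal_sub, Complex.norm_real, Real.norm_eq_abs] at hcmp
  have h1 := (abs_le.1 hcmp).2
  have h2 : κ ^ (2 * q) ≤ Z ^ (2 * q) := Real.rpow_le_rpow (by linarith) hbig (by linarith)
  have h3 : κ ^ (2 * q) = (κ ^ q) ^ 2 := by
    rw [← Real.rpow_natCast, ← Real.rpow_mul (by linarith)]
    congr 1
    push_cast
    ring
  have h4 : 1 ≤ κ ^ q := Real.one_le_rpow (by linarith) hq0.le
  set W : ℝ := κ ^ q with hW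
  rw [h3] at h2
  have h6 : W ^ 2 ≤ A ^ 2 + 1 / 16 := by linarith
  have h7 : (W / 2) ^ 2 ≤ A ^ 2 := by nlinarith
  exact le_of_sq_le_sq (h7) (norm_nonneg _)
where
  le_of_sq_le_sq {a b : ℝ} (h : a ^ 2 ≤ b ^ 2) (hb : 0 ≤ b) : a ≤ b := by
    by_contra hc
    rw [not_le] at hc
    nlinarith

theorem supw0 (hS : T_SUP) (hZ : T_ZW) (hX : T_XW) (hM : S_MEA) : Run7.h291.WN.S_SUPW := by
  intro q hq0 D hD
  obtain ⟨CS, hCS, hSup⟩ := hS
  obtain ⟨a0, b0, ha0, hb0, δx, hδx, hδx16, evx⟩ := hX (2 * D + 2) (by linarith)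
  obtain ⟨Cc, hCc, hcmp⟩ := CMP.main EUL.main q hq0.le
  set E0 : ℝ := Cc * (a0 + 3) + 1 with hE0
  have hE00 : 0 < E0 := by positivity
  obtain ⟨Cq, δq, hCq, hδq, hms⟩ := ms q hq0.le
  obtain ⟨a1, b1, ha1, hb1, lam1, δ1, hδ1, hδ116, ev1⟩ := hZ (2 * E0 + 2 * D + 4) (by linarith)
  obtain ⟨Cm, hCm, mert⟩ := hM
  have hl54 : 0 < Real.log (5 / 4) := Real.log_pos (by norm_num)
  set C1 := max a1 1 with hC1
  set C2 := max (max (2 * E0 / Real.log (5 / 4)) b1) 1 with hC2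
  have hC1a : a1 ≤ C1 := le_max_left _ _
  have hC11 : 1 ≤ C1 := le_max_right _ _
  have hC2e : 2 * E0 / Real.log (5 / 4) ≤ C2 := (le_max_left _ _).trans (le_max_left _ _)
  have hC2b : b1 ≤ C2 := (le_max_right _ _).trans (le_max_left _ _)
  have hC21 : 1 ≤ C2 := le_max_right _ _
  set lamB := Cq * (C2 + 2) * C1 + 100 * (C2 + 2) * C1 + b0 * C1 + |lam1| with hlamB
  have hd3 : 0 < Real.exp (-(2 * (Real.log C1 + Cm))) := Real.exp_pos _
  have hX4 : ∀ᶠ X : ℝ in atTop, 4 ≤ X := eventually_ge_atTop 4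
  have E := (Ev.of_ev ev1).and ((Ev.of_ev evx).and ((Ev.of_le hδ1).and ((Ev.of_le hδx).and
    ((Ev.of_le hd3).and ((Ev.lam lamB).and (Ev.linv.and
      ((Ev.win (D := D) (c := 1) (e := 1 / 2) (by norm_num) (by norm_num)).and
      ((Ev.of_le hδq).and ((Ev.win (D := D) (c := 1 / 8) (e := 1 / 10) (by norm_num) (by norm_num)).and
      ((Ev.of_ev hX4).and
      (Ev.small (C := 3 * CS) (c := 3) (e := 1 / 4) (by norm_num) (by norm_num))))))))))))
  refine ⟨24 * CS * Cq, by positivity, E.mono ?_⟩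
  clear E
  rintro X δ hX1 hδ hδ16 ⟨h1, hx, hd1, hdx, hdd, hlam, hlinv, hwin, hdq, hwin2, hX4', hs2⟩ H κ0 hH1 hHD hκ02
  have hL := log_inv_ge hδ hδ16
  set L := Real.log (1 / δ) with hLdef
  have hL0 : 0 < L := by linarith
  have hLL : L ≤ L ^ 2 := by nlinarith
  have hexpL : ∀ c : ℝ, Real.exp (c * L) = δ ^ (-c) := by
    intro c
    rw [hLdef, one_div, Real.log_inv, Real.rpow_def_of_pos hδ]
    congr 1
    ring
  set ly := C1 * L / δ with hly
  have hly0 : 0 < ly := by positivity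
  have hδly : δ * ly = C1 * L := by rw [hly]; field_simp
  have hb1' : Cq * (C2 + 2) * C1 * L ^ 2 ≤ δ * Real.log X := by
    refine le_trans (mul_le_mul_of_nonneg_right ?_ (sq_nonneg L)) hlam
    have : 0 ≤ 100 * (C2 + 2) * C1 + b0 * C1 + |lam1| := by positivity
    rw [hlamB]; linarith
  have hb2' : 100 * (C2 + 2) * C1 * L ^ 2 ≤ δ * Real.log X := by
    refine le_trans (mul_le_mul_of_nonneg_right ?_ (sq_nonneg L)) hlam
    have : 0 ≤ Cq * (C2 + 2) * C1 + b0 * C1 + |lam1| := by positivity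
    rw [hlamB]; linarith
  have hb3' : b0 * C1 * L ^ 2 ≤ δ * Real.log X := by
    refine le_trans (mul_le_mul_of_nonneg_right ?_ (sq_nonneg L)) hlam
    have : 0 ≤ Cq * (C2 + 2) * C1 + 100 * (C2 + 2) * C1 + |lam1| := by positivity
    rw [hlamB]; linarith
  have hb4' : lam1 * L ≤ δ * Real.log X := by
    have h5 : |lam1| * L ^ 2 ≤ δ * Real.log X := by
      refine le_trans (mul_le_mul_of_nonneg_right ?_ (sq_nonneg L)) hlam
      have : 0 ≤ Cq * (C2 + 2) * C1 + 100 * (C2 + 2) * C1 + b0 * C1 := by positivity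
      rw [hlamB]; linarith
    refine le_trans ?_ h5
    calc lam1 * L ≤ |lam1| * L := mul_le_mul_of_nonneg_right (le_abs_self _) hL0.le
      _ ≤ |lam1| * L ^ 2 := mul_le_mul_of_nonneg_left hLL (abs_nonneg _)
  have hly_of : ∀ c : ℝ, 0 ≤ c → c * C1 * L ^ 2 ≤ δ * Real.log X → c * L * ly ≤ Real.log X := by
    intro c hc h
    have : c * L * ly = c * C1 * L ^ 2 / δ := by rw [hly]; ring
    rw [this, div_le_iff₀ hδ]
    linarith
  -- the parameters
  set K : ℕ := ⌈C2 * L⌉₊ with hK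
  have hK1 : C2 * L ≤ K := Nat.le_ceil _
  have hK2 : (K : ℝ) + 1 ≤ (C2 + 2) * L := by
    have := Nat.ceil_lt_add_one (show 0 ≤ C2 * L by positivity)
    rw [← hK] at this
    have e : (C2 + 2) * L = C2 * L + 2 * L := by ring
    rw [e]
    linarith only [this, hL]
  set y := Real.exp ly with hy
  have hlogy : Real.log y = ly := Real.log_exp _
  have hly16 : 16 ≤ ly := by
    rw [hly, le_div_iff₀ hδ]
    have : 1 ≤ C1 * L := one_le_mul_of_one_le_of_one_le hC11 hL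
    linarith only [this, hδ16]
  have hy3 : 3 ≤ y := by
    have := Real.add_one_le_exp ly
    rw [← hy] at this
    linarith
  have hy2 : 2 ≤ y := by linarith
  have c4 : Cq * ((K + 1) * Real.log y) ≤ Real.log X := by
    rw [hlogy]
    refine le_trans ?_ (hly_of (Cq * (C2 + 2)) (by positivity) hb1')
    calc Cq * (((K : ℝ) + 1) * ly) ≤ Cq * (((C2 + 2) * L) * ly) :=
          mul_le_mul_of_nonneg_left (mul_le_mul_of_nonneg_right hK2 hly0.le) (by linarith)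
      _ = Cq * (C2 + 2) * L * ly := by ring
  have c5 : ∑ p ∈ PA y, 1 / (p:ℝ) ≤ 2 * L := by
    refine (mert y hy3).trans ?_
    rw [hlogy, hly, Real.log_div (by positivity) hδ.ne', Real.log_mul (by positivity) hL0.ne']
    have e1 : Real.log δ = -L := by rw [hLdef, one_div, Real.log_inv, neg_neg]
    have e2 := NIC.log_le_half hL
    have e3 : 2 * (Real.log C1 + Cm) ≤ L := by
      have := Real.log_le_log hδ hdd
      rw [Real.log_exp, e1] at this
      linarith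
    rw [e1]
    linarith
  have c6 : K * Real.log y ≤ Real.log X / 100 := by
    rw [hlogy]
    have h6 := hly_of (100 * (C2 + 2)) (by positivity) hb2'
    have h7 : (K : ℝ) * ly ≤ (C2 + 2) * L * ly :=
      mul_le_mul_of_nonneg_right (by linarith) hly0.le
    linarith
  have c7 : a1 * L ≤ δ * Real.log y := by
    rw [hlogy, hδly]
    exact mul_le_mul_of_nonneg_right hC1a hL0.le
  have c8 : b1 * L ≤ K := (mul_le_mul_of_nonneg_right hC2b hL0.le).trans hK1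
  have c9 : b0 * L * Real.log y ≤ Real.log X := by
    rw [hlogy]
    exact hly_of b0 hb0.le hb3'
  have hX0 : 0 < X := by linarith
  set X9 := X ^ ((9:ℝ) / 10) with hX9
  have hX91 : 1 ≤ X9 := Real.one_le_rpow hX1 (by norm_num)
  have hX9X : X9 ≤ X := by
    calc X9 ≤ X ^ (1 : ℝ) := Real.rpow_le_rpow_of_exponent_le hX1 (by norm_num)
      _ = X := Real.rpow_one X
  have hHX : H ≤ X ^ ((1:ℝ) / 2) := by
    have := hwin
    rw [one_mul] at this
    exact hHD.trans this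
  have hHX1 : H + 1 ≤ X := by
    have h5 := sqrt_sub hX4'
    linarith only [h5, hHX]
  have hH3 : H + 2 ≤ 3 * H := by linarith
  -- the mollified zeta function in windows
  have hmean := h1 δ hδ hd1 hb4' y K hy2 c7 c8 c6
  have hB2 := hSup (fun s => riemannZeta s * AS (-1) y K s - 1) (F_diff y K) δ X9 (2 * X)
    (X * δ ^ (2 * E0 + 2 * D + 4)) hδ hδ16 (by linarith) (by positivity) hmean H (δ ^ E0) (by linarith)
    (Real.rpow_pos_of_pos hδ _)
  -- the sum over the primes in windows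
  have hB1 := hx δ hδ hdx y hy2 c9 hlinv H (by linarith) hHX
  -- the polynomial in windows
  have c4' : Cq * ((K + 1) * Real.log y) ≤ Real.log (2 * X) :=
    c4.trans (Real.log_le_log hX0 (by linarith))
  have hmsq : ∀ δ' : ℝ, δ / 2 ≤ δ' → δ' ≤ 3 * δ / 2 →
      ∫ t in (0:ℝ)..(2 * X), ‖AS (q:ℂ) y K (pw δ' t)‖ ^ 2 ≤ Cq * (2 * X) * δ ^ (-(q ^ 2)) :=
    fun δ' g1 g2 => hms δ hδ hdq δ' g1 g2 y K (2 * X) hy2 (by linarith) c4'
  have hκ00 : 0 < κ0 := by linarith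
  set κ : ℝ := κ0 ^ q / 2 with hκ
  have hκ0 : 0 < κ := by
    have := Real.rpow_pos_of_pos hκ00 q
    positivity
  have hB3 := hSup (AS (q:ℂ) y K) (AS_diff (q:ℂ) y K).differentiableOn δ 0 (2 * X)
    (Cq * (2 * X) * δ ^ (-(q ^ 2))) hδ hδ16 (by linarith) (by positivity) hmsq H κ (by linarith) hκ0
  -- the sets
  set B1 : Set ℝ := {t : ℝ | X9 + 1 ≤ t ∧ t ≤ X ∧ ∃ u : ℝ, t ≤ u ∧ u ≤ t + H ∧
      a0 * L < ‖∑ p ∈ PA y, (p:ℂ) ^ (-(pw δ u))‖} with hB1d
  set B2 : Set ℝ := {t : ℝ | X9 + 1 ≤ t ∧ t + H + 1 ≤ 2 * X ∧ ∃ u : ℝ, t ≤ u ∧ u ≤ t + H ∧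
      δ ^ E0 ≤ ‖riemannZeta (pw δ u) * AS (-1) y K (pw δ u) - 1‖} with hB2d
  set B3 : Set ℝ := {t : ℝ | 0 + 1 ≤ t ∧ t + H + 1 ≤ 2 * X ∧ ∃ u : ℝ, t ≤ u ∧ u ≤ t + H ∧
      κ ≤ ‖AS (q:ℂ) y K (pw δ u)‖} with hB3d
  have hqn : ‖(q:ℂ)‖ ≤ q := by rw [Complex.norm_real, Real.norm_of_nonneg hq0.le]
  have hExp : Real.exp (Cc * (a0 * L + 2 * L + 1)) ≤ δ ^ (-(E0 - 1)) := by
    rw [← hexpL]
    apply Real.exp_le_exp.2
    have e1 : E0 - 1 = Cc * (a0 + 3) := by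
      rw [hE0]
      ring
    rw [e1]
    exact cmp_arith hCc hL
  have hK54 : (4 / 5 : ℝ) ^ K * Real.exp (Cc * (a0 * L + 2 * L + 1)) ≤ δ ^ E0 := by
    have g2 : (4 / 5 : ℝ) ^ K ≤ δ ^ (2 * E0) := by
      have g3 : (4 / 5 : ℝ) ^ K = Real.exp (-(K * Real.log (5 / 4))) := by
        rw [← Real.rpow_natCast, Real.rpow_def_of_pos (by norm_num)]
        congr 1
        rw [show (4 / 5 : ℝ) = (5 / 4)⁻¹ by norm_num, Real.log_inv]
        ring
      have g4 : δ ^ (2 * E0) = Real.exp (-(2 * E0 * L)) := by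
        have := hexpL (-(2 * E0))
        rw [neg_neg] at this
        rw [← this]
        congr 1
        ring
      rw [g3, g4]
      apply Real.exp_le_exp.2
      have g5 : 2 * E0 * L ≤ K * Real.log (5 / 4) := by
        have g6 : 2 * E0 / Real.log (5 / 4) * L ≤ K := (mul_le_mul_of_nonneg_right hC2e hL0.le).trans hK1
        have g7 := mul_le_mul_of_nonneg_right g6 hl54.le
        have g8 : 2 * E0 / Real.log (5 / 4) * L * Real.log (5 / 4) = 2 * E0 * L := by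
          field_simp
        linarith
      linarith
    calc (4 / 5 : ℝ) ^ K * Real.exp (Cc * (a0 * L + 2 * L + 1)) ≤ δ ^ (2 * E0) * δ ^ (-(E0 - 1)) :=
          mul_le_mul g2 hExp (Real.exp_pos _).le (Real.rpow_nonneg hδ.le _)
      _ = δ ^ (E0 + 1) := by
          rw [← Real.rpow_add hδ]
          congr 1
          ring
      _ ≤ δ ^ E0 := Real.rpow_le_rpow_of_exponent_ge hδ (by linarith) (by linarith)
  have hE1' : δ ^ E0 * Real.exp (Cc * (a0 * L + 2 * L + 1)) ≤ δ := by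
    calc δ ^ E0 * Real.exp (Cc * (a0 * L + 2 * L + 1)) ≤ δ ^ E0 * δ ^ (-(E0 - 1)) :=
          mul_le_mul_of_nonneg_left hExp (Real.rpow_nonneg hδ.le _)
      _ = δ := by
          rw [← Real.rpow_add hδ]
          have : E0 + -(E0 - 1) = 1 := by ring
          rw [this, Real.rpow_one]
  have hE1 : δ ^ E0 * Real.exp (Cc * (a0 * L + 2 * L + 1)) ≤ 1 := by linarith
  have hsub : {t : ℝ | 0 ≤ t ∧ t ≤ X ∧ ∃ u : ℝ, t ≤ u ∧ u ≤ t + H ∧ κ0 ≤ mz δ u} ⊆
      Set.Icc 0 (X9 + 1) ∪ (B1 ∪ (B2 ∪ B3)) := by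
    rintro t ⟨ht0, htX, u, hu1, hu2, hu3⟩
    by_cases h : t ≤ X9 + 1
    · exact Or.inl ⟨ht0, h⟩
    · push Not at h
      right
      by_cases hg : ‖∑ p ∈ PA y, (p:ℂ) ^ (-(pw δ u))‖ ≤ a0 * L
      · right
        by_cases hf : ‖riemannZeta (pw δ u) * AS (-1) y K (pw δ u) - 1‖ ≤ δ ^ E0
        · right
          have hp := hcmp y K (pw δ u) (a0 * L) (2 * L) (δ ^ E0) hy2 (half_re hδ u) hg c5
            (Real.rpow_pos_of_pos hδ _) hf hK54 hE1 (q:ℂ) hqn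
          refine ⟨by linarith, by linarith, u, hu1, hu2, ?_⟩
          exact point2 hq0 hκ02 (hp.trans (hE1'.trans hδ16)) hu3
        · left
          push Not at hf
          exact ⟨h.le, by linarith, u, hu1, hu2, hf.le⟩
      · left
        push Not at hg
        exact ⟨h.le, htX, u, hu1, hu2, hg⟩
  set P : ℝ := δ ^ D with hP
  have hP0 : 0 < P := Real.rpow_pos_of_pos hδ _
  have hPP : P * δ ^ (-D) = 1 := by rw [hP, ← Real.rpow_add hδ, add_neg_cancel, Real.rpow_zero]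
  have hHP : H * P ≤ 1 := by
    rw [← hPP, mul_comm]
    exact mul_le_mul_of_nonneg_left hHD hP0.le
  have v0 : volume (Set.Icc 0 (X9 + 1)) ≤ ENNReal.ofReal (P / 4 * X) := by
    rw [Real.volume_Icc, sub_zero]
    refine ENNReal.ofReal_le_ofReal ?_
    have g1 : X9 * X ^ ((1:ℝ) / 10) = X := by
      rw [hX9, ← Real.rpow_add hX0]
      norm_num
    have g2 : X9 ≤ P / 8 * X := by
      calc X9 = P * δ ^ (-D) * X9 := by rw [hPP, one_mul]
        _ ≤ P * (1 / 8 * X ^ ((1:ℝ) / 10)) * X9 := by gcongr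
        _ = P / 8 * (X9 * X ^ ((1:ℝ) / 10)) := by ring
        _ = P / 8 * X := by rw [g1]
    linarith
  have v1 : volume B1 ≤ ENNReal.ofReal (P / 4 * X) := by
    refine hB1.trans (ENNReal.ofReal_le_ofReal ?_)
    have g1 : δ ^ (2 * D + 2) = P * P * δ ^ 2 := by
      rw [hP, ← Real.rpow_add hδ, ← Real.rpow_two, ← Real.rpow_add hδ]
      congr 1
      ring
    have g2 : δ ^ 2 ≤ 1 / 16 := by nlinarith
    calc (H + 2) * X * δ ^ (2 * D + 2) ≤ (3 * H) * X * δ ^ (2 * D + 2) := by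
          gcongr
      _ = 3 * (H * P) * P * δ ^ 2 * X := by rw [g1]; ring
      _ ≤ 3 * 1 * P * (1 / 16) * X := by gcongr
      _ ≤ P / 4 * X := by nlinarith
  have v2 : volume B2 ≤ ENNReal.ofReal (P / 4 * X) := by
    refine hB2.trans (ENNReal.ofReal_le_ofReal ?_)
    have g0 : (δ ^ E0) ^ 2 = δ ^ (2 * E0) := by
      rw [← Real.rpow_natCast, ← Real.rpow_mul hδ.le]
      congr 1
      push_cast
      ring
    have g1 : δ ^ (2 * E0 + 2 * D + 4) / (δ * δ ^ (2 * E0)) = P * P * δ ^ (3:ℝ) := by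
      have g2 : δ * δ ^ (2 * E0) = δ ^ (1 + 2 * E0) := by rw [Real.rpow_add hδ, Real.rpow_one]
      rw [g2, hP, ← Real.rpow_add hδ, ← Real.rpow_add hδ, ← Real.rpow_sub hδ]
      congr 1
      ring
    rw [g0]
    calc CS * (H + 2) * (X * δ ^ (2 * E0 + 2 * D + 4)) / (δ * δ ^ (2 * E0))
        ≤ CS * (3 * H) * (X * δ ^ (2 * E0 + 2 * D + 4)) / (δ * δ ^ (2 * E0)) := by
          gcongr
      _ = 3 * CS * H * (δ ^ (2 * E0 + 2 * D + 4) / (δ * δ ^ (2 * E0))) * X := by ring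
      _ = (H * P) * P * (3 * CS * δ ^ (3:ℝ)) * X := by rw [g1]; ring
      _ ≤ 1 * P * (1 / 4) * X := by gcongr
      _ = P / 4 * X := by ring
  have v3 : volume B3 ≤ ENNReal.ofReal (24 * CS * Cq * H * δ ^ (-(q ^ 2 + 1)) * κ0 ^ (-(2 * q)) * X) := by
    refine hB3.trans (ENNReal.ofReal_le_ofReal ?_)
    have g0 : κ ^ 2 = κ0 ^ (2 * q) / 4 := by
      have : (κ0 ^ q) ^ 2 = κ0 ^ (2 * q) := by
        rw [← Real.rpow_natCast, ← Real.rpow_mul hκ00.le]
        congr 1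
        push_cast
        ring
      rw [hκ, div_pow, this]
      norm_num
    have hp0 : 0 < κ0 ^ (2 * q) := Real.rpow_pos_of_pos hκ00 _
    have g1 : δ ^ (-(q ^ 2 + 1)) = δ ^ (-(q ^ 2)) / δ := by
      rw [neg_add, Real.rpow_add hδ, Real.rpow_neg_one]
      rfl
    have g2 : κ0 ^ (-(2 * q)) = 1 / κ0 ^ (2 * q) := by
      rw [Real.rpow_neg hκ00.le, one_div]
    rw [g0, g1, g2]
    calc CS * (H + 2) * (Cq * (2 * X) * δ ^ (-(q ^ 2))) / (δ * (κ0 ^ (2 * q) / 4))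
        ≤ CS * (3 * H) * (Cq * (2 * X) * δ ^ (-(q ^ 2))) / (δ * (κ0 ^ (2 * q) / 4)) := by
          have : 0 < δ ^ (-(q ^ 2)) := Real.rpow_pos_of_pos hδ _
          gcongr
      _ = 24 * CS * Cq * H * (δ ^ (-(q ^ 2)) / δ) * (1 / κ0 ^ (2 * q)) * X := by
          field_simp
          ring
  have hq : 0 ≤ P / 4 * X := by positivity
  have hq3 : 0 ≤ 24 * CS * Cq * H * δ ^ (-(q ^ 2 + 1)) * κ0 ^ (-(2 * q)) * X := by
    have := Real.rpow_pos_of_pos hδ (-(q ^ 2 + 1))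
    have := Real.rpow_pos_of_pos hκ00 (-(2 * q))
    positivity
  calc volume {t : ℝ | 0 ≤ t ∧ t ≤ X ∧ ∃ u : ℝ, t ≤ u ∧ u ≤ t + H ∧ κ0 ≤ mz δ u}
      ≤ volume (Set.Icc 0 (X9 + 1) ∪ (B1 ∪ (B2 ∪ B3))) := measure_mono hsub
    _ ≤ volume (Set.Icc 0 (X9 + 1)) + volume (B1 ∪ (B2 ∪ B3)) := measure_union_le _ _
    _ ≤ volume (Set.Icc 0 (X9 + 1)) + (volume B1 + volume (B2 ∪ B3)) := by
        gcongr; exact measure_union_le _ _
    _ ≤ volume (Set.Icc 0 (X9 + 1)) + (volume B1 + (volume B2 + volume B3)) := by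
        gcongr; exact measure_union_le _ _
    _ ≤ ENNReal.ofReal (P / 4 * X) + (ENNReal.ofReal (P / 4 * X) +
        (ENNReal.ofReal (P / 4 * X) +
          ENNReal.ofReal (24 * CS * Cq * H * δ ^ (-(q ^ 2 + 1)) * κ0 ^ (-(2 * q)) * X))) := by gcongr
    _ ≤ ENNReal.ofReal ((24 * CS * Cq * H * δ ^ (-(q ^ 2 + 1)) * κ0 ^ (-(2 * q)) + P) * X) := by
        rw [← ENNReal.ofReal_add hq hq3, ← ENNReal.ofReal_add hq (by linarith),
          ← ENNReal.ofReal_add hq (by linarith)]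
        refine ENNReal.ofReal_le_ofReal ?_
        nlinarith

/-- (SUPW) large values in windows, the sharp bound -/
theorem supw : Run7.h291.WN.S_SUPW := supw0 t_sup t_zw t_xw Inp.mea

end Run7.h291.WC
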