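import Pool.Agent.Run7.h291.WN.A8
import Pool.Agent.Run7.h291.WN.Stm3

set_option autoImplicit false

/-! The critical windows: definitions, and bounds for the main terms -/

namespace Run7.h291.WC

open Finset Filter MeasureTheory Topology Complex
open Pool.Agent.N748.MG Pool.Agent.N748.MJ Run7.h291.WN

/-- conditions on `log (1/δ)` -/
lemma of_L {Q : ℝ → Prop} (h : ∀ᶠ l : ℝ in atTop, Q l) : Ev fun _ δ => Q (Real.log (1 / δ)) := by
  obtain ⟨l0, hl0⟩ := eventually_atTop.1 h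
  refine (Ev.of_le (show 0 < Real.exp (-l0) from Real.exp_pos _)).mono ?_
  intro X δ _ h0 _ hδ
  refine hl0 _ ?_
  rw [Real.le_log_iff_exp_le (by positivity), le_div_iff₀ h0]
  calc Real.exp l0 * δ ≤ Real.exp l0 * Real.exp (-l0) := mul_le_mul_of_nonneg_left hδ (Real.exp_pos _).le
    _ = 1 := by rw [← Real.exp_add, add_neg_cancel, Real.exp_zero]

/-- the standard deviation -/
noncomputable def sg (δ : ℝ) : ℝ := Real.sqrt (Real.log (1 / δ) / 2)

/-- the level `y` -/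
noncomputable def Vl (k y δ : ℝ) : ℝ := k * Real.log (1 / δ) + y * sg δ

/-- the cut-off function at the level `y`, of width `η` -/
noncomputable def phy (y η x : ℝ) : ℝ := psi (2 ^ ((x - y) / η))

/-- the cut-off at the level `y`, of width `η` -/
noncomputable def chi (k y η δ t : ℝ) : ℝ :=
  psi ((Real.exp (-(Vl k y δ)) * mz δ t) ^ (Real.log 2 / (η * sg δ)))

/-- the exponent of the barrier at the scale `δ^x` -/
noncomputable def Bl (k y c δ x : ℝ) : ℝ := k * x * Real.log (1 / δ) + y * sg δ + c * (1 - x) * Real.log (1 / δ)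

/-- the barrier at the scale `δ^x` -/
noncomputable def br (n : ℕ) (k y c δ x t : ℝ) : ℝ :=
  Real.exp (-(Bl k y c δ x)) * ∏ j : Fin n, mz δ (t + sh n δ x j) ^ ((1:ℝ) / n)

/-- the weight below the level `y`, below the barrier -/
noncomputable def gg (n N : ℕ) (k y η e c W δ u : ℝ) : ℝ :=
  FP k W δ u * (chi k y η δ u * ∏ i : Fin N, psi (br n k (y + η + e) c δ ((((i:ℕ):ℝ) + 1) / N) u))

lemma sg_pos {δ : ℝ} (h0 : 0 < δ) (h1 : δ ≤ 1 / 16) : 0 < sg δ := by
  have := log_inv_ge h0 h1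
  exact Real.sqrt_pos.2 (by linarith)

lemma sg_nn (δ : ℝ) : 0 ≤ sg δ := Real.sqrt_nonneg _

lemma al_nn {η δ : ℝ} (hη : 0 ≤ η) : 0 ≤ Real.log 2 / (η * sg δ) :=
  div_nonneg (Real.log_nonneg (by norm_num)) (mul_nonneg hη (sg_nn _))

lemma chi_nn {k y η δ : ℝ} (t : ℝ) : 0 ≤ chi k y η δ t := psi_nn _
lemma chi_le {k y η δ : ℝ} (t : ℝ) : chi k y η δ t ≤ 1 := psi_le _
lemma chi_cont {k y η δ : ℝ} (hη : 0 ≤ η) (h1 : δ ≤ 1 / 16) : Continuous fun t => chi k y η δ t := by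
  unfold chi
  refine psi_cont.comp ?_
  exact (continuous_const.mul (TMA.cont h1)).rpow_const fun t => Or.inr (al_nn hη)

lemma phy_cont {y η : ℝ} : Continuous fun x => phy y η x := by
  unfold phy
  refine psi_cont.comp ?_
  exact Continuous.rpow continuous_const (by fun_prop) fun x => Or.inl (by norm_num)

lemma phy_nn {y η : ℝ} (x : ℝ) : 0 ≤ phy y η x := psi_nn _
lemma phy_le {y η : ℝ} (x : ℝ) : phy y η x ≤ 1 := psi_le _
lemma phy_one {y η x : ℝ} (hη : 0 < η) (h : x ≤ y) : phy y η x = 1 := by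
  unfold phy
  refine psi_one (Real.rpow_le_one_of_one_le_of_nonpos (by norm_num) ?_)
  exact div_nonpos_of_nonpos_of_nonneg (by linarith) hη.le
lemma phy_zero {y η x : ℝ} (hη : 0 < η) (h : y + η ≤ x) : phy y η x = 0 := by
  unfold phy
  refine psi_zero ?_
  calc (2:ℝ) = 2 ^ (1:ℝ) := (Real.rpow_one 2).symm
    _ ≤ 2 ^ ((x - y) / η) := by
        refine Real.rpow_le_rpow_of_exponent_le (by norm_num) ?_
        rw [le_div_iff₀ hη]
        linarith

lemma chi_eq {k y η δ t : ℝ} (hη : 0 < η) (h0 : 0 < δ) (h1 : δ ≤ 1 / 16) (ht : 0 < mz δ t) :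
    chi k y η δ t = phy y η (YY k δ t) := by
  have hs := sg_pos h0 h1
  unfold chi phy
  congr 1
  rw [Real.rpow_def_of_pos (mul_pos (Real.exp_pos _) ht), Real.rpow_def_of_pos (by norm_num : (0:ℝ) < 2),
    Real.log_mul (Real.exp_pos _).ne' ht.ne', Real.log_exp]
  congr 1
  have e1 : YY k δ t = (Real.log (mz δ t) - k * Real.log (1 / δ)) / sg δ := rfl
  rw [e1]
  unfold Vl
  field_simp
  ring

/-- bound of the cut-off by a power -/
lemma chi_up {k y η δ t a : ℝ} (hη : 0 < η) (h0 : 0 < δ) (h1 : δ ≤ 1 / 16) (ht : 0 < mz δ t) (ha : 0 ≤ a) :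
    chi k y η δ t ≤ Real.exp (a * (Vl k (y + η) δ)) * mz δ t ^ (-a) := by
  have hs := sg_pos h0 h1
  have hl2 : 0 < Real.log 2 := Real.log_pos (by norm_num)
  set α : ℝ := Real.log 2 / (η * sg δ) with hα
  have hα0 : 0 < α := by positivity
  have hz : 0 < Real.exp (-(Vl k y δ)) * mz δ t := mul_pos (Real.exp_pos _) ht
  have h2 := psi_up (x := (Real.exp (-(Vl k y δ)) * mz δ t) ^ α) (a := a / α) (Real.rpow_pos_of_pos hz _)
    (div_nonneg ha hα0.le)
  unfold chi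
  refine h2.trans (le_of_eq ?_)
  rw [← Real.rpow_mul hz.le, Real.mul_rpow (Real.exp_pos _).le ht.le, ← Real.exp_mul,
    Real.rpow_def_of_pos (by norm_num : (0:ℝ) < 2), ← mul_assoc, ← Real.exp_add]
  have e1 : α * -(a / α) = -a := by field_simp
  rw [e1]
  congr 2
  have e2 : Real.log 2 * (a / α) = a * (η * sg δ) := by
    rw [hα]
    field_simp
  rw [e2]
  unfold Vl
  ring

lemma br_nn {n : ℕ} {k y c δ x : ℝ} (t : ℝ) : 0 ≤ br n k y c δ x t :=
  mul_nonneg (Real.exp_pos _).le (Finset.prod_nonneg fun j _ => Real.rpow_nonneg (TMA.mz_nn _ _) _)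

lemma br_cont {n : ℕ} {k y c δ x : ℝ} (h1 : δ ≤ 1 / 16) : Continuous fun t => br n k y c δ x t := by
  unfold br
  refine continuous_const.mul (continuous_finsetProd _ fun j _ => ?_)
  exact ((TMA.cont h1).comp (by fun_prop)).rpow_const fun t => Or.inr (by positivity)

/-- powers of the barrier -/
lemma br_rpow {n : ℕ} {k y c δ x t a : ℝ} (ht : ∀ j, 0 < mz δ (t + sh n δ x j)) :
    br n k y c δ x t ^ a = Real.exp (-(a * Bl k y c δ x)) * ∏ j : Fin n, mz δ (t + sh n δ x j) ^ (a / n) := by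
  unfold br
  rw [Real.mul_rpow (Real.exp_pos _).le (Finset.prod_nonneg fun j _ => Real.rpow_nonneg (TMA.mz_nn _ _) _),
    ← Real.exp_mul, ← Real.finsetProd_rpow _ _ fun j _ => Real.rpow_nonneg (TMA.mz_nn _ _) _]
  congr 1
  · congr 1
    ring
  · refine Finset.prod_congr rfl fun j _ => ?_
    rw [← Real.rpow_mul (ht j).le]
    congr 1
    ring

lemma gg_nn {n N : ℕ} {k y η e c W δ : ℝ} (h0 : 0 ≤ δ) (u : ℝ) : 0 ≤ gg n N k y η e c W δ u :=
  mul_nonneg (FP_nn h0 u) (mul_nonneg (chi_nn u) (Finset.prod_nonneg fun i _ => psi_nn _))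

lemma prod_psi_le1 {N : ℕ} (f : Fin N → ℝ) : ∏ i, psi (f i) ≤ 1 :=
  Finset.prod_le_one (fun i _ => psi_nn _) fun i _ => psi_le _

lemma gg_le_chi {n N : ℕ} {k y η e c W δ : ℝ} (h0 : 0 ≤ δ) (u : ℝ) :
    gg n N k y η e c W δ u ≤ FP k W δ u * chi k y η δ u :=
  mul_le_mul_of_nonneg_left (mul_le_of_le_one_right (chi_nn u) (prod_psi_le1 _)) (FP_nn h0 u)

lemma gg_le {n N : ℕ} {k y η e c W δ : ℝ} (h0 : 0 ≤ δ) (u : ℝ) : gg n N k y η e c W δ u ≤ FP k W δ u :=
  (gg_le_chi h0 u).trans (mul_le_of_le_one_right (FP_nn h0 u) (chi_le u))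

lemma gg_cont {n N : ℕ} {k y η e c W δ : ℝ} (hk : 0 ≤ k) (hη : 0 ≤ η) (h1 : δ ≤ 1 / 16) :
    Continuous fun u => gg n N k y η e c W δ u := by
  unfold gg
  exact (FP_cont hk h1).mul ((chi_cont hη h1).mul (continuous_finsetProd _ fun i _ => psi_cont.comp (br_cont h1)))

/-- one factor of the product -/
lemma prod_one {N : ℕ} (f : Fin N → ℝ) (i : Fin N) : ∏ j, psi (f j) ≤ psi (f i) := by
  rw [← Finset.mul_prod_erase Finset.univ _ (Finset.mem_univ i)]
  exact mul_le_of_le_one_right (psi_nn _) (Finset.prod_le_one (fun i _ => psi_nn _) fun i _ => psi_le _)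

/-- the main term of the two-point function with the barrier -/
lemma Lr_near (n : ℕ) (hn : 1 ≤ n) (k : ℝ) : ∃ C : ℝ, ∀ δ : ℝ, 0 < δ → δ ≤ 1 / 16 → ∀ x h : ℝ, 0 ≤ x → x ≤ 1 →
    |h| ≤ δ ^ x → Real.log (1 / max |h| δ) ≤ x * Real.log (1 / δ) + 1 →
    SM.Lr (kN n k) (hN n δ x h) δ ≤ (k ^ 2 * (2 - x) + k ^ 2 / n * (1 - x)) * Real.log (1 / δ) + C := by
  obtain ⟨C, hC, H⟩ := LZ_ul n
  refine ⟨k ^ 2 * (9 * C + 2), fun δ h0 h1 x h hx0 hx1 hh hh2 => ?_⟩
  obtain ⟨H1, H2, H3, H4⟩ := H δ h0 h1 x hx0 hx1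
  set L : ℝ := Real.log (1 / δ) with hL
  have hL0 : 0 ≤ L := Real.log_nonneg (by rw [le_div_iff₀ h0]; linarith)
  have hp := Real.rpow_pos_of_pos h0 x
  have hx1' : δ ^ x ≤ 1 := Real.rpow_le_one h0.le (by linarith) hx0
  have hn0 : (0:ℝ) < n := by exact_mod_cast hn
  set A : ℝ → ℝ := fun u => (LZ (1 + 2 * δ) u).re with hA
  have hexp : SM.Lr (kN n k) (hN n δ x h) δ = k ^ 2 * (2 * A 0 + (A (-h) + A h)) +
      (-(k ^ 2 / n)) * (∑ i, (A (-(sh n δ x i)) + A (sh n δ x i) + (A (h - sh n δ x i) + A (sh n δ x i - h)))) +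
      (k / n) ^ 2 * ∑ i, ∑ j, A (sh n δ x i - sh n δ x j) := by
    unfold SM.Lr kN hN
    simp only [Fin.sum_univ_succ, Fin.cons_zero, Fin.cons_succ, sub_self, zero_sub, sub_zero]
    simp only [Finset.sum_add_distrib, ← Finset.mul_sum, hA]
    ring
  rw [hexp]
  have hshu : ∀ i : Fin n, |sh n δ x i| ≤ (n + 2) * δ ^ x := fun i => by
    rw [abs_of_pos (sh_pos h0 i)]
    have := sh_le (x := x) h0 i
    nlinarith
  have hsd : ∀ i : Fin n, |h - sh n δ x i| ≤ (n + 2) * δ ^ x := fun i => by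
    have h2 := abs_sub h (sh n δ x i)
    have := sh_le (x := x) h0 i
    rw [abs_of_pos (sh_pos h0 i)] at h2
    nlinarith
  have b1 : 2 * A 0 + (A (-h) + A h) ≤ 2 * (L + C) + 2 * (x * L + 1 + C) := by
    have g1 : |h| ≤ n + 2 := by linarith
    have g2 := H4 h g1
    have g3 := H4 (-h) (by rw [abs_neg]; exact g1)
    rw [abs_neg] at g3
    have g4 : A 0 ≤ L + C := H1
    have g5 : A h ≤ x * L + 1 + C := g2.trans (by linarith)
    have g6 : A (-h) ≤ x * L + 1 + C := g3.trans (by linarith)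
    linarith
  have b2 : n * (4 * (x * L - C)) ≤
      ∑ i, (A (-(sh n δ x i)) + A (sh n δ x i) + (A (h - sh n δ x i) + A (sh n δ x i - h))) := by
    calc (n:ℝ) * (4 * (x * L - C)) = ∑ _i : Fin n, 4 * (x * L - C) := by
          rw [Finset.sum_const, Finset.card_univ, Fintype.card_fin, nsmul_eq_mul]
      _ ≤ _ := by
          refine Finset.sum_le_sum fun i _ => ?_
          have g1 := H3 (sh n δ x i) (hshu i)
          have g2 := H3 (-(sh n δ x i)) (by rw [abs_neg]; exact hshu i)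
          have g3 := H3 (h - sh n δ x i) (hsd i)
          have g4 := H3 (sh n δ x i - h) (by rw [abs_sub_comm]; exact hsd i)
          simp only [hA]
          linarith
  have b3 : ∑ i, ∑ j, A (sh n δ x i - sh n δ x j) ≤ n * ((1 - x) * L) + n ^ 2 * (x * L + C) := by
    refine sum_pairs (fun i j => A (sh n δ x i - sh n δ x j)) (by positivity) (fun i => ?_) fun i j hij => ?_
    · simp only [sub_self]
      have g4 : A 0 ≤ L + C := H1
      linarith
    · refine H2 _ ?_ (sh_diff h0 hij)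
      have g1 := sh_le (x := x) h0 i
      have g2 := sh_le (x := x) h0 j
      have g3 := sh_pos (x := x) h0 i
      have g4 := sh_pos (x := x) h0 j
      rw [abs_le]
      constructor <;> nlinarith
  have c1 : k ^ 2 * (2 * A 0 + (A (-h) + A h)) ≤ k ^ 2 * (2 * (L + C) + 2 * (x * L + 1 + C)) :=
    mul_le_mul_of_nonneg_left b1 (by positivity)
  have c2 : (-(k ^ 2 / n)) * (∑ i, (A (-(sh n δ x i)) + A (sh n δ x i) + (A (h - sh n δ x i) + A (sh n δ x i - h)))) ≤
      (-(k ^ 2 / n)) * (n * (4 * (x * L - C))) :=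
    mul_le_mul_of_nonpos_left b2 (by
      have : 0 ≤ k ^ 2 / n := by positivity
      linarith)
  have c3 : (k / n) ^ 2 * ∑ i, ∑ j, A (sh n δ x i - sh n δ x j) ≤
      (k / n) ^ 2 * (n * ((1 - x) * L) + n ^ 2 * (x * L + C)) :=
    mul_le_mul_of_nonneg_left b3 (by positivity)
  refine (add_le_add (add_le_add c1 c2) c3).trans (le_of_eq ?_)
  field_simp
  ring

/-- the main term of the moment beyond the barrier -/
lemma Lr_tilt (n : ℕ) (hn : 1 ≤ n) (k g : ℝ) (hk : 0 ≤ k) (hg : 0 ≤ g) : ∃ C : ℝ, ∀ δ : ℝ, 0 < δ → δ ≤ 1 / 16 →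
    ∀ x : ℝ, 0 ≤ x → x ≤ 1 →
    SM.Lr (kT n k g) (hT n δ x) δ ≤ (k ^ 2 + 2 * k * g * x + g ^ 2 * x + g ^ 2 / n * (1 - x)) * Real.log (1 / δ) + C := by
  obtain ⟨C, hC, H⟩ := LZ_ul n
  refine ⟨(k + g) ^ 2 * C, fun δ h0 h1 x hx0 hx1 => ?_⟩
  obtain ⟨H1, H2, H3, H4⟩ := H δ h0 h1 x hx0 hx1
  set L : ℝ := Real.log (1 / δ) with hL
  have hL0 : 0 ≤ L := Real.log_nonneg (by rw [le_div_iff₀ h0]; linarith)
  have hp := Real.rpow_pos_of_pos h0 x
  have hx1' : δ ^ x ≤ 1 := Real.rpow_le_one h0.le (by linarith) hx0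
  have hn0 : (0:ℝ) < n := by exact_mod_cast hn
  set A : ℝ → ℝ := fun u => (LZ (1 + 2 * δ) u).re with hA
  have hexp : SM.Lr (kT n k g) (hT n δ x) δ = k ^ 2 * A 0 +
      (k * (g / n)) * (∑ i, (A (-(sh n δ x i)) + A (sh n δ x i))) +
      (g / n) ^ 2 * ∑ i, ∑ j, A (sh n δ x i - sh n δ x j) := by
    unfold SM.Lr kT hT
    simp only [Fin.sum_univ_succ, Fin.cons_zero, Fin.cons_succ, sub_self, zero_sub, sub_zero]
    simp only [Finset.sum_add_distrib, ← Finset.mul_sum, hA]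
    ring
  rw [hexp]
  have hshu : ∀ i : Fin n, |sh n δ x i| ≤ n + 2 := fun i => by
    rw [abs_of_pos (sh_pos h0 i)]
    have := sh_le (x := x) h0 i
    nlinarith
  have hshl : ∀ i : Fin n, δ ^ x ≤ |sh n δ x i| := fun i => by
    rw [abs_of_pos (sh_pos h0 i)]
    exact sh_ge h0 i
  have b2 : ∑ i, (A (-(sh n δ x i)) + A (sh n δ x i)) ≤ n * (2 * (x * L + C)) := by
    calc _ ≤ ∑ _i : Fin n, 2 * (x * L + C) := by
          refine Finset.sum_le_sum fun i _ => ?_
          have g1 := H2 (sh n δ x i) (hshu i) (hshl i)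
          have g2 := H2 (-(sh n δ x i)) (by rw [abs_neg]; exact hshu i) (by rw [abs_neg]; exact hshl i)
          simp only [hA]
          linarith
      _ = (n:ℝ) * (2 * (x * L + C)) := by
          rw [Finset.sum_const, Finset.card_univ, Fintype.card_fin, nsmul_eq_mul]
  have b3 : ∑ i, ∑ j, A (sh n δ x i - sh n δ x j) ≤ n * ((1 - x) * L) + n ^ 2 * (x * L + C) := by
    refine sum_pairs (fun i j => A (sh n δ x i - sh n δ x j)) (by positivity) (fun i => ?_) fun i j hij => ?_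
    · simp only [sub_self]
      have g4 : A 0 ≤ L + C := H1
      linarith
    · refine H2 _ ?_ (sh_diff h0 hij)
      have g1 := sh_le (x := x) h0 i
      have g2 := sh_le (x := x) h0 j
      have g3 := sh_pos (x := x) h0 i
      have g4 := sh_pos (x := x) h0 j
      rw [abs_le]
      constructor <;> nlinarith
  have c1 : k ^ 2 * A 0 ≤ k ^ 2 * (L + C) := mul_le_mul_of_nonneg_left H1 (by positivity)
  have c2 : (k * (g / n)) * (∑ i, (A (-(sh n δ x i)) + A (sh n δ x i))) ≤ (k * (g / n)) * (n * (2 * (x * L + C))) :=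
    mul_le_mul_of_nonneg_left b2 (by positivity)
  have c3 : (g / n) ^ 2 * ∑ i, ∑ j, A (sh n δ x i - sh n δ x j) ≤
      (g / n) ^ 2 * (n * ((1 - x) * L) + n ^ 2 * (x * L + C)) :=
    mul_le_mul_of_nonneg_left b3 (by positivity)
  refine (add_le_add (add_le_add c1 c2) c3).trans (le_of_eq ?_)
  field_simp
  ring

end Run7.h291.WC
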