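import Pool.Agent.Run7.h291.WC.B1

set_option autoImplicit false

/-! The critical windows: the two-point function at distances up to `1` -/

namespace Run7.h291.WC

open Finset Filter MeasureTheory Topology Complex
open Pool.Agent.N748.MG Pool.Agent.N748.MJ Run7.h291.WN

lemma sqrt_small (A B : ℝ) (hB : 0 < B) : ∀ᶠ l : ℝ in atTop, A * Real.sqrt (l / 2) ≤ B * l := by
  filter_upwards [eventually_ge_atTop (max 0 (2 * (|A| / (2 * B)) ^ 2))] with l hl
  have h0 : 0 ≤ l := (le_max_left _ _).trans hl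
  have h1 : (|A| / (2 * B)) ^ 2 ≤ l / 2 := by
    have := (le_max_right _ _).trans hl
    linarith
  have h2 : |A| / (2 * B) ≤ Real.sqrt (l / 2) := Real.le_sqrt_of_sq_le h1
  have h3 : Real.sqrt (l / 2) * Real.sqrt (l / 2) = l / 2 := Real.mul_self_sqrt (by linarith)
  have h4 := Real.sqrt_nonneg (l / 2)
  rw [div_le_iff₀ (by positivity)] at h2
  have := le_abs_self A
  nlinarith

/-- the pointwise bound with the barrier -/
lemma gg_gg_le {n N : ℕ} {k y η e c W δ : ℝ} (hk : 0 < k) (h0 : 0 < δ) (i : Fin N) {t h : ℝ}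
    (ht : ∀ j, 0 < mz δ (t + sh n δ ((((i:ℕ):ℝ) + 1) / N) j)) :
    gg n N k y η e c W δ t * gg n N k y η e c W δ (t + h) ≤
      (((2 * δ) ^ (k ^ 2) / akR k) ^ 2 *
        (2 ^ (2 * k) * Real.exp (2 * k * Bl k (y + η + e) c δ ((((i:ℕ):ℝ) + 1) / N)))) *
        SM.G (kN n k) (hN n δ ((((i:ℕ):ℝ) + 1) / N) h) δ t := by
  set x : ℝ := (((i:ℕ):ℝ) + 1) / N with hx
  set c0 : ℝ := (2 * δ) ^ (k ^ 2) / akR k with hc0
  have hc0p : 0 < c0 := div_pos (Real.rpow_pos_of_pos (by linarith) _) (akp k)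
  have hbp : 0 < br n k (y + η + e) c δ x t := mul_pos (Real.exp_pos _)
    (Finset.prod_pos fun j _ => Real.rpow_pos_of_pos (ht j) _)
  have h1 : gg n N k y η e c W δ t ≤ c0 * mz δ t ^ (2 * k) *
      (2 ^ (2 * k) * br n k (y + η + e) c δ x t ^ (-(2 * k))) := by
    unfold gg
    refine mul_le_mul (FP_le t) ?_ (mul_nonneg (chi_nn _) (Finset.prod_nonneg fun i _ => psi_nn _)) (Zk_nn h0.le t)
    refine (mul_le_of_le_one_left (Finset.prod_nonneg fun i _ => psi_nn _) (chi_le _)).trans ?_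
    exact (prod_one _ i).trans (psi_up hbp (by linarith))
  have h2 : gg n N k y η e c W δ (t + h) ≤ c0 * mz δ (t + h) ^ (2 * k) := (gg_le h0.le _).trans (FP_le _)
  have h3 : 0 ≤ gg n N k y η e c W δ (t + h) := gg_nn h0.le _
  have h4 : 0 ≤ c0 * mz δ t ^ (2 * k) * (2 ^ (2 * k) * br n k (y + η + e) c δ x t ^ (-(2 * k))) := by
    have := Real.rpow_nonneg (TMA.mz_nn δ t) (2 * k)
    positivity
  refine (mul_le_mul h1 h2 h3 h4).trans (le_of_eq ?_)
  rw [br_rpow ht, G_kN]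
  have e1 : -(-(2 * k) * Bl k (y + η + e) c δ x) = 2 * k * Bl k (y + η + e) c δ x := by ring
  have e2 : ∀ j : Fin n, mz δ (t + sh n δ x j) ^ (-(2 * k) / n) = mz δ (t + sh n δ x j) ^ (2 * (-(k / n))) := by
    intro j
    congr 1
    ring
  rw [e1, Finset.prod_congr rfl fun j _ => e2 j]
  ring

/-- the two-point function with the barrier at one scale -/
lemma tp_near (n : ℕ) (hn : 1 ≤ n) (k y η e c W : ℝ) (hk : 0 < k) (hη : 0 < η) (hc : 0 ≤ c) (hW : 0 ≤ W) :
    ∃ C : ℝ, 0 < C ∧ Ev fun X δ => ∀ (N : ℕ) (i : Fin N) (h : ℝ), 0 ≤ h → h ≤ δ ^ ((((i:ℕ):ℝ) + 1) / N) →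
    Real.log (1 / max h δ) ≤ ((((i:ℕ):ℝ) + 1) / N) * Real.log (1 / δ) + 1 →
    ∫ t in (0:ℝ)..X, gg n N k y η e c W δ t * gg n N k y η e c W δ (t + h) ≤
      C * (X * Real.exp (k ^ 2 * ((((i:ℕ):ℝ) + 1) / N) * Real.log (1 / δ) + 2 * k * (y + η + e) * sg δ +
        (2 * k * c + k ^ 2 / n) * (1 - (((i:ℕ):ℝ) + 1) / N) * Real.log (1 / δ))) := by
  obtain ⟨c1, C, hc1, hC, HJ⟩ := jmr (n + 2) k (2 * W + 1) hk (by linarith)
  obtain ⟨C1, H1⟩ := Lr_near n hn k
  have hn0 : (0:ℝ) < n := by exact_mod_cast hn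
  set Ct : ℝ := ((2:ℝ) ^ (k ^ 2) / akR k) ^ 2 * 2 ^ (2 * k) * ((C + 1) * Real.exp C1) + 1 with hCt
  have ha := akp k
  have hCtp : 0 < Ct := by positivity
  refine ⟨Ct, hCtp, ?_⟩
  have hX : ∀ᶠ X : ℝ in atTop, ((n:ℝ) + 2) ≤ X ^ ((1:ℝ) / 2) :=
    (tendsto_rpow_atTop (by norm_num)).eventually_ge_atTop _
  refine (((HJ 1 one_pos).and (Ev.of_ev hX)).and (of_L (sqrt_small (-(2 * k * (y + η + e))) 1 one_pos))).mono ?_
  rintro X δ hX1 h0 h1 ⟨⟨HJ, hX2⟩, hsq⟩ N i h hh hh2 hh3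
  set x : ℝ := (((i:ℕ):ℝ) + 1) / N with hx
  have hN0 : (0:ℝ) < N := by exact_mod_cast i.pos
  have hx0 : 0 ≤ x := by positivity
  have hx1 : x ≤ 1 := by
    rw [hx, div_le_one hN0]
    exact_mod_cast i.2
  have hp := Real.rpow_pos_of_pos h0 x
  have hx1' : δ ^ x ≤ 1 := Real.rpow_le_one h0.le (by linarith) hx0
  have hX0 : 0 < X := by linarith
  set L : ℝ := Real.log (1 / δ) with hL
  have hL1 : 1 ≤ L := log_inv_ge h0 h1
  obtain ⟨S, n1, n2, n3, n4, n5⟩ := HJ (hN n δ x h) (by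
    intro j
    refine le_trans ?_ hX2
    unfold hN
    refine Fin.cases ?_ (fun j => ?_) j
    · rw [Fin.cons_zero, abs_zero]
      positivity
    · refine Fin.cases ?_ (fun j => ?_) j
      · rw [Fin.cons_succ, Fin.cons_zero, abs_of_nonneg hh]
        linarith
      · rw [Fin.cons_succ, Fin.cons_succ, abs_of_pos (sh_pos h0 j)]
        have := sh_le (x := x) h0 j
        nlinarith)
  obtain ⟨a, a1, a2, a3, a4, a5⟩ := n5 (kN n k) (by
    intro j
    unfold kN
    refine Fin.cases ?_ (fun j => ?_) j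
    · rw [Fin.cons_zero, abs_of_pos hk]
    · refine Fin.cases ?_ (fun j => ?_) j
      · rw [Fin.cons_succ, Fin.cons_zero, abs_of_pos hk]
      · rw [Fin.cons_succ, Fin.cons_succ, abs_neg, abs_of_pos (by positivity)]
        exact div_le_self hk.le (by exact_mod_cast hn))
  have hLr := H1 δ h0 h1 x h hx0 hx1 (by rw [abs_of_nonneg hh]; exact hh2) (by rw [abs_of_nonneg hh]; exact hh3)
  rw [← hL] at hLr
  set E : ℝ := SM.Lr (kN n k) (hN n δ x h) δ with hE
  have hI : ∫ t in S, SM.G (kN n k) (hN n δ x h) δ t ≤ X * ((C + 1) * Real.exp E) := by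
    have := (abs_le.1 a5).2
    have he := Real.exp_pos E
    have h2 : X * (a * Real.exp E) ≤ X * (C * Real.exp E) :=
      mul_le_mul_of_nonneg_left (mul_le_mul_of_nonneg_right a2 he.le) hX0.le
    linarith
  have hmz : ∀ t ∈ S, ∀ j : Fin n, 0 < mz δ (t + sh n δ x j) := by
    intro t ht j
    have := n4 t ht (Fin.succ (Fin.succ j))
    unfold hN at this
    rwa [Fin.cons_succ, Fin.cons_succ] at this
  set cc : ℝ := ((2 * δ) ^ (k ^ 2) / akR k) ^ 2 * (2 ^ (2 * k) * Real.exp (2 * k * Bl k (y + η + e) c δ x)) with hcc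
  have hccp : 0 < cc := by
    have := Real.rpow_pos_of_pos (show 0 < 2 * δ by linarith) (k ^ 2)
    positivity
  have hmain := offN (g := fun t => gg n N k y η e c W δ t * gg n N k y η e c W δ (t + h))
    (G := fun t => SM.G (kN n k) (hN n δ x h) δ t) (N := S) (X := X) (B := δ ^ (-W) * δ ^ (-W))
    (c := cc) (v := δ ^ (2 * W + 1) * X) hX0.le n1 n2 n3
    (mul_nonneg (Real.rpow_nonneg h0.le _) hX0.le)
    ((gg_cont hk.le hη.le h1).mul ((gg_cont hk.le hη.le h1).comp (by fun_prop)))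
    (fun t => mul_nonneg (gg_nn h0.le _) (gg_nn h0.le _))
    (fun t => mul_le_mul ((gg_le h0.le _).trans (FP_le' _)) ((gg_le h0.le _).trans (FP_le' _)) (gg_nn h0.le _)
      (Real.rpow_nonneg h0.le _)) a4 (fun t ht => gg_gg_le hk h0 i (hmz t ht))
  refine hmain.trans ?_
  have e1 : δ ^ (-W) * δ ^ (-W) * (δ ^ (2 * W + 1) * X) = δ * X := by
    rw [← mul_assoc, ← Real.rpow_add h0, ← Real.rpow_add h0]
    have : -W + -W + (2 * W + 1) = 1 := by ring
    rw [this, Real.rpow_one]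
  have e2 : Real.exp E ≤ Real.exp C1 * Real.exp ((k ^ 2 * (2 - x) + k ^ 2 / n * (1 - x)) * L) := by
    rw [← Real.exp_add]
    exact Real.exp_le_exp.2 (by linarith)
  have hδe : ∀ z : ℝ, δ ^ z = Real.exp (-(z * L)) := by
    intro z
    have := expL h0 (-z)
    rw [neg_neg] at this
    rw [← this, hL]
    congr 1
    ring
  have e3 : cc = ((2:ℝ) ^ (k ^ 2) / akR k) ^ 2 * 2 ^ (2 * k) *
      Real.exp (-(2 * k ^ 2 * L) + 2 * k * Bl k (y + η + e) c δ x) := by
    rw [hcc, Real.mul_rpow (by norm_num) h0.le, Real.exp_add, ← hδe,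
      show (2 * k ^ 2 : ℝ) = k ^ 2 + k ^ 2 by ring, Real.rpow_add h0]
    ring
  set P : ℝ := Real.exp (k ^ 2 * x * L + 2 * k * (y + η + e) * sg δ + (2 * k * c + k ^ 2 / n) * (1 - x) * L) with hP
  have hsq' : -(2 * k * (y + η + e)) * sg δ ≤ 1 * L := hsq
  have hδP : δ ≤ P := by
    have g1 : δ = Real.exp (-L) := by
      have := hδe 1
      rw [Real.rpow_one, one_mul] at this
      exact this
    rw [hP]
    refine g1.le.trans (Real.exp_le_exp.2 ?_)
    have q1 : 0 ≤ k ^ 2 * x * L := by positivity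
    have q2 : 0 ≤ (2 * k * c + k ^ 2 / n) * (1 - x) * L := by
      have : 0 ≤ 1 - x := by linarith
      positivity
    nlinarith
  have e4 : Real.exp (-(2 * k ^ 2 * L) + 2 * k * Bl k (y + η + e) c δ x) *
      Real.exp ((k ^ 2 * (2 - x) + k ^ 2 / n * (1 - x)) * L) = P := by
    rw [← Real.exp_add, hP]
    congr 1
    unfold Bl
    rw [← hL]
    ring
  calc cc * (∫ t in S, SM.G (kN n k) (hN n δ x h) δ t) + δ ^ (-W) * δ ^ (-W) * (δ ^ (2 * W + 1) * X)
      ≤ cc * (X * ((C + 1) * (Real.exp C1 * Real.exp ((k ^ 2 * (2 - x) + k ^ 2 / n * (1 - x)) * L)))) + δ * X := by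
        rw [e1]
        refine add_le_add (mul_le_mul_of_nonneg_left (hI.trans ?_) hccp.le) le_rfl
        exact mul_le_mul_of_nonneg_left (mul_le_mul_of_nonneg_left e2 (by linarith)) hX0.le
    _ = ((2:ℝ) ^ (k ^ 2) / akR k) ^ 2 * 2 ^ (2 * k) * ((C + 1) * Real.exp C1) * (X *
          (Real.exp (-(2 * k ^ 2 * L) + 2 * k * Bl k (y + η + e) c δ x) *
            Real.exp ((k ^ 2 * (2 - x) + k ^ 2 / n * (1 - x)) * L))) + δ * X := by
        rw [e3]
        ring
    _ ≤ ((2:ℝ) ^ (k ^ 2) / akR k) ^ 2 * 2 ^ (2 * k) * ((C + 1) * Real.exp C1) * (X * P) + P * X := by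
        rw [e4]
        exact add_le_add le_rfl (mul_le_mul_of_nonneg_right hδP hX0.le)
    _ = Ct * (X * P) := by
        rw [hCt]
        ring

/-- a bound of the two-point function without the barrier -/
lemma tp_up (n : ℕ) (k y η e c W : ℝ) (hk : 0 < k) (hη : 0 < η) (hW : 0 ≤ W) : ∃ C : ℝ, 0 < C ∧ Ev fun X δ =>
    ∀ (N : ℕ) (h : ℝ), 0 ≤ h → h ≤ 1 →
    ∫ t in (0:ℝ)..X, gg n N k y η e c W δ t * gg n N k y η e c W δ (t + h) ≤ C * (X * (max h δ) ^ (-(2 * k ^ 2))) := by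
  obtain ⟨c1, C, hc1, hC, HJ⟩ := jmr 2 k (2 * W + 1) hk (by linarith)
  obtain ⟨C1, H1⟩ := Lr_two 1 k zero_le_one
  set Ct : ℝ := ((2:ℝ) ^ (k ^ 2) / akR k) ^ 2 * ((C + 1) * Real.exp C1) + 1 with hCt
  have ha := akp k
  have hCtp : 0 < Ct := by positivity
  refine ⟨Ct, hCtp, ?_⟩
  have hX : ∀ᶠ X : ℝ in atTop, (1:ℝ) ≤ X ^ ((1:ℝ) / 2) :=
    (tendsto_rpow_atTop (by norm_num)).eventually_ge_atTop _
  refine ((HJ 1 one_pos).and (Ev.of_ev hX)).mono ?_
  rintro X δ hX1 h0 h1 ⟨HJ, hX2⟩ N h hh hh2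
  have hX0 : 0 < X := by linarith
  obtain ⟨S, n1, n2, n3, n4, n5⟩ := HJ ![0, h] (by
    intro j
    refine le_trans ?_ hX2
    fin_cases j
    · simp
    · simpa [abs_of_nonneg hh] using hh2)
  obtain ⟨a, a1, a2, a3, a4, a5⟩ := n5 (fun _ => k) (by
    intro j
    rw [abs_of_pos hk])
  have hLr := H1 δ h0 h1 h (by rw [abs_of_nonneg hh]; exact hh2)
  rw [abs_of_nonneg hh] at hLr
  set E : ℝ := SM.Lr (fun _ : Fin 2 => k) ![0, h] δ with hE
  have hI : ∫ t in S, SM.G (fun _ : Fin 2 => k) ![0, h] δ t ≤ X * ((C + 1) * Real.exp E) := by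
    have := (abs_le.1 a5).2
    have he := Real.exp_pos E
    have h2 : X * (a * Real.exp E) ≤ X * (C * Real.exp E) :=
      mul_le_mul_of_nonneg_left (mul_le_mul_of_nonneg_right a2 he.le) hX0.le
    linarith
  set cc : ℝ := ((2 * δ) ^ (k ^ 2) / akR k) ^ 2 with hcc
  have hmain := offN (g := fun t => gg n N k y η e c W δ t * gg n N k y η e c W δ (t + h))
    (G := fun t => SM.G (fun _ : Fin 2 => k) ![0, h] δ t) (N := S) (X := X) (B := δ ^ (-W) * δ ^ (-W))
    (c := cc) (v := δ ^ (2 * W + 1) * X) hX0.le n1 n2 n3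
    (mul_nonneg (Real.rpow_nonneg h0.le _) hX0.le)
    ((gg_cont hk.le hη.le h1).mul ((gg_cont hk.le hη.le h1).comp (by fun_prop)))
    (fun t => mul_nonneg (gg_nn h0.le _) (gg_nn h0.le _))
    (fun t => mul_le_mul ((gg_le h0.le _).trans (FP_le' _)) ((gg_le h0.le _).trans (FP_le' _)) (gg_nn h0.le _)
      (Real.rpow_nonneg h0.le _)) a4 (fun t ht => by
        rw [G_two]
        refine (mul_le_mul ((gg_le h0.le _).trans (FP_le _)) ((gg_le h0.le _).trans (FP_le _)) (gg_nn h0.le _)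
          (Zk_nn h0.le _)).trans (le_of_eq ?_)
        unfold Zk
        ring)
  refine hmain.trans ?_
  have hM : 0 < max h δ := lt_of_lt_of_le h0 (le_max_right _ _)
  have e1 : δ ^ (-W) * δ ^ (-W) * (δ ^ (2 * W + 1) * X) = δ * X := by
    rw [← mul_assoc, ← Real.rpow_add h0, ← Real.rpow_add h0]
    have : -W + -W + (2 * W + 1) = 1 := by ring
    rw [this, Real.rpow_one]
  have e2 : Real.exp E ≤ Real.exp C1 * (δ ^ (-(2 * k ^ 2)) * (max h δ) ^ (-(2 * k ^ 2))) := by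
    rw [← expL h0, ← expL hM, ← Real.exp_add, ← Real.exp_add]
    exact Real.exp_le_exp.2 (by linarith)
  have e3 : cc = ((2:ℝ) ^ (k ^ 2) / akR k) ^ 2 * δ ^ (2 * k ^ 2) := by
    rw [hcc, Real.mul_rpow (by norm_num) h0.le, show (2 * k ^ 2 : ℝ) = k ^ 2 + k ^ 2 by ring, Real.rpow_add h0]
    ring
  have hccp : 0 < cc := by
    rw [e3]
    have := Real.rpow_pos_of_pos h0 (2 * k ^ 2)
    positivity
  set P : ℝ := (max h δ) ^ (-(2 * k ^ 2)) with hP
  have hP1 : 1 ≤ P := by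
    rw [hP]
    refine Real.one_le_rpow_of_pos_of_le_one_of_nonpos hM (max_le hh2 (by linarith)) ?_
    have : 0 ≤ 2 * k ^ 2 := by positivity
    linarith
  have e4 : δ ^ (2 * k ^ 2) * δ ^ (-(2 * k ^ 2)) = 1 := by
    rw [← Real.rpow_add h0, add_neg_cancel, Real.rpow_zero]
  calc cc * (∫ t in S, SM.G (fun _ : Fin 2 => k) ![0, h] δ t) + δ ^ (-W) * δ ^ (-W) * (δ ^ (2 * W + 1) * X)
      ≤ cc * (X * ((C + 1) * (Real.exp C1 * (δ ^ (-(2 * k ^ 2)) * P)))) + δ * X := by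
        rw [e1]
        refine add_le_add (mul_le_mul_of_nonneg_left (hI.trans ?_) hccp.le) le_rfl
        exact mul_le_mul_of_nonneg_left (mul_le_mul_of_nonneg_left e2 (by linarith)) hX0.le
    _ = ((2:ℝ) ^ (k ^ 2) / akR k) ^ 2 * ((C + 1) * Real.exp C1) * (X * P) *
          (δ ^ (2 * k ^ 2) * δ ^ (-(2 * k ^ 2))) + δ * X := by
        rw [e3]
        ring
    _ ≤ ((2:ℝ) ^ (k ^ 2) / akR k) ^ 2 * ((C + 1) * Real.exp C1) * (X * P) + X * P := by
        rw [e4, mul_one]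
        refine add_le_add le_rfl ?_
        nlinarith
    _ = Ct * (X * P) := by
        rw [hCt]
        ring

/-- the number of scales -/
noncomputable def NS (δ : ℝ) : ℕ := ⌈Real.log (1 / δ)⌉₊

/-- the two-point function at distances up to `1` -/
lemma tp_pt (n : ℕ) (hn : 1 ≤ n) (k y η e c W : ℝ) (hk : 0 < k) (hη : 0 < η) (hc : 0 ≤ c) (hW : 0 ≤ W) :
    ∃ C : ℝ, 0 < C ∧ Ev fun X δ => ∀ h : ℝ, 0 ≤ h → h ≤ 1 →
    ∫ t in (0:ℝ)..X, gg n (NS δ) k y η e c W δ t * gg n (NS δ) k y η e c W δ (t + h) ≤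
      C * (X * Real.exp (2 * k * (y + η + e) * sg δ)) *
        (δ ^ (-(2 * k * c + k ^ 2 / n)) * (max h δ) ^ (-(k ^ 2 - (2 * k * c + k ^ 2 / n)))) := by
  obtain ⟨C1, hC1, E1⟩ := tp_near n hn k y η e c W hk hη hc hW
  obtain ⟨C2, hC2, E2⟩ := tp_up n k y η e c W hk hη hW
  have hn0 : (0:ℝ) < n := by exact_mod_cast hn
  set β : ℝ := 2 * k * c + k ^ 2 / n with hβ
  have hβ0 : 0 < β := by positivity
  set Ct : ℝ := C1 * Real.exp β + C2 * Real.exp (2 * k ^ 2) with hCt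
  have hCt0 : 0 < Ct := by positivity
  have hq : ∀ᶠ l : ℝ in atTop, β + -(2 * k * (y + η + e)) * Real.sqrt (l / 2) ≤ β * l := by
    filter_upwards [sqrt_small (-(2 * k * (y + η + e))) (β / 2) (by positivity), eventually_ge_atTop 2] with l h1 h2
    nlinarith
  refine ⟨Ct, hCt0, ((E1.and E2).and (of_L hq)).mono ?_⟩
  rintro X δ hX1 h0 h1 ⟨⟨E1, E2⟩, hsq⟩ h hh hh1
  have hsq' : β + -(2 * k * (y + η + e)) * sg δ ≤ β * Real.log (1 / δ) := hsq
  have hX0 : 0 < X := by linarith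
  set L : ℝ := Real.log (1 / δ) with hL
  have hL1 : 1 ≤ L := log_inv_ge h0 h1
  have hL0 : 0 < L := by linarith
  set M : ℝ := max h δ with hM
  have hM0 : 0 < M := lt_of_lt_of_le h0 (le_max_right _ _)
  have hM1 : M ≤ 1 := max_le hh1 (by linarith)
  have hMh : h ≤ M := le_max_left _ _
  have hMδ : δ ≤ M := le_max_right _ _
  set z : ℝ := Real.log (1 / M) / L with hz
  have hzL : z * L = Real.log (1 / M) := by
    rw [hz]
    field_simp
  have hz0 : 0 ≤ z := div_nonneg (Real.log_nonneg (by rw [one_le_div hM0]; exact hM1)) hL0.le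
  have hz1 : z ≤ 1 := by
    rw [hz, div_le_one hL0]
    refine Real.log_le_log (by positivity) ?_
    exact one_div_le_one_div_of_le h0 hMδ
  have hδe : ∀ z : ℝ, δ ^ z = Real.exp (-(z * L)) := by
    intro z
    have := expL h0 (-z)
    rw [neg_neg] at this
    rw [← this, hL]
    congr 1
    ring
  have hMz : M = δ ^ z := by
    rw [hδe, hzL, one_div, Real.log_inv, neg_neg, Real.exp_log hM0]
  have hR : δ ^ (-β) * M ^ (-(k ^ 2 - β)) = Real.exp (k ^ 2 * z * L + β * (1 - z) * L) := by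
    rw [hMz, ← Real.rpow_mul h0.le, hδe, hδe, ← Real.exp_add]
    congr 1
    ring
  set N : ℕ := NS δ with hN
  have hNL : L ≤ N := by
    rw [hN]
    exact Nat.le_ceil _
  have hN0 : (0:ℝ) < N := by linarith
  set i0 : ℕ := ⌊(N:ℝ) * z⌋₊ with hi0
  have hi1 : (i0:ℝ) ≤ N * z := Nat.floor_le (by positivity)
  have hi2 : N * z < i0 + 1 := Nat.lt_floor_add_one _
  rcases Nat.eq_zero_or_pos i0 with hz' | hp
  · -- large distances
    rw [hz'] at hi2
    have hzN : z * L ≤ 1 := by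
      push_cast at hi2
      nlinarith
    refine (E2 N h hh hh1).trans ?_
    have g1 : M ^ (-(2 * k ^ 2)) ≤ Real.exp (2 * k ^ 2) := by
      rw [hMz, ← Real.rpow_mul h0.le, hδe]
      refine Real.exp_le_exp.2 ?_
      have : 2 * k ^ 2 * (z * L) ≤ 2 * k ^ 2 * 1 := mul_le_mul_of_nonneg_left hzN (by positivity)
      nlinarith
    have g2 : 1 ≤ Real.exp (2 * k * (y + η + e) * sg δ) * (δ ^ (-β) * M ^ (-(k ^ 2 - β))) := by
      rw [hR, ← Real.exp_add]
      refine Real.one_le_exp ?_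
      have q1 : 0 ≤ k ^ 2 * z * L := by positivity
      have q2 : β * (z * L) ≤ β * 1 := mul_le_mul_of_nonneg_left hzN hβ0.le
      nlinarith
    calc C2 * (X * M ^ (-(2 * k ^ 2))) ≤ C2 * (X * Real.exp (2 * k ^ 2)) := by gcongr
      _ ≤ Ct * X * 1 := by
          have : 0 < C1 * Real.exp β * X := by positivity
          rw [hCt]
          nlinarith
      _ ≤ Ct * X * (Real.exp (2 * k * (y + η + e) * sg δ) * (δ ^ (-β) * M ^ (-(k ^ 2 - β)))) :=
          mul_le_mul_of_nonneg_left g2 (by positivity)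
      _ = Ct * (X * Real.exp (2 * k * (y + η + e) * sg δ)) * (δ ^ (-β) * M ^ (-(k ^ 2 - β))) := by ring
  · -- the barrier at the right scale
    have hi3 : i0 ≤ N := by
      have : (i0:ℝ) ≤ N := hi1.trans (by nlinarith)
      exact_mod_cast this
    set i : Fin N := ⟨i0 - 1, by omega⟩ with hi
    have hix : (((i:ℕ):ℝ) + 1) / N = i0 / N := by
      congr 1
      rw [hi]
      simp only
      rw [Nat.cast_sub hp]
      push_cast
      ring
    set x : ℝ := i0 / N with hx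
    have hxz : x ≤ z := by
      rw [hx, div_le_iff₀ hN0]
      linarith
    have hx0 : 0 ≤ x := by positivity
    have hzx : z * L ≤ x * L + 1 := by
      have q1 : z ≤ x + 1 / N := by
        rw [hx, ← add_div, le_div_iff₀ hN0]
        linarith
      have q2 : 1 / (N:ℝ) * L ≤ 1 := by
        rw [one_div, inv_mul_le_iff₀ hN0]
        linarith
      nlinarith
    have key := E1 N i h hh (by
      rw [hix]
      refine hMh.trans ?_
      rw [hMz]
      exact Real.rpow_le_rpow_of_exponent_ge h0 (by linarith) hxz) (by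
      rw [hix, ← hM, ← hzL]
      exact hzx)
    rw [hix] at key
    refine key.trans ?_
    have g1 : Real.exp (k ^ 2 * x * L + 2 * k * (y + η + e) * sg δ + β * (1 - x) * L) ≤
        Real.exp β * Real.exp (2 * k * (y + η + e) * sg δ) * (δ ^ (-β) * M ^ (-(k ^ 2 - β))) := by
      rw [hR, ← Real.exp_add, ← Real.exp_add]
      refine Real.exp_le_exp.2 ?_
      have q1 : k ^ 2 * (x * L) ≤ k ^ 2 * (z * L) :=
        mul_le_mul_of_nonneg_left (mul_le_mul_of_nonneg_right hxz hL0.le) (by positivity)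
      have q2 : β * (z * L) ≤ β * (x * L + 1) := mul_le_mul_of_nonneg_left hzx hβ0.le
      nlinarith
    have hpos : 0 ≤ Real.exp (2 * k * (y + η + e) * sg δ) * (δ ^ (-β) * M ^ (-(k ^ 2 - β))) := by
      have := Real.rpow_pos_of_pos h0 (-β)
      have := Real.rpow_pos_of_pos hM0 (-(k ^ 2 - β))
      positivity
    calc C1 * (X * Real.exp (k ^ 2 * x * L + 2 * k * (y + η + e) * sg δ + β * (1 - x) * L))
        ≤ C1 * (X * (Real.exp β * Real.exp (2 * k * (y + η + e) * sg δ) * (δ ^ (-β) * M ^ (-(k ^ 2 - β))))) :=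
          mul_le_mul_of_nonneg_left (mul_le_mul_of_nonneg_left g1 hX0.le) hC1.le
      _ = (C1 * Real.exp β) * X * (Real.exp (2 * k * (y + η + e) * sg δ) * (δ ^ (-β) * M ^ (-(k ^ 2 - β)))) := by ring
      _ ≤ Ct * X * (Real.exp (2 * k * (y + η + e) * sg δ) * (δ ^ (-β) * M ^ (-(k ^ 2 - β)))) := by
          refine mul_le_mul_of_nonneg_right (mul_le_mul_of_nonneg_right ?_ hX0.le) hpos
          rw [hCt]
          have : 0 < C2 * Real.exp (2 * k ^ 2) := by positivity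
          linarith
      _ = Ct * (X * Real.exp (2 * k * (y + η + e) * sg δ)) * (δ ^ (-β) * M ^ (-(k ^ 2 - β))) := by ring

/-- the integral of the power of the maximum -/
lemma int_max {δ p z : ℝ} (h0 : 0 < δ) (h1 : δ ≤ 1) (hp : 1 < p) (hz0 : 0 ≤ z) (hz : z ≤ 1) :
    ∫ h in (0:ℝ)..z, (max h δ) ^ (-p) ≤ (1 + 1 / (p - 1)) * δ ^ (1 - p) := by
  have hc : ∀ a b : ℝ, IntervalIntegrable (fun h : ℝ => (max h δ) ^ (-p)) volume a b := by
    intro a b
    refine Continuous.intervalIntegrable ?_ a b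
    refine Continuous.rpow_const (by fun_prop) fun x => Or.inl ?_
    exact (lt_of_lt_of_le h0 (le_max_right x δ)).ne'
  have hm : ∫ h in (0:ℝ)..z, (max h δ) ^ (-p) ≤ ∫ h in (0:ℝ)..1, (max h δ) ^ (-p) := by
    refine intervalIntegral.integral_mono_interval le_rfl hz0 hz ?_ (hc _ _)
    exact Filter.Eventually.of_forall fun h => Real.rpow_nonneg (le_trans h0.le (le_max_right _ _)) _
  refine hm.trans ?_
  rw [← intervalIntegral.integral_add_adjacent_intervals (hc 0 δ) (hc δ 1)]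
  have e1 : ∫ h in (0:ℝ)..δ, (max h δ) ^ (-p) = δ ^ (1 - p) := by
    have : ∫ h in (0:ℝ)..δ, (max h δ) ^ (-p) = ∫ h in (0:ℝ)..δ, δ ^ (-p) := by
      refine intervalIntegral.integral_congr fun h hh => ?_
      rw [Set.uIcc_of_le h0.le] at hh
      show (max h δ) ^ (-p) = δ ^ (-p)
      rw [max_eq_right hh.2]
    rw [this, intervalIntegral.integral_const, smul_eq_mul, sub_zero]
    rw [sub_eq_add_neg, Real.rpow_add h0, Real.rpow_one]
  have e2 : ∫ h in δ..1, (max h δ) ^ (-p) ≤ 1 / (p - 1) * δ ^ (1 - p) := by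
    have : ∫ h in δ..1, (max h δ) ^ (-p) = ∫ h in δ..1, h ^ (-p) := by
      refine intervalIntegral.integral_congr fun h hh => ?_
      rw [Set.uIcc_of_le h1] at hh
      show (max h δ) ^ (-p) = h ^ (-p)
      rw [max_eq_left hh.1]
    rw [this, integral_rpow (Or.inr ⟨by linarith, by
      rw [Set.uIcc_of_le h1]
      intro h
      linarith [h.1]⟩)]
    rw [Real.one_rpow]
    have e3 : (1 - δ ^ (-p + 1)) / (-p + 1) = 1 / (p - 1) * (δ ^ (1 - p) - 1) := by
      have : -p + 1 = 1 - p := by ring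
      rw [this]
      have h2 : (1 - p) ≠ 0 := by linarith
      have h3 : (p - 1) ≠ 0 := by linarith
      field_simp
      ring
    rw [e3]
    refine mul_le_mul_of_nonneg_left (by linarith) ?_
    exact div_nonneg zero_le_one (by linarith)
  rw [e1]
  linarith

/-- the correlation function -/
noncomputable def cg (n N : ℕ) (k y η e c W δ X h : ℝ) : ℝ :=
  ∫ t in (0:ℝ)..X, gg n N k y η e c W δ t * gg n N k y η e c W δ (t + h)

lemma cg_cont {n N : ℕ} {k y η e c W δ X : ℝ} (hk : 0 ≤ k) (hη : 0 ≤ η) (h1 : δ ≤ 1 / 16) :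
    Continuous fun h => cg n N k y η e c W δ X h := by
  unfold cg
  refine intervalIntegral.continuous_parametric_intervalIntegral_of_continuous (f := fun h t =>
    gg n N k y η e c W δ t * gg n N k y η e c W δ (t + h)) ?_ continuous_const
  exact ((gg_cont hk hη h1).comp continuous_snd).mul ((gg_cont hk hη h1).comp (by fun_prop))

/-- the integral of the correlation function over `[0, 1]` -/
lemma cg_one (k : ℝ) (hk : 1 < k) : ∃ (n : ℕ) (c : ℝ), 1 ≤ n ∧ 0 < c ∧ c < k ∧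
    ∀ y η e W : ℝ, 0 < η → 0 ≤ W → ∃ C : ℝ, 0 < C ∧ Ev fun X δ => ∀ x : ℝ, 0 ≤ x → x ≤ 1 →
    ∫ h in (0:ℝ)..x, cg n (NS δ) k y η e c W δ X h ≤
      C * (X * (δ ^ (1 - k ^ 2) * Real.exp (2 * k * (y + η + e) * sg δ))) := by
  have hk0 : 0 < k := by linarith
  have hk2 : 0 < k ^ 2 - 1 := by nlinarith
  obtain ⟨n, hn⟩ := exists_nat_ge (4 * k ^ 2 / (k ^ 2 - 1) + 1)
  have hn1 : (1:ℝ) ≤ n := le_trans (by
    have : 0 ≤ 4 * k ^ 2 / (k ^ 2 - 1) := by positivity
    linarith) hn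
  have hn1' : 1 ≤ n := by exact_mod_cast hn1
  have hn0 : (0:ℝ) < n := by linarith
  have hnr : k ^ 2 / n ≤ (k ^ 2 - 1) / 4 := by
    rw [div_le_iff₀ hn0]
    have : 4 * k ^ 2 / (k ^ 2 - 1) ≤ n := by linarith
    rw [div_le_iff₀ hk2] at this
    linarith
  set c : ℝ := (k ^ 2 - 1) / (8 * k) with hc
  have hc0 : 0 < c := by positivity
  have hck : c < k := by
    rw [hc, div_lt_iff₀ (by positivity)]
    nlinarith
  have h2kc : 2 * k * c = (k ^ 2 - 1) / 4 := by
    rw [hc]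
    field_simp
    ring
  refine ⟨n, c, hn1', hc0, hck, fun y η e W hη hW => ?_⟩
  obtain ⟨C, hC, E⟩ := tp_pt n hn1' k y η e c W hk0 hη hc0.le hW
  set β : ℝ := 2 * k * c + k ^ 2 / n with hβ
  set p : ℝ := k ^ 2 - β with hp
  have hp1 : 1 < p := by
    rw [hp, hβ, h2kc]
    linarith
  have hp2 : 0 < p - 1 := by linarith
  refine ⟨C * (1 + 1 / (p - 1)), by positivity, E.mono ?_⟩
  intro X δ hX1 h0 h1 E x hx hx1
  have hX0 : 0 < X := by linarith
  set Q : ℝ := C * (X * Real.exp (2 * k * (y + η + e) * sg δ)) with hQ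
  have hQ0 : 0 < Q := by positivity
  have hδβ : 0 < δ ^ (-β) := Real.rpow_pos_of_pos h0 _
  have hmc : Continuous fun h : ℝ => Q * (δ ^ (-β) * (max h δ) ^ (-p)) := by
    refine continuous_const.mul (continuous_const.mul (Continuous.rpow_const (by fun_prop) fun x => Or.inl ?_))
    exact (lt_of_lt_of_le h0 (le_max_right x δ)).ne'
  calc ∫ h in (0:ℝ)..x, cg n (NS δ) k y η e c W δ X h ≤ ∫ h in (0:ℝ)..x, Q * (δ ^ (-β) * (max h δ) ^ (-p)) := by
        refine intervalIntegral.integral_mono_on hx ((cg_cont hk0.le hη.le h1).intervalIntegrable _ _)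
          (hmc.intervalIntegrable _ _) fun h hh => ?_
        exact E h hh.1 (hh.2.trans hx1)
    _ = Q * (δ ^ (-β) * ∫ h in (0:ℝ)..x, (max h δ) ^ (-p)) := by
        rw [intervalIntegral.integral_const_mul, intervalIntegral.integral_const_mul]
    _ ≤ Q * (δ ^ (-β) * ((1 + 1 / (p - 1)) * δ ^ (1 - p))) := by
        refine mul_le_mul_of_nonneg_left (mul_le_mul_of_nonneg_left ?_ hδβ.le) hQ0.le
        exact int_max h0 (by linarith) hp1 hx hx1
    _ = C * (1 + 1 / (p - 1)) * (X * (δ ^ (1 - k ^ 2) * Real.exp (2 * k * (y + η + e) * sg δ))) := by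
        have e1 : δ ^ (1 - k ^ 2) = δ ^ (-β) * δ ^ (1 - p) := by
          rw [← Real.rpow_add h0]
          congr 1
          rw [hp]
          ring
        rw [e1, hQ]
        ring

end Run7.h291.WC
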