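import Pool.Agent.Run7.h291.WC.B2

set_option autoImplicit false

/-! The critical windows: the mass beyond the barrier, and the means -/

namespace Run7.h291.WC

open Finset Filter MeasureTheory Topology Complex
open Pool.Agent.N748.MG Pool.Agent.N748.MJ Run7.h291.WN

lemma dE {δ : ℝ} (h0 : 0 < δ) (z : ℝ) : δ ^ z = Real.exp (-(z * Real.log (1 / δ))) := by
  have := expL h0 (-z)
  rw [neg_neg] at this
  rw [← this]
  congr 1
  ring

lemma dE1 {δ : ℝ} (h0 : 0 < δ) : δ = Real.exp (-(Real.log (1 / δ))) := by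
  have := dE h0 1
  rw [Real.rpow_one, one_mul] at this
  exact this

/-- exponential decay in the square root -/
lemma exp_small (A B b ε : ℝ) (hb : 0 < b) (hε : 0 < ε) :
    ∀ᶠ l : ℝ in atTop, (A * l + B) * Real.exp (-(b * Real.sqrt (l / 2))) ≤ ε := by
  have h1 := tendsto_rpow_mul_exp_neg_mul_atTop_nhds_zero 2 b hb
  have h2 := tendsto_rpow_mul_exp_neg_mul_atTop_nhds_zero 0 b hb
  have h3 : Tendsto (fun x : ℝ => 2 * A * (x ^ (2:ℝ) * Real.exp (-b * x)) + B * (x ^ (0:ℝ) * Real.exp (-b * x)))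
      atTop (𝓝 0) := by
    have := (h1.const_mul (2 * A)).add (h2.const_mul B)
    simpa using this
  have h4 : Tendsto (fun l : ℝ => Real.sqrt (l / 2)) atTop atTop :=
    Real.tendsto_sqrt_atTop.comp (tendsto_id.atTop_div_const (by norm_num))
  have h5 := (h3.comp h4).eventually_le_const hε
  filter_upwards [h5, eventually_ge_atTop 0] with l hl hl0
  refine le_trans (le_of_eq ?_) hl
  simp only [Function.comp_apply]
  rw [Real.rpow_two, Real.sq_sqrt (by linarith), Real.rpow_zero, neg_mul]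
  ring

/-- the points beyond the barrier and below the level carry little mass -/
lemma beyond (n : ℕ) (hn : 1 ≤ n) (k y η e c W : ℝ) (hk : 0 < k) (hη : 0 < η) (hc : 0 < c) (hck : c < k)
    (hW : 0 ≤ W) : ∃ C : ℝ, 0 < C ∧ Ev fun X δ => ∀ x : ℝ, 0 ≤ x → x ≤ 1 →
    ∫ t in (0:ℝ)..X, FP k W δ t * (chi k y η δ t * (1 - psi (br n k (y + η + e) c δ x t))) ≤
      C * (X * Real.exp (-(2 * c * e * sg δ))) + δ * X := by
  have hn0 : (0:ℝ) < n := by exact_mod_cast hn
  have hn1 : (1:ℝ) ≤ n := by exact_mod_cast hn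
  obtain ⟨c1, C, hc1, hC, HJ⟩ := jmr (n + 1) (k + c) (W + 1) (by positivity) (by linarith)
  obtain ⟨C1, H1⟩ := Lr_tilt n hn (k - c) c (by linarith) hc.le
  have ha := akp k
  set Ct : ℝ := (2:ℝ) ^ (k ^ 2) / akR k * ((C + 1) * Real.exp C1) with hCt
  have hCtp : 0 < Ct := by positivity
  refine ⟨Ct, hCtp, ?_⟩
  have hX : ∀ᶠ X : ℝ in atTop, ((n:ℝ) + 2) ≤ X ^ ((1:ℝ) / 2) :=
    (tendsto_rpow_atTop (by norm_num)).eventually_ge_atTop _
  refine ((HJ 1 one_pos).and (Ev.of_ev hX)).mono ?_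
  rintro X δ hX1 h0 h1 ⟨HJ, hX2⟩ x hx0 hx1
  have hp := Real.rpow_pos_of_pos h0 x
  have hx1' : δ ^ x ≤ 1 := Real.rpow_le_one h0.le (by linarith) hx0
  have hX0 : 0 < X := by linarith
  set L : ℝ := Real.log (1 / δ) with hL
  have hL1 : 1 ≤ L := log_inv_ge h0 h1
  obtain ⟨S, n1, n2, n3, n4, n5⟩ := HJ (hT n δ x) (by
    intro j
    refine le_trans ?_ hX2
    unfold hT
    refine Fin.cases ?_ (fun j => ?_) j
    · rw [Fin.cons_zero, abs_zero]
      positivity
    · rw [Fin.cons_succ, abs_of_pos (sh_pos h0 j)]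
      have := sh_le (x := x) h0 j
      nlinarith)
  obtain ⟨a, a1, a2, a3, a4, a5⟩ := n5 (kT n (k - c) c) (by
    intro j
    unfold kT
    refine Fin.cases ?_ (fun j => ?_) j
    · rw [Fin.cons_zero, abs_of_pos (by linarith)]
      linarith
    · rw [Fin.cons_succ, abs_of_pos (by positivity)]
      have : c / n ≤ c := div_le_self hc.le hn1
      linarith)
  have hLr := H1 δ h0 h1 x hx0 hx1
  rw [← hL] at hLr
  set E : ℝ := SM.Lr (kT n (k - c) c) (hT n δ x) δ with hE
  have hI : ∫ t in S, SM.G (kT n (k - c) c) (hT n δ x) δ t ≤ X * ((C + 1) * Real.exp E) := by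
    have := (abs_le.1 a5).2
    have he := Real.exp_pos E
    have h2 : X * (a * Real.exp E) ≤ X * (C * Real.exp E) :=
      mul_le_mul_of_nonneg_left (mul_le_mul_of_nonneg_right a2 he.le) hX0.le
    linarith
  have hmz : ∀ t ∈ S, ∀ j : Fin n, 0 < mz δ (t + sh n δ x j) := by
    intro t ht j
    have := n4 t ht (Fin.succ j)
    unfold hT at this
    rwa [Fin.cons_succ] at this
  have hmz0 : ∀ t ∈ S, 0 < mz δ t := by
    intro t ht
    have := n4 t ht 0
    unfold hT at this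
    rwa [Fin.cons_zero, add_zero] at this
  set cc : ℝ := (2 * δ) ^ (k ^ 2) / akR k *
    (Real.exp (2 * c * Vl k (y + η) δ) * Real.exp (-(2 * c * Bl k (y + η + e) c δ x))) with hcc
  have hcc0 : 0 ≤ cc := by
    have := Real.rpow_nonneg (show 0 ≤ 2 * δ by linarith) (k ^ 2)
    positivity
  have hgc : Continuous fun t => FP k W δ t * (chi k y η δ t * (1 - psi (br n k (y + η + e) c δ x t))) :=
    (FP_cont hk.le h1).mul ((chi_cont hη.le h1).mul (continuous_const.sub (psi_cont.comp (br_cont h1))))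
  have hmain := offN (g := fun t => FP k W δ t * (chi k y η δ t * (1 - psi (br n k (y + η + e) c δ x t))))
    (G := fun t => SM.G (kT n (k - c) c) (hT n δ x) δ t) (N := S) (X := X) (B := δ ^ (-W) * 1)
    (c := cc) (v := δ ^ (W + 1) * X) hX0.le n1 n2 n3
    (mul_nonneg (Real.rpow_nonneg h0.le _) hX0.le) hgc
    (fun t => mul_nonneg (FP_nn h0.le _) (mul_nonneg (chi_nn _) (by linarith [psi_le (br n k (y + η + e) c δ x t)])))
    (fun t => mul_le_mul (FP_le' _) (mul_le_one₀ (chi_le _) (by linarith [psi_le (br n k (y + η + e) c δ x t)])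
      (by linarith [psi_nn (br n k (y + η + e) c δ x t)]))
      (mul_nonneg (chi_nn _) (by linarith [psi_le (br n k (y + η + e) c δ x t)])) (Real.rpow_nonneg h0.le _)) a4
      (fun t ht => by
        have hm := hmz0 t ht
        have g1 := psi_lo (br_nn t : 0 ≤ br n k (y + η + e) c δ x t) (show 0 ≤ 2 * c by linarith)
        have g2 := chi_up (k := k) (y := y) hη h0 h1 hm (show 0 ≤ 2 * c by linarith)
        refine (mul_le_mul (FP_le t) (mul_le_mul g2 g1 (by linarith [psi_le (br n k (y + η + e) c δ x t)])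
          (mul_nonneg (Real.exp_pos _).le (Real.rpow_nonneg hm.le _)))
          (mul_nonneg (chi_nn _) (by linarith [psi_le (br n k (y + η + e) c δ x t)])) (Zk_nn h0.le t)).trans
          (le_of_eq ?_)
        rw [br_rpow (hmz t ht), G_kT]
        unfold Zk
        have e2 : ∀ j : Fin n, mz δ (t + sh n δ x j) ^ (2 * c / n) = mz δ (t + sh n δ x j) ^ (2 * (c / n)) := by
          intro j
          congr 1
          ring
        have e3 : mz δ t ^ (2 * (k - c)) = mz δ t ^ (2 * k) * mz δ t ^ (-(2 * c)) := by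
          rw [← Real.rpow_add hm]
          congr 1
          ring
        rw [Finset.prod_congr rfl fun j _ => e2 j, hcc, e3]
        ring)
  refine hmain.trans ?_
  have f1 : δ ^ (-W) * 1 * (δ ^ (W + 1) * X) = δ * X := by
    rw [mul_one, ← mul_assoc, ← Real.rpow_add h0]
    have : -W + (W + 1) = 1 := by ring
    rw [this, Real.rpow_one]
  have f2 : Real.exp E ≤ Real.exp C1 *
      Real.exp (((k - c) ^ 2 + 2 * (k - c) * c * x + c ^ 2 * x + c ^ 2 / n * (1 - x)) * L) := by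
    rw [← Real.exp_add]
    exact Real.exp_le_exp.2 (by linarith)
  have f3 : cc = (2:ℝ) ^ (k ^ 2) / akR k *
      Real.exp (-(k ^ 2 * L) + 2 * c * Vl k (y + η) δ + -(2 * c * Bl k (y + η + e) c δ x)) := by
    rw [hcc, Real.mul_rpow (by norm_num) h0.le, Real.exp_add, Real.exp_add, dE h0]
    ring
  have f4 : Real.exp (-(k ^ 2 * L) + 2 * c * Vl k (y + η) δ + -(2 * c * Bl k (y + η + e) c δ x)) *
      Real.exp (((k - c) ^ 2 + 2 * (k - c) * c * x + c ^ 2 * x + c ^ 2 / n * (1 - x)) * L) ≤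
      Real.exp (-(2 * c * e * sg δ)) := by
    rw [← Real.exp_add]
    refine Real.exp_le_exp.2 ?_
    have g1 : c ^ 2 / n ≤ c ^ 2 := div_le_self (by positivity) hn1
    have g2 : c ^ 2 / n * ((1 - x) * L) ≤ c ^ 2 * ((1 - x) * L) :=
      mul_le_mul_of_nonneg_right g1 (mul_nonneg (by linarith) (by linarith))
    unfold Vl Bl
    rw [← hL]
    nlinarith
  calc cc * (∫ t in S, SM.G (kT n (k - c) c) (hT n δ x) δ t) + δ ^ (-W) * 1 * (δ ^ (W + 1) * X)
      ≤ cc * (X * ((C + 1) * (Real.exp C1 *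
          Real.exp (((k - c) ^ 2 + 2 * (k - c) * c * x + c ^ 2 * x + c ^ 2 / n * (1 - x)) * L)))) + δ * X := by
        rw [f1]
        refine add_le_add (mul_le_mul_of_nonneg_left (hI.trans ?_) hcc0) le_rfl
        exact mul_le_mul_of_nonneg_left (mul_le_mul_of_nonneg_left f2 (by linarith)) hX0.le
    _ = Ct * (X * (Real.exp (-(k ^ 2 * L) + 2 * c * Vl k (y + η) δ + -(2 * c * Bl k (y + η + e) c δ x)) *
          Real.exp (((k - c) ^ 2 + 2 * (k - c) * c * x + c ^ 2 * x + c ^ 2 / n * (1 - x)) * L))) + δ * X := by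
        rw [f3, hCt]
        ring
    _ ≤ Ct * (X * Real.exp (-(2 * c * e * sg δ))) + δ * X := by
        refine add_le_add (mul_le_mul_of_nonneg_left (mul_le_mul_of_nonneg_left f4 hX0.le) hCtp.le) le_rfl

/-- below the level the truncation is not active -/
lemma FP_chi (k y η W : ℝ) (hk : 0 < k) (hη : 0 < η) (hW : k ^ 2 + 1 ≤ W) : Ev fun _ δ => ∀ u : ℝ,
    (chi k y η δ u ≠ 0 → mz δ u ≤ Real.exp (Vl k (y + η) δ)) ∧
    FP k W δ u * chi k y η δ u = Zk k δ u * chi k y η δ u := by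
  have ha := akp k
  have hq : ∀ᶠ l : ℝ in atTop, Real.log ((2:ℝ) ^ (k ^ 2) / akR k) + 2 * k * (y + η) * Real.sqrt (l / 2) ≤ l := by
    filter_upwards [sqrt_small (2 * k * (y + η)) (1 / 2) (by norm_num),
      eventually_ge_atTop (2 * Real.log ((2:ℝ) ^ (k ^ 2) / akR k))] with l h1 h2
    linarith
  refine (of_L hq).mono ?_
  intro X δ hX1 h0 h1 hsq u
  have hsq' : Real.log ((2:ℝ) ^ (k ^ 2) / akR k) + 2 * k * (y + η) * sg δ ≤ Real.log (1 / δ) := hsq
  have hs := sg_pos h0 h1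
  have hL1 := log_inv_ge h0 h1
  have hm := TMA.mz_nn δ u
  have hlev : chi k y η δ u ≠ 0 → mz δ u ≤ Real.exp (Vl k (y + η) δ) := by
    intro hne
    by_contra hcon
    rw [not_le] at hcon
    apply hne
    have hmp : 0 < mz δ u := lt_trans (Real.exp_pos _) hcon
    rw [chi_eq hη h0 h1 hmp]
    refine phy_zero hη ?_
    have e1 : YY k δ u = (Real.log (mz δ u) - k * Real.log (1 / δ)) / sg δ := rfl
    rw [e1, le_div_iff₀ hs]
    have h2 := (Real.lt_log_iff_exp_lt hmp).2 hcon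
    unfold Vl at h2
    linarith
  refine ⟨hlev, ?_⟩
  by_cases hne : chi k y η δ u = 0
  · rw [hne, mul_zero, mul_zero]
  · congr 1
    unfold FP
    refine min_eq_left ?_
    have h2 := hlev hne
    have h3 : mz δ u ^ (2 * k) ≤ Real.exp (Vl k (y + η) δ) ^ (2 * k) := Real.rpow_le_rpow hm h2 (by linarith)
    unfold Zk
    have h4 : (2 * δ) ^ (k ^ 2) / akR k * mz δ u ^ (2 * k) ≤
        (2 * δ) ^ (k ^ 2) / akR k * Real.exp (Vl k (y + η) δ) ^ (2 * k) := by
      refine mul_le_mul_of_nonneg_left h3 ?_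
      have := Real.rpow_nonneg (show 0 ≤ 2 * δ by linarith) (k ^ 2)
      positivity
    refine h4.trans ?_
    have hA : 0 < (2:ℝ) ^ (k ^ 2) / akR k := by positivity
    have e1 : (2 * δ) ^ (k ^ 2) / akR k * Real.exp (Vl k (y + η) δ) ^ (2 * k) =
        Real.exp (Real.log ((2:ℝ) ^ (k ^ 2) / akR k) + (-(k ^ 2 * Real.log (1 / δ)) + Vl k (y + η) δ * (2 * k))) := by
      rw [Real.exp_add, Real.exp_log hA, Real.exp_add, Real.mul_rpow (by norm_num) h0.le, ← Real.exp_mul, dE h0]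
      ring
    rw [e1, dE h0]
    refine Real.exp_le_exp.2 ?_
    unfold Vl
    have h5 : (k ^ 2 + 1) * Real.log (1 / δ) ≤ W * Real.log (1 / δ) := mul_le_mul_of_nonneg_right hW (by linarith)
    nlinarith

/-- zeta near its pole, both sides -/
lemma pole_pow (q ε : ℝ) (hε : 0 < ε) : ∃ d0 : ℝ, 0 < d0 ∧ ∀ δ : ℝ, 0 < δ → δ ≤ d0 →
    |((2 * δ) * ‖riemannZeta (1 + 2 * δ)‖) ^ q - 1| ≤ ε := by
  have h1 : Tendsto (fun δ : ℝ => ((1 + 2 * δ : ℝ) : ℂ)) (𝓝[>] 0) (𝓝[≠] 1) := by
    rw [tendsto_nhdsWithin_iff]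
    constructor
    · have h2 : Tendsto (fun δ : ℝ => ((1 + 2 * δ : ℝ) : ℂ)) (𝓝 0) (𝓝 ((1 + 2 * (0:ℝ) : ℝ) : ℂ)) := by
        apply Continuous.tendsto
        fun_prop
      have h3 : ((1 + 2 * (0:ℝ) : ℝ) : ℂ) = 1 := by simp
      rw [h3] at h2
      exact h2.mono_left nhdsWithin_le_nhds
    · filter_upwards [self_mem_nhdsWithin] with δ hδ
      have hδ' : 0 < δ := hδ
      rw [Set.mem_compl_iff, Set.mem_singleton_iff]
      intro h
      have h2 : (1 + 2 * δ : ℝ) = 1 := by exact_mod_cast h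
      linarith
  have h2 := (riemannZeta_residue_one.comp h1).norm
  rw [norm_one] at h2
  have h2' := h2.rpow_const (p := q) (Or.inl one_ne_zero)
  rw [Real.one_rpow] at h2'
  have h3 := (tendsto_order.1 ((h2'.sub_const 1).abs)).2 ε (by simpa using hε)
  obtain ⟨d, hd, hd2⟩ := (mem_nhdsGT_iff_exists_Ioc_subset).1 h3
  refine ⟨d, hd, fun δ hδ hδd => ?_⟩
  have h4 := hd2 (⟨hδ, hδd⟩ : δ ∈ Set.Ioc 0 d)
  simp only [Set.mem_setOf_eq, Function.comp_apply] at h4
  rw [norm_mul] at h4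
  have h5 : ‖((1 + 2 * δ : ℝ) : ℂ) - 1‖ = 2 * δ := by
    have : ((1 + 2 * δ : ℝ) : ℂ) - 1 = ((2 * δ : ℝ) : ℂ) := by push_cast; ring
    rw [this, Complex.norm_real, Real.norm_of_nonneg (by linarith)]
  rw [h5] at h4
  have h6 : ((1 + 2 * δ : ℝ) : ℂ) = 1 + 2 * (δ : ℂ) := by push_cast; ring
  rw [h6] at h4
  exact h4.le

/-- the Gaussian mean of the cut-off function -/
noncomputable def mm (y η : ℝ) : ℝ := ∫ x, phy y η x ∂(ProbabilityTheory.gaussianReal 0 1)

/-- the mean below the level -/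
lemma mean_chi (hLaw : S_LAW) (k y η W : ℝ) (hk : 0 < k) (hη : 0 < η) (hW : k ^ 2 + 1 ≤ W) (ε : ℝ) (hε : 0 < ε) :
    Ev fun X δ => |(∫ t in (0:ℝ)..X, FP k W δ t * chi k y η δ t) - mm y η * X| ≤ ε * X := by
  have ha := akp k
  have hW0 : 0 < W := by nlinarith [sq_nonneg k]
  set m : ℝ := mm y η with hm
  set e1 : ℝ := min (ε / (4 * (|m| + 1))) 1 with he1
  have hm1 : 0 < |m| + 1 := by positivity
  have he10 : 0 < e1 := lt_min (by positivity) one_pos
  have he11 : e1 ≤ 1 := min_le_right _ _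
  have he12 : e1 * (|m| + 1) ≤ ε / 4 := by
    have : e1 ≤ ε / (4 * (|m| + 1)) := min_le_left _ _
    calc e1 * (|m| + 1) ≤ ε / (4 * (|m| + 1)) * (|m| + 1) := mul_le_mul_of_nonneg_right this hm1.le
      _ = ε / 4 := by field_simp
  set e2 : ℝ := akR k * (ε / 8) with he2
  have he20 : 0 < e2 := by positivity
  obtain ⟨d0, hd0, hpole⟩ := pole_pow (k ^ 2) e1 he10
  refine ((((hLaw 1 k 1 0 (W + 1) hk one_pos (by linarith) (phy y η) phy_cont phy_nn phy_le e2 he20).and
    (Ev.of_le hd0)).and (FP_chi k y η W hk hη hW)).and (Ev.of_le (show 0 < ε / 4 by positivity))).mono ?_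
  rintro X δ hX1 h0 h1 ⟨⟨⟨HL, hδ0⟩, hFP⟩, hδε⟩
  have hX0 : 0 < X := by linarith
  obtain ⟨S, n1, n2, n3, n4, a, a1, a2, a3, a4⟩ := HL (fun _ => 0) (fun j => by
    rw [abs_zero]
    exact Real.rpow_nonneg h0.le _) (fun j l hjl => absurd (Subsingleton.elim j l) hjl)
  -- the constant
  have haeq : a = akR k := by
    have h2 := Pool.Agent.N748.MJ.av0F 1 (fun _ => (k : ℂ)) (fun _ => (k : ℂ)) rfl
    rw [a1] at h2
    simp only [Finset.univ_unique, Fin.default_eq_zero, Finset.sum_const, Finset.card_singleton, one_smul] at h2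
    have h3 := congrArg Complex.re h2
    rw [Complex.ofReal_re, aC_re] at h3
    exact h3
  have hLr : Real.exp (SM.Lr (fun _ : Fin 1 => k) (fun _ => 0) δ) = ‖riemannZeta (1 + 2 * δ)‖ ^ (k ^ 2) := by
    rw [exp_Lr _ _ h0 h1]
    simp only [Finset.univ_unique, Fin.default_eq_zero, Finset.prod_const, Finset.card_singleton, pow_one, sub_self]
    have e0 : ((1 + 2 * δ : ℝ) : ℂ) + ((0:ℝ) : ℂ) * I = 1 + 2 * (δ : ℂ) := by push_cast; ring
    rw [e0]
    congr 1
    ring
  set u : ℝ := (2 * δ) ^ (k ^ 2) * Real.exp (SM.Lr (fun _ : Fin 1 => k) (fun _ => 0) δ) with hu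
  have hu1 : |u - 1| ≤ e1 := by
    rw [hu, hLr, ← Real.mul_rpow (by linarith) (norm_nonneg _)]
    exact hpole δ h0 hδ0
  set E : ℝ := Real.exp (SM.Lr (fun _ : Fin 1 => k) (fun _ => 0) δ) with hE
  have hG : ∀ t, SM.G (fun _ : Fin 1 => k) (fun _ => 0) δ t = mz δ t ^ (2 * k) := by
    intro t
    unfold SM.G
    simp
  set c0 : ℝ := (2 * δ) ^ (k ^ 2) / akR k with hc0
  have hc0p : 0 < c0 := div_pos (Real.rpow_pos_of_pos (by linarith) _) ha
  set J : ℝ := ∫ t in S, SM.G (fun _ : Fin 1 => k) (fun _ => 0) δ t * ∏ j : Fin 1, phy y η (YY k δ (t + 0)) with hJ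
  have hJ2 : |c0 * J - X * u * m| ≤ ε / 4 * X := by
    have h2 : c0 * J - X * u * m = c0 * (J - X * (a * E) * m ^ 1) := by
      rw [haeq, hu, hc0]
      field_simp
    rw [h2, abs_mul, abs_of_pos hc0p]
    have h3 : c0 * E = u / akR k := by
      rw [hc0, hu]
      ring
    calc c0 * |J - X * (a * E) * m ^ 1| ≤ c0 * (e2 * (X * E)) := mul_le_mul_of_nonneg_left a4 hc0p.le
      _ = e2 / akR k * u * X := by
          have : c0 * (e2 * (X * E)) = e2 * X * (c0 * E) := by ring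
          rw [this, h3]
          ring
      _ = ε / 8 * u * X := by
          rw [he2]
          field_simp
      _ ≤ ε / 4 * X := by
          have h9 : u ≤ 2 := by linarith [(abs_le.1 hu1).2]
          have h10 : ε / 8 * u ≤ ε / 8 * 2 := mul_le_mul_of_nonneg_left h9 (by positivity)
          have h11 := mul_le_mul_of_nonneg_right h10 hX0.le
          linarith
  have hZc : Continuous fun t => Zk k δ t * chi k y η δ t := (Zk_cont hk.le h1).mul (chi_cont hη.le h1)
  have hZJ : ∫ t in S, Zk k δ t * chi k y η δ t = c0 * J := by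
    rw [hJ, ← integral_const_mul]
    refine setIntegral_congr_fun n1 fun t ht => ?_
    have hm0 : 0 < mz δ t := by
      have := n4 t ht 0
      rwa [add_zero] at this
    simp only [hG, Finset.univ_unique, Fin.default_eq_zero, Finset.prod_const, Finset.card_singleton, pow_one,
      add_zero]
    rw [chi_eq hη h0 h1 hm0]
    unfold Zk
    ring
  have hFc : Continuous fun t => FP k W δ t * chi k y η δ t := (FP_cont hk.le h1).mul (chi_cont hη.le h1)
  have hup := offN (g := fun t => FP k W δ t * chi k y η δ t) (G := fun t => Zk k δ t * chi k y η δ t) (N := S) (X := X)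
    (B := δ ^ (-W) * 1) (c := 1) (v := δ ^ (W + 1) * X) hX0.le n1 n2 n3
    (mul_nonneg (Real.rpow_nonneg h0.le _) hX0.le) hFc (fun t => mul_nonneg (FP_nn h0.le _) (chi_nn _))
    (fun t => mul_le_mul (FP_le' _) (chi_le _) (chi_nn _) (Real.rpow_nonneg h0.le _))
    (hZc.integrableOn_Icc.mono_set n2) (fun t _ => by rw [one_mul]; exact ((hFP t).2).le)
  have f1 : δ ^ (-W) * 1 * (δ ^ (W + 1) * X) = δ * X := by
    rw [mul_one, ← mul_assoc, ← Real.rpow_add h0]
    have : -W + (W + 1) = 1 := by ring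
    rw [this, Real.rpow_one]
  rw [f1, one_mul, hZJ] at hup
  have hlo : c0 * J ≤ ∫ t in (0:ℝ)..X, FP k W δ t * chi k y η δ t := by
    rw [← hZJ, intervalIntegral.integral_of_le hX0.le, ← integral_Icc_eq_integral_Ioc]
    have h2 : ∫ t in S, Zk k δ t * chi k y η δ t = ∫ t in S, FP k W δ t * chi k y η δ t :=
      setIntegral_congr_fun n1 fun t _ => ((hFP t).2).symm
    rw [h2]
    exact setIntegral_mono_set hFc.integrableOn_Icc
      (Eventually.of_forall fun t => mul_nonneg (FP_nn h0.le _) (chi_nn _)) n2.eventuallyLE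
  have h5 : |X * u * m - m * X| ≤ ε / 4 * X := by
    have : X * u * m - m * X = X * ((u - 1) * m) := by ring
    rw [this, abs_mul, abs_of_pos hX0, abs_mul]
    have h6 : |u - 1| * |m| ≤ e1 * (|m| + 1) :=
      mul_le_mul hu1 (by linarith) (abs_nonneg _) he10.le
    nlinarith
  have h7 := abs_le.1 hJ2
  have h8 := abs_le.1 h5
  have h9 : δ * X ≤ ε / 4 * X := mul_le_mul_of_nonneg_right hδε hX0.le
  rw [abs_le]
  constructor <;> linarith [h7.1, h7.2, h8.1, h8.2]

/-- the mean of the weight below the level and the barrier -/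
lemma mean_gg (hLaw : S_LAW) (n : ℕ) (hn : 1 ≤ n) (k y η e c W : ℝ) (hk : 0 < k) (hη : 0 < η) (he : 0 < e)
    (hc : 0 < c) (hck : c < k) (hW : k ^ 2 + 1 ≤ W) (ε : ℝ) (hε : 0 < ε) :
    Ev fun X δ => (mm y η - ε) * X ≤ ∫ t in (0:ℝ)..X, gg n (NS δ) k y η e c W δ t := by
  have hW0 : 0 < W := by nlinarith [sq_nonneg k]
  obtain ⟨C, hC, E1⟩ := beyond n hn k y η e c W hk hη hc hck hW0.le
  have hq : ∀ᶠ l : ℝ in atTop, (C * l + C) * Real.exp (-(2 * c * e * Real.sqrt (l / 2))) ≤ ε / 4 ∧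
      (1 * l + 1) * Real.exp (-(1 * Real.sqrt (l / 2))) ≤ ε / 4 ∧ 1 * Real.sqrt (l / 2) ≤ 1 * l :=
    (exp_small C C (2 * c * e) (ε / 4) (by positivity) (by positivity)).and
      ((exp_small 1 1 1 (ε / 4) one_pos (by positivity)).and (sqrt_small 1 1 one_pos))
  refine (((mean_chi hLaw k y η W hk hη hW (ε / 2) (by positivity)).and E1).and (of_L hq)).mono ?_
  rintro X δ hX1 h0 h1 ⟨⟨hm, E1⟩, hq1, hq2, hq3⟩
  have hX0 : 0 < X := by linarith
  set L : ℝ := Real.log (1 / δ) with hL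
  have hL1 : 1 ≤ L := log_inv_ge h0 h1
  set N : ℕ := NS δ with hN
  have hN1 : (N:ℝ) ≤ L + 1 := by
    rw [hN]
    exact (Nat.ceil_lt_add_one (by linarith)).le
  have hN0 : 0 < N := by
    rw [hN]
    exact Nat.ceil_pos.2 (by linarith)
  have hN0' : (0:ℝ) < N := by exact_mod_cast hN0
  have hFc : Continuous fun t => FP k W δ t * chi k y η δ t := (FP_cont hk.le h1).mul (chi_cont hη.le h1)
  have hgc := gg_cont (n := n) (N := N) (y := y) (e := e) (c := c) (W := W) hk.le hη.le h1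
  set b : Fin N → ℝ → ℝ := fun i t =>
    FP k W δ t * (chi k y η δ t * (1 - psi (br n k (y + η + e) c δ ((((i:ℕ):ℝ) + 1) / N) t))) with hb
  have hbc : ∀ i, Continuous (b i) := fun i =>
    (FP_cont hk.le h1).mul ((chi_cont hη.le h1).mul (continuous_const.sub (psi_cont.comp (br_cont h1))))
  have g1 : (∫ t in (0:ℝ)..X, FP k W δ t * chi k y η δ t) - (∫ t in (0:ℝ)..X, gg n N k y η e c W δ t) ≤
      ∑ i : Fin N, ∫ t in (0:ℝ)..X, b i t := by
    rw [← intervalIntegral.integral_sub (hFc.intervalIntegrable _ _) (hgc.intervalIntegrable _ _),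
      ← intervalIntegral.integral_finsetSum fun i _ => (hbc i).intervalIntegrable _ _]
    refine intervalIntegral.integral_mono_on hX0.le ((hFc.sub hgc).intervalIntegrable _ _)
      ((continuous_finsetSum _ fun i _ => hbc i).intervalIntegrable _ _) fun t _ => ?_
    have h2 := one_sub_prod Finset.univ (fun i : Fin N => psi (br n k (y + η + e) c δ ((((i:ℕ):ℝ) + 1) / N) t))
      (fun i => psi_nn _) (fun i => psi_le _)
    have h3 := FP_nn (k := k) (W := W) h0.le t
    have h4 := chi_nn (k := k) (y := y) (η := η) (δ := δ) t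
    have h5 : ∑ i : Fin N, b i t = (FP k W δ t * chi k y η δ t) *
        ∑ i : Fin N, (1 - psi (br n k (y + η + e) c δ ((((i:ℕ):ℝ) + 1) / N) t)) := by
      rw [Finset.mul_sum]
      refine Finset.sum_congr rfl fun i _ => ?_
      rw [hb]
      ring
    rw [h5]
    unfold gg
    have h6 : 0 ≤ FP k W δ t * chi k y η δ t := mul_nonneg h3 h4
    nlinarith
  have g2 : ∑ i : Fin N, ∫ t in (0:ℝ)..X, b i t ≤ ε / 2 * X := by
    have h2 : ∀ i : Fin N, ∫ t in (0:ℝ)..X, b i t ≤ C * (X * Real.exp (-(2 * c * e * sg δ))) + δ * X := by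
      intro i
      refine E1 _ (by positivity) ?_
      rw [div_le_one hN0']
      exact_mod_cast i.2
    have h3 : 0 ≤ C * (X * Real.exp (-(2 * c * e * sg δ))) + δ * X := by positivity
    calc ∑ i : Fin N, ∫ t in (0:ℝ)..X, b i t ≤ ∑ _i : Fin N, (C * (X * Real.exp (-(2 * c * e * sg δ))) + δ * X) :=
          Finset.sum_le_sum fun i _ => h2 i
      _ = N * (C * (X * Real.exp (-(2 * c * e * sg δ))) + δ * X) := by
          rw [Finset.sum_const, Finset.card_univ, Fintype.card_fin, nsmul_eq_mul]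
      _ ≤ (L + 1) * (C * (X * Real.exp (-(2 * c * e * sg δ))) + δ * X) := mul_le_mul_of_nonneg_right hN1 h3
      _ = ((C * L + C) * Real.exp (-(2 * c * e * sg δ))) * X + (1 * L + 1) * δ * X := by ring
      _ ≤ ε / 4 * X + ε / 4 * X := by
          refine add_le_add (mul_le_mul_of_nonneg_right hq1 hX0.le) (mul_le_mul_of_nonneg_right ?_ hX0.le)
          refine le_trans ?_ hq2
          refine mul_le_mul_of_nonneg_left ?_ (by linarith)
          have h4 := dE1 h0
          calc δ = Real.exp (-L) := h4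
            _ ≤ Real.exp (-(1 * Real.sqrt (L / 2))) := Real.exp_le_exp.2 (by linarith)
      _ = ε / 2 * X := by ring
  have h6 := (abs_le.1 hm).1
  linarith

end Run7.h291.WC
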