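import Pool.Agent.Run7.h291.WC.B3

set_option autoImplicit false

/-! The critical windows: the two-point function at large distances, and the mean square over windows -/

namespace Run7.h291.WC

open Finset Filter MeasureTheory Topology Complex
open Pool.Agent.N748.MG Pool.Agent.N748.MJ Run7.h291.WN

lemma phy_int (y η : ℝ) : Integrable (fun x => phy y η x) (ProbabilityTheory.gaussianReal 0 1) :=
  Integrable.of_bound (phy_cont.aestronglyMeasurable) 1 (Eventually.of_forall fun x => by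
    rw [Real.norm_of_nonneg (phy_nn x)]
    exact phy_le x)

lemma mm_nn (y η : ℝ) : 0 ≤ mm y η := integral_nonneg fun x => phy_nn x

lemma mm_le (y η : ℝ) : mm y η ≤ 1 := by
  unfold mm
  refine (integral_mono (phy_int y η) (integrable_const 1) fun x => phy_le x).trans ?_
  simp

/-- the real part of the logarithm of zeta is even -/
lemma LZ_even {δ : ℝ} (h0 : 0 < δ) (h1 : δ ≤ 1 / 16) (u : ℝ) :
    (LZ (1 + 2 * δ) (-u)).re = (LZ (1 + 2 * δ) u).re := by
  have g1 := LZre h0 h1 (-u)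
  have g2 := LZre h0 h1 u
  have e2 : ((1 + 2 * δ : ℝ) : ℂ) + ((-u:ℝ) : ℂ) * I = (starRingEnd ℂ) (((1 + 2 * δ : ℝ) : ℂ) + u * I) := by
    apply Complex.ext <;> simp
  rw [e2, riemannZeta_conj, RCLike.norm_conj, ← g2] at g1
  exact Real.exp_injective g1

/-- the two-point function at distances at least one -/
lemma tp_far (hLaw : S_LAW) (n : ℕ) (k y η e c W D : ℝ) (hk : 0 < k) (hη : 0 < η) (hW : 0 ≤ W) (hD : 0 < D)
    (ε : ℝ) (hε : 0 < ε) : Ev fun X δ => ∀ h : ℝ, 1 ≤ h → h ≤ δ ^ (-D) →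
    cg n (NS δ) k y η e c W δ X h ≤ X * ((mm y η ^ 2 + ε) * B2 k δ h + ε) := by
  have ha := akp k
  obtain ⟨c1, Cp, hc1, hCp, hpos⟩ := posF 2 k hk.le
  set m : ℝ := mm y η with hm
  have hm0 : 0 ≤ m := mm_nn y η
  have hm1 : m ≤ 1 := mm_le y η
  set e1 : ℝ := min (ε / 8) 1 with he1
  have he10 : 0 < e1 := lt_min (by positivity) one_pos
  have he11 : e1 ≤ 1 := min_le_right _ _
  have he12 : e1 ≤ ε / 8 := min_le_left _ _
  set r : ℝ := min (akR k ^ 2 * (ε / 8) / Cp) 1 with hr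
  have hr0 : 0 < r := lt_min (by positivity) one_pos
  have hr1 : Cp / akR k ^ 2 * r ≤ ε / 8 := by
    have h2 : r ≤ akR k ^ 2 * (ε / 8) / Cp := min_le_left _ _
    calc Cp / akR k ^ 2 * r ≤ Cp / akR k ^ 2 * (akR k ^ 2 * (ε / 8) / Cp) :=
          mul_le_mul_of_nonneg_left h2 (by positivity)
      _ = ε / 8 := by field_simp
  set K : ℝ := -(Real.log r) / (2 * k ^ 2) with hK
  have hKr : Real.exp (-(2 * k ^ 2 * K)) = r := by
    have : -(2 * k ^ 2 * K) = Real.log r := by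
      rw [hK]
      field_simp
    rw [this, Real.exp_log hr0]
  obtain ⟨d0, hd0, hpole⟩ := pole_pow (2 * k ^ 2) e1 he10
  refine (((((hLaw 2 k D K (2 * W + 1) hk hD (by linarith) (phy y η) phy_cont phy_nn phy_le (e1 * c1)
    (by positivity)).and (Run7.h291.WN.tp_far 0 k 1 W hk hW e1 he10)).and (Ev.of_le hd0)).and
    (Ev.win (D := D) (c := 1) (e := (1:ℝ) / 2) one_pos (by norm_num))).and (Ev.of_le hε)).mono ?_
  rintro X δ hX1 h0 h1 ⟨⟨⟨⟨HL, HB⟩, hδ0⟩, w1⟩, hδε⟩ h hh hh2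
  rw [one_mul] at w1
  have hX0 : 0 < X := by linarith
  have hhX : h ≤ X ^ ((1:ℝ) / 2) := hh2.trans w1
  obtain ⟨hCu, hcl⟩ := hpos ![0, h]
  obtain ⟨a, ha1, ha2⟩ := hcl (fun _ => k) (fun j => by rw [abs_of_pos hk])
  have ha0 : 0 < a := lt_of_lt_of_le hc1 ha1
  have haC : a ≤ Cp := by
    have h2 := hCu (fun _ => (k:ℂ)) (fun _ => (k:ℂ)) (fun j => by
      rw [Complex.norm_real, Real.norm_of_nonneg hk.le]) (fun j => by
      rw [Complex.norm_real, Real.norm_of_nonneg hk.le])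
    rw [ha2, Complex.norm_real, Real.norm_of_nonneg ha0.le] at h2
    exact h2
  set z1 : ℝ := ‖riemannZeta (1 + 2 * δ + h * I)‖ ^ (2 * k ^ 2) with hz1
  have hz10 : 0 ≤ z1 := Real.rpow_nonneg (norm_nonneg _) _
  have hB2 : B2 k δ h = a / akR k ^ 2 * z1 := by
    unfold B2
    rw [ha2, aC_re, Complex.ofReal_re]
  have hB0 : 0 ≤ B2 k δ h := by
    rw [hB2]
    positivity
  have hcZ : Continuous fun t => Zk k δ t * chi k y η δ t := (Zk_cont hk.le h1).mul (chi_cont hη.le h1)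
  have hgF : ∀ t, gg n (NS δ) k y η e c W δ t ≤ Zk k δ t * chi k y η δ t := fun t =>
    (gg_le_chi h0.le t).trans (mul_le_mul_of_nonneg_right (FP_le t) (chi_nn t))
  have hZn : ∀ t, 0 ≤ Zk k δ t * chi k y η δ t := fun t => mul_nonneg (Zk_nn h0.le t) (chi_nn t)
  by_cases hcase : -K ≤ (LZ (1 + 2 * δ) h).re
  · -- the main case
    obtain ⟨S, n1, n2, n3, n4, a', a1, a2, a3, a4⟩ := HL ![0, h] (fun j => by
      fin_cases j
      · simpa using Real.rpow_nonneg h0.le _
      · simpa [abs_of_nonneg (show 0 ≤ h by linarith)] using hh2) (fun j l hjl => by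
      fin_cases j <;> fin_cases l
      · exact absurd rfl hjl
      · refine ⟨?_, ?_⟩
        · simpa [abs_of_nonneg (show 0 ≤ h by linarith)] using hh
        · simp only [Fin.zero_eta, Fin.isValue, Matrix.cons_val_zero, Fin.mk_one, Matrix.cons_val_one, zero_sub]
          rw [LZ_even h0 h1]
          exact hcase
      · refine ⟨?_, ?_⟩
        · simpa [abs_of_nonneg (show 0 ≤ h by linarith)] using hh
        · simpa using hcase
      · exact absurd rfl hjl)
    have haa : a' = a := by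
      rw [ha2] at a1
      exact_mod_cast a1.symm
    rw [haa] at a3 a4
    set E : ℝ := Real.exp (SM.Lr (fun _ : Fin 2 => k) ![0, h] δ) with hE
    have hE0 : 0 < E := Real.exp_pos _
    set J : ℝ := ∫ t in S, SM.G (fun _ : Fin 2 => k) ![0, h] δ t * ∏ j : Fin 2, phy y η (YY k δ (t + ![0, h] j)) with hJ
    have hJu : J ≤ X * E * (a * (m ^ 2 + e1)) := by
      have h2 := (abs_le.1 a4).2
      have h3 : e1 * c1 * (X * E) ≤ e1 * a * (X * E) :=
        mul_le_mul_of_nonneg_right (mul_le_mul_of_nonneg_left ha1 he10.le) (by positivity)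
      have h4 : X * E * (a * (m ^ 2 + e1)) = X * (a * E) * m ^ 2 + e1 * a * (X * E) := by ring
      rw [h4]
      have h5 : (∫ x, phy y η x ∂(ProbabilityTheory.gaussianReal 0 1)) = m := rfl
      rw [h5] at h2
      linarith
    set cc : ℝ := ((2 * δ) ^ (k ^ 2) / akR k) ^ 2 with hcc
    have hmain := offN (g := fun t => gg n (NS δ) k y η e c W δ t * gg n (NS δ) k y η e c W δ (t + h))
      (G := fun t => (Zk k δ t * chi k y η δ t) * (Zk k δ (t + h) * chi k y η δ (t + h))) (N := S) (X := X)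
      (B := δ ^ (-W) * δ ^ (-W)) (c := 1) (v := δ ^ (2 * W + 1) * X) hX0.le n1 n2 n3
      (mul_nonneg (Real.rpow_nonneg h0.le _) hX0.le)
      ((gg_cont hk.le hη.le h1).mul ((gg_cont hk.le hη.le h1).comp (by fun_prop)))
      (fun t => mul_nonneg (gg_nn h0.le _) (gg_nn h0.le _))
      (fun t => mul_le_mul ((gg_le h0.le _).trans (FP_le' _)) ((gg_le h0.le _).trans (FP_le' _)) (gg_nn h0.le _)
        (Real.rpow_nonneg h0.le _)) ((hcZ.mul (hcZ.comp (by fun_prop))).integrableOn_Icc.mono_set n2) (fun t ht => by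
          rw [one_mul]
          exact mul_le_mul (hgF t) (hgF (t + h)) (gg_nn h0.le _) (hZn t))
    have hJe : ∫ t in S, (Zk k δ t * chi k y η δ t) * (Zk k δ (t + h) * chi k y η δ (t + h)) = cc * J := by
      rw [hJ, ← integral_const_mul]
      refine setIntegral_congr_fun n1 fun t ht => ?_
      have hm0 : 0 < mz δ t := by
        have := n4 t ht 0
        simpa using this
      have hm1 : 0 < mz δ (t + h) := by
        have := n4 t ht 1
        simpa using this
      simp only [G_two, Fin.prod_univ_two, Matrix.cons_val_zero, Matrix.cons_val_one, add_zero]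
      rw [chi_eq hη h0 h1 hm0, chi_eq hη h0 h1 hm1, hcc]
      unfold Zk
      ring
    have f1 : δ ^ (-W) * δ ^ (-W) * (δ ^ (2 * W + 1) * X) = δ * X := by
      rw [← mul_assoc, ← Real.rpow_add h0, ← Real.rpow_add h0]
      have : -W + -W + (2 * W + 1) = 1 := by ring
      rw [this, Real.rpow_one]
    rw [one_mul, hJe, f1] at hmain
    have hcgd : cg n (NS δ) k y η e c W δ X h =
      ∫ t in (0:ℝ)..X, gg n (NS δ) k y η e c W δ t * gg n (NS δ) k y η e c W δ (t + h) := rfl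
    rw [hcgd]
    refine hmain.trans ?_
    have hp := (abs_le.1 (hpole δ h0 hδ0)).2
    set z0 : ℝ := ‖riemannZeta (1 + 2 * δ)‖ with hz0
    have hz00 : 0 ≤ z0 := norm_nonneg _
    have hEe : E = z0 ^ (2 * k ^ 2) * z1 := exp_two k h h0 h1
    have f2 : cc * E ≤ (1 + e1) / akR k ^ 2 * z1 := by
      have g1 : (2 * δ) ^ (k ^ 2) * (2 * δ) ^ (k ^ 2) = (2 * δ) ^ (2 * k ^ 2) := by
        rw [← Real.rpow_add (by linarith)]
        congr 1
        ring
      have g2 : (2 * δ) ^ (2 * k ^ 2) * z0 ^ (2 * k ^ 2) ≤ 1 + e1 := by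
        rw [← Real.mul_rpow (by linarith) hz00]
        linarith
      calc cc * E = ((2 * δ) ^ (2 * k ^ 2) * z0 ^ (2 * k ^ 2)) / akR k ^ 2 * z1 := by
            rw [hEe, hcc, div_pow, sq, g1]
            ring
        _ ≤ (1 + e1) / akR k ^ 2 * z1 := by gcongr
    have hcc0 : 0 ≤ cc := sq_nonneg _
    have hme : (m ^ 2 + e1) * (1 + e1) ≤ m ^ 2 + ε := by
      have q0 : m ^ 2 ≤ 1 := pow_le_one₀ hm0 hm1
      have q1 : m ^ 2 * e1 ≤ 1 * e1 := mul_le_mul_of_nonneg_right q0 he10.le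
      have q2 : e1 * e1 ≤ 1 * e1 := mul_le_mul_of_nonneg_right he11 he10.le
      nlinarith
    calc cc * J + δ * X ≤ cc * (X * E * (a * (m ^ 2 + e1))) + ε * X :=
          add_le_add (mul_le_mul_of_nonneg_left hJu hcc0) (mul_le_mul_of_nonneg_right hδε hX0.le)
      _ = X * a * (m ^ 2 + e1) * (cc * E) + ε * X := by ring
      _ ≤ X * a * (m ^ 2 + e1) * ((1 + e1) / akR k ^ 2 * z1) + ε * X :=
          add_le_add (mul_le_mul_of_nonneg_left f2 (by positivity)) le_rfl
      _ = X * (((m ^ 2 + e1) * (1 + e1)) * B2 k δ h + ε) := by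
          rw [hB2]
          ring
      _ ≤ X * ((m ^ 2 + ε) * B2 k δ h + ε) := by
          refine mul_le_mul_of_nonneg_left (add_le_add (mul_le_mul_of_nonneg_right hme hB0) le_rfl) hX0.le
  · -- small values of zeta on the line one
    rw [not_le] at hcase
    have hz1s : z1 ≤ r := by
      have g1 := LZre h0 h1 h
      have e0 : (((1 + 2 * δ : ℝ) : ℂ) + h * I) = 1 + 2 * (δ : ℂ) + h * I := by push_cast; ring
      rw [e0] at g1
      rw [hz1, ← g1, ← Real.exp_mul, ← hKr]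
      refine Real.exp_le_exp.2 ?_
      have : 0 < 2 * k ^ 2 := by positivity
      nlinarith
    have hBs : B2 k δ h ≤ ε / 8 := by
      rw [hB2]
      refine le_trans ?_ hr1
      exact mul_le_mul (by gcongr) hz1s hz10 (by positivity)
    have hcb := HB h (by linarith) hhX
    have hle : cg n (NS δ) k y η e c W δ X h ≤ cb 0 k 1 W δ X h := by
      unfold cg cb
      have hff : ∀ t, ff 0 k 1 W δ t = FP k W δ t := fun t => by
        unfold ff
        simp
      refine intervalIntegral.integral_mono_on hX0.le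
        (((gg_cont hk.le hη.le h1).mul ((gg_cont hk.le hη.le h1).comp (by fun_prop))).intervalIntegrable _ _)
        (((ff_cont hk.le h1).mul ((ff_cont hk.le h1).comp (by fun_prop))).intervalIntegrable _ _) fun t _ => ?_
      rw [hff, hff]
      exact mul_le_mul (gg_le h0.le _) (gg_le h0.le _) (gg_nn h0.le _) (FP_nn h0.le _)
    refine (hle.trans hcb).trans (mul_le_mul_of_nonneg_left ?_ hX0.le)
    have h3 : 0 ≤ (m ^ 2 + ε) * B2 k δ h := by positivity
    have h4 : e1 * B2 k δ h ≤ 1 * B2 k δ h := mul_le_mul_of_nonneg_right he11 hB0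
    linarith

/-- the primitive of the correlation function -/
lemma prim_le {n N : ℕ} {k y η e' c W δ X b m2 C2 D e : ℝ} (hk : 0 < k) (hη : 0 < η) (h0 : 0 < δ) (h1 : δ ≤ 1 / 16)
    (hX : 0 < X) (he : 0 < e) (hb : 0 ≤ b) (hm2 : 0 ≤ m2) (hC2 : 0 < C2)
    (E1 : ∀ x : ℝ, 0 ≤ x → x ≤ 1 → ∫ h in (0:ℝ)..x, cg n N k y η e' c W δ X h ≤ X * b)
    (E2 : ∀ h : ℝ, 1 ≤ h → h ≤ D → cg n N k y η e' c W δ X h ≤ X * ((m2 + e) * B2 k δ h + e))
    (E3 : ∀ x : ℝ, 1 ≤ x → ∫ h in (1:ℝ)..x, B2 k δ h ≤ (1 + e) * x + C2) {z : ℝ} (hz : 0 ≤ z)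
    (hzX : z ≤ D) :
    ∫ h in (0:ℝ)..z, cg n N k y η e' c W δ X h ≤ X * (((m2 + e) * (1 + e) + e) * z + (b + (m2 + e) * C2)) := by
  have hi : ∀ a b : ℝ, IntervalIntegrable (fun h => cg n N k y η e' c W δ X h) volume a b := fun a b =>
    (cg_cont hk.le hη.le h1).intervalIntegrable a b
  have hme : 0 < m2 + e := by linarith
  rcases le_total z 1 with hy1 | hy1
  · refine (E1 z hz hy1).trans ?_
    refine mul_le_mul_of_nonneg_left ?_ hX.le
    have h2 : 0 ≤ ((m2 + e) * (1 + e) + e) * z := by positivity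
    have h3 : 0 ≤ (m2 + e) * C2 := by positivity
    linarith
  · rw [← intervalIntegral.integral_add_adjacent_intervals (hi 0 1) (hi 1 z)]
    have h2 := E1 1 zero_le_one le_rfl
    have h3 : ∫ h in (1:ℝ)..z, cg n N k y η e' c W δ X h ≤ ∫ h in (1:ℝ)..z, X * ((m2 + e) * B2 k δ h + e) := by
      refine intervalIntegral.integral_mono_on hy1 (hi _ _) ?_ fun h hh => ?_
      · exact (continuous_const.mul ((continuous_const.mul (B2_cont h0)).add continuous_const)).intervalIntegrable _ _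
      · exact E2 h hh.1 (hh.2.trans hzX)
    have h4 : ∫ h in (1:ℝ)..z, X * ((m2 + e) * B2 k δ h + e) =
        X * ((m2 + e) * (∫ h in (1:ℝ)..z, B2 k δ h) + (z - 1) * e) := by
      have hq : Continuous fun h : ℝ => (m2 + e) * B2 k δ h := continuous_const.mul (B2_cont h0)
      rw [intervalIntegral.integral_const_mul, intervalIntegral.integral_add
        (hq.intervalIntegrable _ _) (by simp),
        intervalIntegral.integral_const_mul, intervalIntegral.integral_const, smul_eq_mul]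
    have h5 := E3 z hy1
    rw [h4] at h3
    have h6 : X * ((m2 + e) * (∫ h in (1:ℝ)..z, B2 k δ h) + (z - 1) * e) ≤
        X * ((m2 + e) * ((1 + e) * z + C2) + z * e) := by
      refine mul_le_mul_of_nonneg_left (add_le_add (mul_le_mul_of_nonneg_left h5 hme.le) ?_) hX.le
      nlinarith
    nlinarith

/-- the length of the window at the position `x` of the transition -/
noncomputable def Hx (k x δ : ℝ) : ℝ := δ ^ (1 - k ^ 2) * Real.exp (2 * k * x * sg δ)

lemma Hx_pos {k x δ : ℝ} (h0 : 0 < δ) : 0 < Hx k x δ := mul_pos (Real.rpow_pos_of_pos h0 _) (Real.exp_pos _)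

lemma Hx_exp {k x δ : ℝ} (h0 : 0 < δ) :
    Hx k x δ = Real.exp ((k ^ 2 - 1) * Real.log (1 / δ) + 2 * k * x * sg δ) := by
  unfold Hx
  rw [dE h0, ← Real.exp_add]
  congr 1
  ring

lemma Hx_large (k x A : ℝ) (hk : 1 < k) : Ev fun _ δ => A ≤ Hx k x δ := by
  have hk2 : 0 < k ^ 2 - 1 := by nlinarith
  have hq : ∀ᶠ l : ℝ in atTop, A ≤ Real.exp ((k ^ 2 - 1) * l + 2 * k * x * Real.sqrt (l / 2)) := by
    filter_upwards [sqrt_small (-(2 * k * x)) ((k ^ 2 - 1) / 2) (by positivity),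
      eventually_ge_atTop (2 * A / (k ^ 2 - 1))] with l h1 h2
    rw [div_le_iff₀ hk2] at h2
    have h3 := Real.add_one_le_exp ((k ^ 2 - 1) * l + 2 * k * x * Real.sqrt (l / 2))
    linarith
  refine (of_L hq).mono ?_
  intro X δ _ h0 _ h
  rw [Hx_exp h0]
  exact h

lemma Hx_small (k x : ℝ) : Ev fun _ δ => Hx k x δ ≤ δ ^ (-(k ^ 2)) := by
  refine (of_L (sqrt_small (2 * k * x) 1 one_pos)).mono ?_
  intro X δ _ h0 _ h
  have h' : 2 * k * x * sg δ ≤ 1 * Real.log (1 / δ) := h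
  rw [Hx_exp h0, dE h0]
  refine Real.exp_le_exp.2 ?_
  linarith

lemma Hx_mono {k x x' δ : ℝ} (hk : 0 < k) (h0 : 0 < δ) (h : x ≤ x') : Hx k x δ ≤ Hx k x' δ := by
  unfold Hx
  refine mul_le_mul_of_nonneg_left (Real.exp_le_exp.2 ?_) (Real.rpow_nonneg h0.le _)
  exact mul_le_mul_of_nonneg_right (mul_le_mul_of_nonneg_left h (by linarith)) (sg_nn _)

lemma Hx_ratio {k x x' δ : ℝ} : Hx k x' δ = Hx k x δ * Real.exp (2 * k * (x' - x) * sg δ) := by
  unfold Hx
  rw [mul_assoc (δ ^ (1 - k ^ 2)), ← Real.exp_add]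
  congr 2
  ring

/-- the mean square of the deviation over the windows -/
lemma win (hM : S_MNB) (hLaw : S_LAW) (k : ℝ) (hk : 1 < k) : ∃ (n : ℕ) (c : ℝ), 1 ≤ n ∧ 0 < c ∧ c < k ∧
    ∀ y η e x W : ℝ, 0 < η → 0 < e → y + η + e < x → k ^ 2 + 1 ≤ W → 0 < mm y η → ∀ ε : ℝ, 0 < ε → Ev fun X δ =>
    (∫ t in (0:ℝ)..X, (Av (Hx k x δ) (fun u => gg n (NS δ) k y η e c W δ u / mm y η) t - 1) ^ 2 ≤ ε * X) ∧
    (mm y η - ε) * X ≤ ∫ t in (0:ℝ)..X, gg n (NS δ) k y η e c W δ t := by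
  have hk0 : 0 < k := by linarith
  obtain ⟨n, c, hn, hc, hck, H1⟩ := cg_one k hk
  refine ⟨n, c, hn, hc, hck, fun y η e' x W hη he' hx hW hm0 ε hε => ?_⟩
  have hW0 : 0 ≤ W := by nlinarith [sq_nonneg k]
  set m : ℝ := mm y η with hm
  have hm1 : m ≤ 1 := mm_le y η
  set e : ℝ := min (min (ε * m ^ 2 / 20) 1) (min (ε * m / 20) ε) with he
  have hm2 : 0 < m ^ 2 := by positivity
  have he0 : 0 < e := lt_min (lt_min (by positivity) one_pos) (lt_min (by positivity) hε)
  have he1 : e ≤ 1 := (min_le_left _ _).trans (min_le_right _ _)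
  have he2 : e ≤ ε * m ^ 2 / 20 := (min_le_left _ _).trans (min_le_left _ _)
  have he3 : e ≤ ε := (min_le_right _ _).trans (min_le_right _ _)
  have he4 : e ≤ ε * m / 20 := (min_le_right _ _).trans (min_le_left _ _)
  obtain ⟨C1, hC1, E1⟩ := H1 y η e' W hη hW0
  obtain ⟨C2, δ0, hC2, hδ0, E3⟩ := hM k hk0 e he0
  have E2 := tp_far hLaw n k y η e' c W (k ^ 2) hk0 hη hW0 (by positivity) e he0
  have E4 := mean_gg hLaw n hn k y η e' c W hk0 hη he' hc hck hW e he0
  have hb : 0 < 2 * k * (x - (y + η + e')) := by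
    have : 0 < x - (y + η + e') := by linarith
    positivity
  have hsm := exp_small 0 C1 (2 * k * (x - (y + η + e'))) e hb he0
  refine ((((((((E1.and E2).and E4).and (Ev.of_le hδ0)).and (Hx_small k x)).and (Hx_large k x (2 * C2 / e) hk)).and
    (Ev.win (D := k ^ 2 + 2 * W) (c := e) (e := 1) he0 one_pos)).and
    (Ev.win (D := k ^ 2 + W) (c := e) (e := 1) he0 one_pos)).and (of_L hsm)).mono ?_
  rintro X δ hX1 h0 h1 ⟨⟨⟨⟨⟨⟨⟨⟨E1, E2⟩, E4⟩, hδ⟩, hHs⟩, hHl⟩, w2⟩, w3⟩, s1⟩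
  have hX0 : 0 < X := by linarith
  rw [Real.rpow_one] at w2 w3
  set H : ℝ := Hx k x δ with hH
  have hH0 : 0 < H := Hx_pos h0
  set N : ℕ := NS δ with hN
  set g : ℝ → ℝ := fun u => gg n N k y η e' c W δ u / m with hg
  have hgc : Continuous g := (gg_cont hk0.le hη.le h1).div_const m
  have hg0 : ∀ u, 0 ≤ g u := fun u => div_nonneg (gg_nn h0.le u) hm0.le
  set M : ℝ := δ ^ (-W) / m with hMd
  have hM0 : 0 < M := div_pos (Real.rpow_pos_of_pos h0 _) hm0
  have hgM : ∀ u, g u ≤ M := fun u =>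
    div_le_div_of_nonneg_right ((gg_le h0.le u).trans (FP_le' u)) hm0.le
  set b : ℝ := C1 * (δ ^ (1 - k ^ 2) * Real.exp (2 * k * (y + η + e') * sg δ)) with hbd
  have hb0 : 0 ≤ b := by
    have := Real.rpow_pos_of_pos h0 (1 - k ^ 2)
    positivity
  have hcor : ∀ u, ∫ t in (0:ℝ)..X, g t * g (t + u) = cg n N k y η e' c W δ X u / m ^ 2 := by
    intro u
    unfold cg
    rw [← intervalIntegral.integral_div]
    refine intervalIntegral.integral_congr fun t _ => ?_
    rw [hg]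
    simp only
    rw [div_mul_div_comm, sq]
  have hprim : ∀ z ∈ Set.Icc 0 H, ∫ u in (0:ℝ)..z, ∫ t in (0:ℝ)..X, g t * g (t + u) ≤
      X * ((((m ^ 2 + e) * (1 + e) + e) / m ^ 2) * z + (b + (m ^ 2 + e) * C2) / m ^ 2) := by
    intro z hz
    simp_rw [hcor]
    rw [intervalIntegral.integral_div, div_le_iff₀ hm2]
    have h2 := prim_le (n := n) (N := N) (k := k) (y := y) (η := η) (e' := e') (c := c) (W := W) (δ := δ) (X := X)
      (b := b) (m2 := m ^ 2) (C2 := C2) (D := δ ^ (-(k ^ 2))) (e := e) hk0 hη h0 h1 hX0 he0 hb0 hm2.le hC2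
      (fun x hx hx1 => (E1 x hx hx1).trans (le_of_eq (by rw [hbd]; ring))) E2
      (fun x hx => E3 δ h0 hδ x hx) hz.1 (hz.2.trans hHs)
    refine h2.trans (le_of_eq ?_)
    field_simp
  have hmean : (1 - e / m) * X ≤ ∫ t in (0:ℝ)..X, g t := by
    rw [hg]
    simp only
    rw [intervalIntegral.integral_div, le_div_iff₀ hm0]
    calc (1 - e / m) * X * m = (m - e) * X := by field_simp
      _ ≤ _ := E4
  have hdev := dev_le (f := g) (M := M) (X := X) (H := H) (a := ((m ^ 2 + e) * (1 + e) + e) / m ^ 2)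
    (b := (b + (m ^ 2 + e) * C2) / m ^ 2) (e := e / m) hgc hg0 hgM hX0 hH0 hprim hmean
  refine ⟨?_, (mul_le_mul_of_nonneg_right (by linarith) hX0.le).trans E4⟩
  unfold Av
  refine hdev.trans ?_
  have hbH : b / H ≤ e := by
    have h2 : b / H = C1 * Real.exp (-(2 * k * (x - (y + η + e')) * sg δ)) := by
      rw [hbd, hH]
      unfold Hx
      have h3 := Real.rpow_pos_of_pos h0 (1 - k ^ 2)
      rw [← mul_div_assoc', mul_div_mul_left _ _ h3.ne', ← Real.exp_sub]
      congr 2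
      ring
    rw [h2]
    have h3 : (0 * Real.log (1 / δ) + C1) * Real.exp (-(2 * k * (x - (y + η + e')) * sg δ)) ≤ e := s1
    linarith
  have hC2H : 2 * C2 / H ≤ e := by
    rw [div_le_iff₀ he0] at hHl
    rw [div_le_iff₀ hH0]
    linarith
  -- the terms, multiplied by `m²`
  have hm21 : m ^ 2 ≤ 1 := pow_le_one₀ hm0.le hm1
  have t1 : ((m ^ 2 + e) * (1 + e) + e) / m ^ 2 ≤ 1 + ε / 5 := by
    rw [div_le_iff₀ hm2]
    have q1 : m ^ 2 * e ≤ 1 * e := mul_le_mul_of_nonneg_right hm21 he0.le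
    have q2 : e * e ≤ 1 * e := mul_le_mul_of_nonneg_right he1 he0.le
    nlinarith
  have t2 : 2 * ((b + (m ^ 2 + e) * C2) / m ^ 2) / H ≤ ε / 5 := by
    have h2 : 2 * ((b + (m ^ 2 + e) * C2) / m ^ 2) / H = (2 * (b / H) + (m ^ 2 + e) * (2 * C2 / H)) / m ^ 2 := by
      field_simp
    rw [h2, div_le_iff₀ hm2]
    have h3 : (m ^ 2 + e) * (2 * C2 / H) ≤ 2 * e := by
      have h4 : 0 ≤ 2 * C2 / H := by positivity
      exact mul_le_mul (by linarith) hC2H h4 (by norm_num)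
    linarith
  have t3 : H * M ^ 2 / X ≤ ε / 5 := by
    rw [div_le_iff₀ hX0, hMd, div_pow, mul_div_assoc', div_le_iff₀ hm2]
    have h2 : H * (δ ^ (-W)) ^ 2 ≤ δ ^ (-(k ^ 2 + 2 * W)) := by
      calc H * (δ ^ (-W)) ^ 2 ≤ δ ^ (-(k ^ 2)) * (δ ^ (-W)) ^ 2 := mul_le_mul_of_nonneg_right hHs (sq_nonneg _)
        _ = δ ^ (-(k ^ 2 + 2 * W)) := by
            rw [sq (δ ^ (-W)), ← Real.rpow_add h0, ← Real.rpow_add h0]
            congr 1
            ring
    have h3 : e * X ≤ ε * m ^ 2 / 20 * X := mul_le_mul_of_nonneg_right he2 hX0.le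
    have h4 : 0 ≤ ε * m ^ 2 * X := by positivity
    linarith
  have t4 : 2 * (e / m) ≤ ε / 5 := by
    rw [← mul_div_assoc, div_le_iff₀ hm0]
    linarith
  have t5 : 2 * H * M / X ≤ ε / 5 := by
    rw [div_le_iff₀ hX0, hMd, mul_div_assoc', div_le_iff₀ hm0]
    have h2 : H * δ ^ (-W) ≤ δ ^ (-(k ^ 2 + W)) := by
      calc H * δ ^ (-W) ≤ δ ^ (-(k ^ 2)) * δ ^ (-W) := mul_le_mul_of_nonneg_right hHs (Real.rpow_nonneg h0.le _)
        _ = δ ^ (-(k ^ 2 + W)) := by
            rw [← Real.rpow_add h0]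
            congr 1
            ring
    have h3 : e * X ≤ ε * m / 20 * X := mul_le_mul_of_nonneg_right he4 hX0.le
    have h4 : 0 ≤ ε * m * X := by positivity
    linarith
  calc X * (((m ^ 2 + e) * (1 + e) + e) / m ^ 2 + 2 * ((b + (m ^ 2 + e) * C2) / m ^ 2) / H + H * M ^ 2 / X - 1 +
      2 * (e / m) + 2 * H * M / X) ≤ X * (5 * (ε / 5)) := by
        refine mul_le_mul_of_nonneg_left ?_ hX0.le
        linarith
    _ = ε * X := by ring

end Run7.h291.WC
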