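import Pool.Agent.Run7.h291.WC.B4
import Pool.Agent.Run7.h291.WN.A10
import Mathlib.Probability.CDF

set_option autoImplicit false

/-! The critical windows: the normal distribution function, the maximal inequality, large values -/

namespace Run7.h291.WC

open Finset Filter MeasureTheory Topology Complex
open Pool.Agent.N748.MG Pool.Agent.N748.MJ Run7.h291.WN

/-- the normal distribution function -/
noncomputable def Phi (x : ℝ) : ℝ := (ProbabilityTheory.gaussianReal 0 1).real (Set.Iic x)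

lemma Phi_mono {a b : ℝ} (h : a ≤ b) : Phi a ≤ Phi b :=
  measureReal_mono (Set.Iic_subset_Iic.2 h)

lemma Phi_nn (x : ℝ) : 0 ≤ Phi x := measureReal_nonneg

lemma Phi_le_one (x : ℝ) : Phi x ≤ 1 := measureReal_le_one

lemma Phi_pos (x : ℝ) : 0 < Phi x := by
  unfold Phi
  have h0 : (ProbabilityTheory.gaussianReal 0 1) (Set.Iic x) ≠ 0 := by
    intro h
    have h1 := ProbabilityTheory.gaussianReal_absolutelyContinuous' 0 (one_ne_zero : (1 : NNReal) ≠ 0) h
    rw [Real.volume_Iic] at h1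
    exact ENNReal.top_ne_zero h1
  exact ENNReal.toReal_pos h0 (measure_ne_top _ _)

lemma Phi_bot : Tendsto Phi atBot (𝓝 0) := by
  have h := ProbabilityTheory.tendsto_cdf_atBot (ProbabilityTheory.gaussianReal 0 1)
  refine h.congr fun x => ?_
  rw [ProbabilityTheory.cdf_eq_real]
  rfl

lemma Phi_top : Tendsto Phi atTop (𝓝 1) := by
  have h := ProbabilityTheory.tendsto_cdf_atTop (ProbabilityTheory.gaussianReal 0 1)
  refine h.congr fun x => ?_
  rw [ProbabilityTheory.cdf_eq_real]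
  rfl

lemma pdf_le (x : ℝ) : ProbabilityTheory.gaussianPDF 0 1 x ≤ 1 := by
  unfold ProbabilityTheory.gaussianPDF
  rw [← ENNReal.ofReal_one]
  refine ENNReal.ofReal_le_ofReal ?_
  unfold ProbabilityTheory.gaussianPDFReal
  have h1 : Real.exp (-(x - 0) ^ 2 / (2 * ((1 : NNReal) : ℝ))) ≤ 1 := by
    rw [Real.exp_le_one_iff]
    have : 0 ≤ (x - 0) ^ 2 := sq_nonneg _
    simp only [NNReal.coe_one, mul_one]
    linarith
  have h2 : (Real.sqrt (2 * Real.pi * ((1 : NNReal) : ℝ)))⁻¹ ≤ 1 := by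
    refine inv_le_one_of_one_le₀ ?_
    rw [Real.one_le_sqrt]
    have := Real.pi_gt_three
    simp only [NNReal.coe_one, mul_one]
    linarith
  exact mul_le_one₀ h2 (Real.exp_pos _).le h1

lemma Phi_lip {a b : ℝ} (h : a ≤ b) : Phi b ≤ Phi a + (b - a) := by
  have h1 : (ProbabilityTheory.gaussianReal 0 1) (Set.Ioc a b) ≤ ENNReal.ofReal (b - a) := by
    rw [ProbabilityTheory.gaussianReal_apply 0 (one_ne_zero : (1 : NNReal) ≠ 0)]
    calc ∫⁻ x in Set.Ioc a b, ProbabilityTheory.gaussianPDF 0 1 x ≤ ∫⁻ _x in Set.Ioc a b, 1 :=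
          lintegral_mono fun x => pdf_le x
      _ = ENNReal.ofReal (b - a) := by rw [setLIntegral_one, Real.volume_Ioc]
  have h2 : Set.Iic b = Set.Iic a ∪ Set.Ioc a b := (Set.Iic_union_Ioc_eq_Iic h).symm
  unfold Phi
  rw [h2]
  refine (measureReal_union_le _ _).trans (add_le_add le_rfl ?_)
  exact ENNReal.toReal_le_of_le_ofReal (by linarith) h1

lemma Phi_le_mm {y η : ℝ} (hη : 0 < η) : Phi y ≤ mm y η := by
  have h1 : Phi y = ∫ x, (Set.Iic y).indicator (fun _ => (1:ℝ)) x ∂(ProbabilityTheory.gaussianReal 0 1) := by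
    rw [integral_indicator measurableSet_Iic, setIntegral_const, smul_eq_mul, mul_one]
    rfl
  rw [h1]
  refine integral_mono ((integrable_const (1:ℝ)).indicator measurableSet_Iic) (phy_int y η) fun x => ?_
  by_cases hx : x ∈ Set.Iic y
  · rw [Set.indicator_of_mem hx]
    exact (phy_one hη hx).ge
  · rw [Set.indicator_of_notMem hx]
    exact phy_nn x

lemma mm_le_Phi {y η : ℝ} (hη : 0 < η) : mm y η ≤ Phi (y + η) := by
  have h1 : Phi (y + η) = ∫ x, (Set.Iic (y + η)).indicator (fun _ => (1:ℝ)) x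
      ∂(ProbabilityTheory.gaussianReal 0 1) := by
    rw [integral_indicator measurableSet_Iic, setIntegral_const, smul_eq_mul, mul_one]
    rfl
  rw [h1]
  refine integral_mono (phy_int y η) ((integrable_const (1:ℝ)).indicator measurableSet_Iic) fun x => ?_
  by_cases hx : x ∈ Set.Iic (y + η)
  · rw [Set.indicator_of_mem hx]
    exact phy_le x
  · rw [Set.indicator_of_notMem hx]
    rw [Set.mem_Iic, not_le] at hx
    exact (phy_zero hη hx.le).le

lemma mm_pos {y η : ℝ} (hη : 0 < η) : 0 < mm y η := lt_of_lt_of_le (Phi_pos y) (Phi_le_mm hη)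

/-- the maximal inequality for all windows -/
lemma weak_all {g : ℝ → ℝ} (hg : Continuous g) (hg0 : ∀ x, 0 ≤ g x) {X c e : ℝ} (hX : 0 ≤ X)
    (hc : 0 < c) (he : 3 * ∫ s in (0:ℝ)..(X + 1), g s ≤ c * e) :
    volume {t | 0 ≤ t ∧ t ≤ X ∧ ∃ H, 0 < H ∧ t + H ≤ X ∧ c * H < ∫ s in t..(t + H), g s} ≤ ENNReal.ofReal e := by
  set S : ℕ → Set ℝ := fun n => {t | 0 ≤ t ∧ t ≤ X ∧ ∃ H, (1:ℝ) / (n + 1) ≤ H ∧ t + H ≤ X ∧
    c * H < ∫ s in t..(t + H), g s} with hS
  have hmono : Monotone S := by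
    intro a b hab t ht
    obtain ⟨t0, t1, H, h1, h2, h3⟩ := ht
    refine ⟨t0, t1, H, le_trans ?_ h1, h2, h3⟩
    exact one_div_le_one_div_of_le (by positivity) (by
      have : (a:ℝ) ≤ b := by exact_mod_cast hab
      linarith)
  have hU : {t | 0 ≤ t ∧ t ≤ X ∧ ∃ H, 0 < H ∧ t + H ≤ X ∧ c * H < ∫ s in t..(t + H), g s} ⊆ ⋃ n, S n := by
    rintro t ⟨t0, t1, H, h1, h2, h3⟩
    obtain ⟨n, hn⟩ := exists_nat_one_div_lt h1
    exact Set.mem_iUnion.2 ⟨n, t0, t1, H, hn.le, h2, h3⟩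
  refine (measure_mono hU).trans ?_
  rw [hmono.measure_iUnion]
  refine iSup_le fun n => ?_
  refine weak_vol hg hg0 (l := (1:ℝ) / (n + 1)) (by positivity) hX hc (le_trans ?_ he)
  refine mul_le_mul_of_nonneg_left ?_ (by norm_num)
  refine intervalIntegral.integral_mono_interval le_rfl (by positivity) ?_
    (Filter.Eventually.of_forall fun u => hg0 u) (hg.intervalIntegrable _ _)
  have : (1:ℝ) / (n + 1) ≤ 1 := by
    rw [div_le_one (by positivity)]
    linarith [(Nat.cast_nonneg n : (0:ℝ) ≤ n)]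
  linarith

/-- large values do not occur in short windows -/
lemma sup_lvl (hS : S_SUPW) (k : ℝ) (hk : 1 < k) (x y : ℝ) (hxy : x < y) (ε : ℝ) (hε : 0 < ε) : Ev fun X δ =>
    volume {t : ℝ | 0 ≤ t ∧ t ≤ X ∧ ∃ u : ℝ, t ≤ u ∧ u ≤ t + Hx k x δ ∧ Real.exp (Vl k y δ) < mz δ u} ≤
      ENNReal.ofReal (ε * X) := by
  have hk0 : 0 < k := by linarith
  obtain ⟨C, hC, E⟩ := hS k hk0 (k ^ 2) (by positivity)
  have hb : 0 < 2 * k * (y - x) := by
    have : 0 < y - x := by linarith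
    positivity
  have hq : ∀ᶠ l : ℝ in atTop, Real.log 2 ≤ k * l + y * Real.sqrt (l / 2) := by
    filter_upwards [sqrt_small (-y) (k / 2) (by positivity), eventually_ge_atTop (2 * Real.log 2 / k)] with l h1 h2
    rw [div_le_iff₀ hk0] at h2
    linarith
  refine (((((E.and (Hx_large k x 1 hk)).and (Hx_small k x)).and (of_L (exp_small 0 C (2 * k * (y - x)) (ε / 2) hb
    (by positivity)))).and (of_L hq)).and (Ev.small (C := 1) (c := k ^ 2) (e := ε / 2) (by positivity)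
    (by positivity))).mono ?_
  rintro X δ hX1 h0 h1 ⟨⟨⟨⟨⟨E, hl⟩, hs⟩, s1⟩, hq⟩, s2⟩
  have hX0 : 0 < X := by linarith
  have hq' : Real.log 2 ≤ Vl k y δ := hq
  have hκ : 2 ≤ Real.exp (Vl k y δ) := by
    rw [← Real.log_le_iff_le_exp (by norm_num)]
    exact hq'
  have h2 := E (Hx k x δ) (Real.exp (Vl k y δ)) hl hs hκ
  have hsub : {t : ℝ | 0 ≤ t ∧ t ≤ X ∧ ∃ u : ℝ, t ≤ u ∧ u ≤ t + Hx k x δ ∧ Real.exp (Vl k y δ) < mz δ u} ⊆
      {t : ℝ | 0 ≤ t ∧ t ≤ X ∧ ∃ u : ℝ, t ≤ u ∧ u ≤ t + Hx k x δ ∧ Real.exp (Vl k y δ) ≤ mz δ u} := by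
    rintro t ⟨t0, t1, u, u1, u2, u3⟩
    exact ⟨t0, t1, u, u1, u2, u3.le⟩
  refine (measure_mono hsub).trans (h2.trans (ENNReal.ofReal_le_ofReal ?_))
  refine mul_le_mul_of_nonneg_right ?_ hX0.le
  have h3 : C * Hx k x δ * δ ^ (-(k ^ 2 + 1)) * Real.exp (Vl k y δ) ^ (-(2 * k)) =
      C * Real.exp (-(2 * k * (y - x) * sg δ)) := by
    rw [Hx_exp h0, dE h0, ← Real.exp_mul, mul_assoc, mul_assoc, ← Real.exp_add, ← Real.exp_add]
    congr 2
    unfold Vl
    ring
  rw [h3]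
  have s1' : (0 * Real.log (1 / δ) + C) * Real.exp (-(2 * k * (y - x) * sg δ)) ≤ ε / 2 := s1
  linarith

/-- a finite number of conditions -/
lemma ev_fin {P : ℕ → ℝ → ℝ → Prop} (n : ℕ) (h : ∀ j < n, Ev (P j)) : Ev fun X δ => ∀ j < n, P j X δ := by
  induction n with
  | zero => exact (Ev.of_ev (P := fun _ => True) (Eventually.of_forall fun _ => trivial)).mono fun X δ _ _ _ _ j hj =>
      absurd hj (Nat.not_lt_zero j)
  | succ n ih =>
    refine ((ih fun j hj => h j (by omega)).and (h n (by omega))).mono ?_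
    rintro X δ _ _ _ ⟨h1, h2⟩ j hj
    rcases Nat.lt_succ_iff_lt_or_eq.1 hj with h3 | h3
    · exact h1 j h3
    · rw [h3]
      exact h2

end Run7.h291.WC
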