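import Pool.Agent.Run7.h291.WC.B5

set_option autoImplicit false

/-! The critical windows: the law of the moments over windows -/

namespace Run7.h291.WC

open Finset Filter MeasureTheory Topology Complex
open Pool.Agent.N748.MG Pool.Agent.N748.MJ Run7.h291.WN

/-- the general form of the argument -/
lemma asm {f F Z : ℝ → ℝ} {X l m s τ ε q Hlo Hhi : ℝ} {B : Set ℝ} (hf : Continuous f) (hF : Continuous F)
    (hf0 : ∀ u, 0 ≤ f u) (hfF : ∀ u, f u ≤ F u) (hX : 0 < X) (hl : 0 < l) (hlX : l ≤ X / 2) (hm : 0 < m) (hm1 : m ≤ 1)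
    (hτ : 0 < τ) (hτ1 : τ ≤ 1) (hε : 0 < ε) (hs1 : s ≤ τ * ε / 192) (hs2 : s ≤ ε / 8)
    (hE1 : ∫ t in (0:ℝ)..(2 * X), |Av l (fun u => f u / m) t - 1| ≤ s * (2 * X))
    (hE2 : ∫ t in (0:ℝ)..(2 * X), (F t - f t) ≤ q * (2 * X)) (hq : 0 ≤ q) (hlo : 0 < Hlo) (hlH : 16 * l ≤ τ * Hlo)
    (hhi : Hhi ≤ X / 2) (hB : ∀ t, 0 ≤ t → t ≤ X → t ∉ B → ∀ u ∈ Set.Icc t (t + Hhi), Z u = F u) :
    volume {t : ℝ | 0 ≤ t ∧ t ≤ X ∧ ∃ H : ℝ, Hlo ≤ H ∧ H ≤ Hhi ∧
      τ / 2 ≤ |(1 / H) * (∫ u in t..(t + H), Z u) - m|} ≤ ENNReal.ofReal ((ε / 2 + 48 * q / τ) * X) + volume B := by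
  set g : ℝ → ℝ := fun u => f u / m with hg
  have hgc : Continuous g := hf.div_const m
  have hg0 : ∀ u, 0 ≤ g u := fun u => div_nonneg (hf0 u) hm.le
  have hAc := Av_cont (l := l) hgc
  have hg1c : Continuous fun t => |Av l g t - 1| := (hAc.sub continuous_const).abs
  set c : ℝ := τ / (8 * m) with hc
  have hc0 : 0 < c := by positivity
  have hcτ : τ / 8 ≤ c := by
    rw [hc]
    exact div_le_div_of_nonneg_left hτ.le (by positivity) (by linarith)
  have hcm : c * m = τ / 8 := by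
    rw [hc]
    field_simp
  have m3 : ∫ t in (0:ℝ)..X, |Av l g t - 1| ≤ s * (2 * X) := by
    refine le_trans ?_ hE1
    exact intervalIntegral.integral_mono_interval le_rfl hX.le (by linarith)
      (Filter.Eventually.of_forall fun u => abs_nonneg _) (hg1c.intervalIntegrable _ _)
  have hX2 : 2 * X - l + l = 2 * X := by ring
  have b1 := weak_vol (g := fun t => |Av l g t - 1|) hg1c (fun t => abs_nonneg _) (l := l) (X := 2 * X - l) (c := c)
    (e := ε / 4 * X) hl (by linarith) hc0 (by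
      rw [hX2]
      have h2 : 6 * s ≤ c * (ε / 4) := by
        have : τ / 8 * (ε / 4) ≤ c * (ε / 4) := mul_le_mul_of_nonneg_right hcτ (by positivity)
        linarith
      have h3 : 6 * s * X ≤ c * (ε / 4) * X := mul_le_mul_of_nonneg_right h2 hX.le
      linarith)
  have b2 := weak_vol (g := fun t => F t - f t) (hF.sub hf) (fun t => by linarith [hfF t]) (l := l)
    (X := 2 * X - l) (c := τ / 8) (e := 48 * q / τ * X) hl (by linarith) (by positivity) (by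
      rw [hX2]
      have h2 : τ / 8 * (48 * q / τ * X) = 6 * q * X := by
        field_simp
        ring
      rw [h2]
      linarith)
  have b3 := markov (g := fun t => |Av l g t - 1|) hg1c (fun t => abs_nonneg _) (X := X) (e := ε / 4 * X) hX.le
    (m3.trans (by nlinarith))
  set S1 := {t | 0 ≤ t ∧ t ≤ 2 * X - l ∧ ∃ H, l ≤ H ∧ t + H ≤ 2 * X - l ∧ c * H < ∫ s in t..(t + H), |Av l g s - 1|}
    with hS1
  set S2 := {t | 0 ≤ t ∧ t ≤ 2 * X - l ∧ ∃ H, l ≤ H ∧ t + H ≤ 2 * X - l ∧ τ / 8 * H < ∫ s in t..(t + H), (F s - f s)}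
    with hS2
  set S3 := {t | 0 ≤ t ∧ t ≤ X ∧ 1 < |Av l g t - 1|} with hS3
  have hsub : {t : ℝ | 0 ≤ t ∧ t ≤ X ∧ ∃ H : ℝ, Hlo ≤ H ∧ H ≤ Hhi ∧
      τ / 2 ≤ |(1 / H) * (∫ u in t..(t + H), Z u) - m|} ⊆ ((S1 ∪ S2) ∪ S3) ∪ B := by
    rintro t ⟨t0, t1, H, hH1, hH2, hH3⟩
    by_contra hcon
    simp only [Set.mem_union, not_or] at hcon
    obtain ⟨⟨⟨c1, c2⟩, c3⟩, c4⟩ := hcon
    have hHp : 0 < H := lt_of_lt_of_le hlo hH1
    have hlH2 : 16 * l ≤ τ * H := hlH.trans (mul_le_mul_of_nonneg_left hH1 hτ.le)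
    have hlH : l ≤ H := by nlinarith
    have d1 : ∫ s in t..(t + H), |Av l g s - 1| ≤ c * H := by
      by_contra h
      exact c1 ⟨t0, by linarith, H, hlH, by linarith, not_le.1 h⟩
    have d2 : ∫ s in t..(t + H), (F s - f s) ≤ τ / 8 * H := by
      by_contra h
      exact c2 ⟨t0, by linarith, H, hlH, by linarith, not_le.1 h⟩
    have d3 : |Av l g t - 1| ≤ 1 := by
      by_contra h
      exact c3 ⟨t0, t1, not_le.1 h⟩
    have d4 : ∀ u ∈ Set.Icc t (t + H), Z u / m = F u / m := by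
      intro u hu
      rw [hB t t0 t1 c4 u ⟨hu.1, hu.2.trans (by linarith)⟩]
    have d5 : ∫ s in t..(t + H), (F s / m - g s) ≤ c * H := by
      have h2 : ∫ s in t..(t + H), (F s / m - g s) = (∫ s in t..(t + H), (F s - f s)) / m := by
        rw [← intervalIntegral.integral_div]
        refine intervalIntegral.integral_congr fun u _ => ?_
        rw [hg]
        simp only
        ring
      rw [h2, div_le_iff₀ hm]
      have : c * H * m = τ / 8 * H := by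
        rw [← hcm]
        ring
      rw [this]
      exact d2
    have hdet := det (Z := fun u => Z u / m) (F := fun u => F u / m) (f := g) (hF.div_const m) hgc hg0
      (fun u => div_le_div_of_nonneg_right (hfF u) hm.le) hl hlH d4 d1 d5 d3
    have h5 : (1 / H) * (∫ u in t..(t + H), Z u) - m = (m / H) * ((∫ u in t..(t + H), Z u / m) - H) := by
      rw [intervalIntegral.integral_div]
      field_simp
    rw [h5, abs_mul, abs_of_pos (by positivity : 0 < m / H)] at hH3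
    have h9 : m / H * |(∫ u in t..(t + H), Z u / m) - H| ≤ m / H * (2 * l + 2 * (c * H)) :=
      mul_le_mul_of_nonneg_left hdet (by positivity)
    have h10 : m / H * (2 * l + 2 * (c * H)) = 2 * m * l / H + 2 * (c * m) := by
      field_simp
    have h11 : 2 * m * l / H ≤ τ / 8 := by
      rw [div_le_iff₀ hHp]
      nlinarith
    rw [h10, hcm] at h9
    linarith
  refine (measure_mono hsub).trans ((measure_union_le _ _).trans (add_le_add ?_ le_rfl))
  refine (measure_union_le _ _).trans ((add_le_add (measure_union_le _ _) le_rfl).trans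
    ((add_le_add (add_le_add b1 b2) b3).trans ?_))
  have hq1 : 0 ≤ ε / 4 * X := by positivity
  have hq2 : 0 ≤ 48 * q / τ * X := by positivity
  rw [← ENNReal.ofReal_add hq1 hq2, ← ENNReal.ofReal_add (by positivity) hq1]
  refine ENNReal.ofReal_le_ofReal (le_of_eq ?_)
  ring

lemma psi_anti {a b : ℝ} (h : a ≤ b) : psi b ≤ psi a := by
  unfold psi
  exact min_le_min le_rfl (max_le_max le_rfl (by linarith))

lemma chi_mono {k y y' η δ t : ℝ} (hη : 0 ≤ η) (h : y ≤ y') : chi k y η δ t ≤ chi k y' η δ t := by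
  unfold chi
  refine psi_anti (Real.rpow_le_rpow (mul_nonneg (Real.exp_pos _).le (TMA.mz_nn _ _)) ?_ (al_nn hη))
  refine mul_le_mul_of_nonneg_right (Real.exp_le_exp.2 ?_) (TMA.mz_nn _ _)
  unfold Vl
  have := mul_le_mul_of_nonneg_right h (sg_nn δ)
  linarith

/-- below the level the cut-off is one -/
lemma chi_one {k y η δ t : ℝ} (hη : 0 ≤ η) (h : mz δ t ≤ Real.exp (Vl k y δ)) : chi k y η δ t = 1 := by
  unfold chi
  refine psi_one (Real.rpow_le_one (mul_nonneg (Real.exp_pos _).le (TMA.mz_nn _ _)) ?_ (al_nn hη))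
  calc Real.exp (-(Vl k y δ)) * mz δ t ≤ Real.exp (-(Vl k y δ)) * Real.exp (Vl k y δ) :=
        mul_le_mul_of_nonneg_left h (Real.exp_pos _).le
    _ = 1 := by rw [← Real.exp_add, neg_add_cancel, Real.exp_zero]

/-- the windows near one point of the transition -/
lemma main_pt (hM : S_MNB) (hLaw : S_LAW) (hS : S_SUPW) (k : ℝ) (hk : 1 < k) (x0 η τ ε : ℝ) (hη : 0 < η)
    (hητ : 16 * η ≤ τ) (hτ1 : τ ≤ 1) (hε : 0 < ε) : Ev fun X δ =>
    volume {t : ℝ | 0 ≤ t ∧ t ≤ X ∧ ∃ H : ℝ, Hx k x0 δ ≤ H ∧ H ≤ Hx k (x0 + η) δ ∧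
      τ ≤ |(1 / H) * (∫ u in t..(t + H), Zk k δ u) - Phi x0|} ≤ ENNReal.ofReal ((336 * η / τ + ε) * X) := by
  have hk0 : 0 < k := by linarith
  have hτ : 0 < τ := by linarith
  obtain ⟨n, c, hn, hc, hck, Hw⟩ := win hM hLaw k hk
  set W : ℝ := k ^ 2 + 1 with hW
  have hW0 : 0 < W := by positivity
  set y : ℝ := x0 - 4 * η with hy
  set y1 : ℝ := x0 + 2 * η with hy1
  set m : ℝ := mm y η with hm
  have hm0 : 0 < m := mm_pos hη
  have hm1 : m ≤ 1 := mm_le y η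
  set s : ℝ := min (τ * ε / 192) (ε / 8) with hs
  have hs0 : 0 < s := lt_min (by positivity) (by positivity)
  set e1 : ℝ := min (s ^ 2) (τ * ε / 384) with he1
  have he10 : 0 < e1 := lt_min (by positivity) (by positivity)
  have he11 : e1 ≤ s ^ 2 := min_le_left _ _
  have he12 : e1 ≤ τ * ε / 384 := min_le_right _ _
  have hb : 0 < 2 * k * η := by positivity
  refine (((((((Hw y η η (x0 - η) W hη hη (by linarith) le_rfl hm0 e1 he10).up.and
    (mean_chi hLaw k y1 η W hk0 hη le_rfl e1 he10).up).and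
    (sup_lvl hS k hk (x0 + η) y1 (by linarith) (ε / 4) (by positivity))).and
    (Ev.win (D := k ^ 2) (c := 1 / 2) (e := 1) (by norm_num) one_pos)).and
    ((Hx_small k (x0 + η)).and (Hx_small k (x0 - η)))).and
    (of_L (exp_small 0 16 (2 * k * η) τ hb hτ))).and (FP_chi k y1 η W hk0 hη le_rfl)).mono ?_
  rintro X δ hX1 h0 h1 ⟨⟨⟨⟨⟨⟨Hw, Hc⟩, HS⟩, w1⟩, hs1, hs2⟩, s1⟩, hFP⟩
  rw [Real.rpow_one] at w1
  have hX0 : 0 < X := by linarith
  obtain ⟨E1, E2⟩ := Hw (2 * X) (by linarith)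
  have E3 := (abs_le.1 (Hc (2 * X) (by linarith))).2
  set N : ℕ := NS δ with hN
  set f : ℝ → ℝ := gg n N k y η η c W δ with hf
  have hfc : Continuous f := gg_cont hk0.le hη.le h1
  have hf0 : ∀ u, 0 ≤ f u := fun u => gg_nn h0.le u
  set F : ℝ → ℝ := fun u => FP k W δ u * chi k y1 η δ u with hF
  have hFc : Continuous F := (FP_cont hk0.le h1).mul (chi_cont hη.le h1)
  have hfF : ∀ u, f u ≤ F u := fun u =>
    (gg_le_chi h0.le u).trans (mul_le_mul_of_nonneg_left (chi_mono hη.le (by linarith)) (FP_nn h0.le u))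
  have hgc : Continuous fun u => f u / m := hfc.div_const m
  have hE1 : ∫ t in (0:ℝ)..(2 * X), |Av (Hx k (x0 - η) δ) (fun u => f u / m) t - 1| ≤ s * (2 * X) :=
    mean_of_sq (g := fun t => Av (Hx k (x0 - η) δ) (fun u => f u / m) t - 1)
      ((Av_cont hgc).sub continuous_const) hs0 (by linarith)
      (E1.trans (mul_le_mul_of_nonneg_right he11 (by linarith)))
  have hmm : mm y1 η - m ≤ 7 * η := by
    have g1 := mm_le_Phi (y := y1) hη
    have g2 := Phi_le_mm (y := y) hη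
    have g3 := Phi_lip (show y ≤ y1 + η by linarith)
    have g4 : y1 + η - y = 7 * η := by
      rw [hy1, hy]
      ring
    rw [g4] at g3
    linarith
  have hE2 : ∫ t in (0:ℝ)..(2 * X), (F t - f t) ≤ (7 * η + 2 * e1) * (2 * X) := by
    rw [intervalIntegral.integral_sub (hFc.intervalIntegrable _ _) (hfc.intervalIntegrable _ _)]
    have h2 : (mm y1 η - m) * (2 * X) ≤ 7 * η * (2 * X) := mul_le_mul_of_nonneg_right hmm (by linarith)
    linarith
  set B : Set ℝ := {t : ℝ | 0 ≤ t ∧ t ≤ X ∧ ∃ u : ℝ, t ≤ u ∧ u ≤ t + Hx k (x0 + η) δ ∧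
    Real.exp (Vl k y1 δ) < mz δ u} with hBd
  have hmain := asm (f := f) (F := F) (Z := Zk k δ) (X := X) (l := Hx k (x0 - η) δ) (m := m) (s := s) (τ := τ)
    (ε := ε) (q := 7 * η + 2 * e1) (Hlo := Hx k x0 δ) (Hhi := Hx k (x0 + η) δ) (B := B) hfc hFc hf0 hfF hX0
    (Hx_pos h0) (hs2.trans (by linarith)) hm0 hm1 hτ hτ1 hε (min_le_left _ _) (min_le_right _ _) hE1 hE2
    (by positivity) (Hx_pos h0) (by
      rw [Hx_ratio (k := k) (x := x0) (x' := x0 - η)]
      have h2 : (0 * Real.log (1 / δ) + 16) * Real.exp (-(2 * k * η * sg δ)) ≤ τ := s1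
      have h3 : 2 * k * (x0 - η - x0) * sg δ = -(2 * k * η * sg δ) := by ring
      rw [h3]
      have h4 : 0 < Hx k x0 δ := Hx_pos h0
      nlinarith) (hs1.trans (by linarith)) (by
      intro t t0 t1 htB u hu
      have h2 : mz δ u ≤ Real.exp (Vl k y1 δ) := by
        by_contra h
        exact htB ⟨t0, t1, u, hu.1, hu.2, not_le.1 h⟩
      show Zk k δ u = FP k W δ u * chi k y1 η δ u
      rw [(hFP u).2, chi_one hη.le h2, mul_one])
  have hsub : {t : ℝ | 0 ≤ t ∧ t ≤ X ∧ ∃ H : ℝ, Hx k x0 δ ≤ H ∧ H ≤ Hx k (x0 + η) δ ∧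
      τ ≤ |(1 / H) * (∫ u in t..(t + H), Zk k δ u) - Phi x0|} ⊆
      {t : ℝ | 0 ≤ t ∧ t ≤ X ∧ ∃ H : ℝ, Hx k x0 δ ≤ H ∧ H ≤ Hx k (x0 + η) δ ∧
      τ / 2 ≤ |(1 / H) * (∫ u in t..(t + H), Zk k δ u) - m|} := by
    rintro t ⟨t0, t1, H, hH1, hH2, hH3⟩
    refine ⟨t0, t1, H, hH1, hH2, ?_⟩
    have g1 : |m - Phi x0| ≤ 4 * η := by
      have q1 := Phi_le_mm (y := y) hη
      have q2 := mm_le_Phi (y := y) hη
      have q3 := Phi_lip (show y ≤ x0 by linarith)
      have q4 := Phi_mono (show y + η ≤ x0 by linarith)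
      rw [abs_le]
      constructor <;> linarith
    have g2 := abs_sub_le ((1 / H) * (∫ u in t..(t + H), Zk k δ u)) m (Phi x0)
    linarith
  refine (measure_mono hsub).trans (hmain.trans ((add_le_add le_rfl HS).trans ?_))
  rw [← ENNReal.ofReal_add (by positivity) (by positivity)]
  refine ENNReal.ofReal_le_ofReal ?_
  have h5 : 48 * (7 * η + 2 * e1) / τ ≤ 336 * η / τ + ε / 4 := by
    have h6 : 48 * (7 * η + 2 * e1) / τ = 336 * η / τ + 96 * e1 / τ := by ring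
    rw [h6]
    refine add_le_add le_rfl ?_
    rw [div_le_iff₀ hτ]
    linarith
  have h7 : (ε / 2 + 48 * (7 * η + 2 * e1) / τ) * X + ε / 4 * X ≤ (ε / 2 + (336 * η / τ + ε / 4)) * X + ε / 4 * X := by
    refine add_le_add (mul_le_mul_of_nonneg_right (by linarith) hX0.le) le_rfl
  refine h7.trans (le_of_eq ?_)
  ring

/-- long windows -/
lemma main_up (hM : S_MNB) (hLaw : S_LAW) (k D : ℝ) (hk : 1 < k) (hD : 0 ≤ D) (ε : ℝ) (hε : 0 < ε) (hε1 : ε ≤ 1) :
    ∃ A0 : ℝ, ∀ A : ℝ, A0 ≤ A → Ev fun X δ =>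
    volume {t : ℝ | 0 ≤ t ∧ t ≤ X ∧ ∃ H : ℝ, Hx k A δ ≤ H ∧ H ≤ δ ^ (-D) ∧
      ε ≤ |(1 / H) * (∫ u in t..(t + H), Zk k δ u) - 1|} ≤ ENNReal.ofReal (ε * X) := by
  have hk0 : 0 < k := by linarith
  obtain ⟨n, c, hn, hc, hck, Hw⟩ := win hM hLaw k hk
  obtain ⟨W0, HS⟩ := sup_bd k D hk0 hD
  set W : ℝ := max W0 (2 * k ^ 2 + 1) with hW
  have hW2 : k ^ 2 + 1 ≤ W := le_trans (by nlinarith [sq_nonneg k]) (le_max_right W0 (2 * k ^ 2 + 1))
  set r : ℝ := ε ^ 2 / 800 with hr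
  have hr0 : 0 < r := by positivity
  obtain ⟨B0, hB0⟩ := eventually_atTop.1 ((tendsto_order.1 Phi_top).1 (1 - r) (by linarith))
  refine ⟨B0 + 4, fun A hA => ?_⟩
  set y : ℝ := A - 4 with hy
  set m : ℝ := mm y 1 with hm
  have hm0 : 0 < m := mm_pos one_pos
  have hm1 : m ≤ 1 := mm_le y 1
  have hmr : 1 - r ≤ m := (hB0 y (by linarith)).le.trans (Phi_le_mm one_pos)
  set s : ℝ := min (ε * ε / 192) (ε / 8) with hs
  have hs0 : 0 < s := lt_min (by positivity) (by positivity)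
  set e1 : ℝ := min (s ^ 2) r with he1
  have he10 : 0 < e1 := lt_min (by positivity) hr0
  have he11 : e1 ≤ s ^ 2 := min_le_left _ _
  have he12 : e1 ≤ r := min_le_right _ _
  refine (((((((Hw y 1 1 (A - 1) W one_pos one_pos (by linarith) hW2 hm0 e1 he10).up.and
    (means 1 le_rfl k 1 W hk0 one_pos (le_max_right _ _) r hr0).up).and (HS W (le_max_left _ _) (ε / 4) (by positivity))).and
    (Ev.win (D := k ^ 2) (c := 1 / 2) (e := 1) (by norm_num) one_pos)).and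
    (Ev.win (D := D) (c := 1 / 2) (e := 1) (by norm_num) one_pos)).and (Hx_small k (A - 1))).and
    (of_L (exp_small 0 16 (2 * k * 1) ε (by positivity) hε))).mono ?_
  rintro X δ hX1 h0 h1 ⟨⟨⟨⟨⟨⟨Hw, Hc⟩, HS⟩, w1⟩, w2⟩, hs2⟩, s1⟩
  rw [Real.rpow_one] at w1 w2
  have hX0 : 0 < X := by linarith
  obtain ⟨E1, E2⟩ := Hw (2 * X) (by linarith)
  have E3 := (Hc (2 * X) (by linarith)).1
  set N : ℕ := NS δ with hN
  set f : ℝ → ℝ := gg n N k y 1 1 c W δ with hf
  have hfc : Continuous f := gg_cont hk0.le zero_le_one h1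
  have hf0 : ∀ u, 0 ≤ f u := fun u => gg_nn h0.le u
  set F : ℝ → ℝ := FP k W δ with hF
  have hFc : Continuous F := FP_cont hk0.le h1
  have hfF : ∀ u, f u ≤ F u := fun u => gg_le h0.le u
  have hgc : Continuous fun u => f u / m := hfc.div_const m
  have hE1 : ∫ t in (0:ℝ)..(2 * X), |Av (Hx k (A - 1) δ) (fun u => f u / m) t - 1| ≤ s * (2 * X) :=
    mean_of_sq (g := fun t => Av (Hx k (A - 1) δ) (fun u => f u / m) t - 1)
      ((Av_cont hgc).sub continuous_const) hs0 (by linarith)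
      (E1.trans (mul_le_mul_of_nonneg_right he11 (by linarith)))
  have hE2 : ∫ t in (0:ℝ)..(2 * X), (F t - f t) ≤ (3 * r) * (2 * X) := by
    rw [intervalIntegral.integral_sub (hFc.intervalIntegrable _ _) (hfc.intervalIntegrable _ _)]
    have h2 : (1 - 2 * r) * (2 * X) ≤ (m - e1) * (2 * X) := mul_le_mul_of_nonneg_right (by linarith) (by linarith)
    linarith
  set B : Set ℝ := {t : ℝ | 0 ≤ t ∧ t ≤ X ∧ ∃ u : ℝ, t ≤ u ∧ u ≤ t + δ ^ (-D) ∧ δ ^ (-W) < Zk k δ u} with hBd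
  have hmain := asm (f := f) (F := F) (Z := Zk k δ) (X := X) (l := Hx k (A - 1) δ) (m := m) (s := s) (τ := ε)
    (ε := ε) (q := 3 * r) (Hlo := Hx k A δ) (Hhi := δ ^ (-D)) (B := B) hfc hFc hf0 hfF hX0
    (Hx_pos h0) (hs2.trans (by linarith)) hm0 hm1 hε hε1 hε (min_le_left _ _) (min_le_right _ _) hE1 hE2
    (by positivity) (Hx_pos h0) (by
      rw [Hx_ratio (k := k) (x := A) (x' := A - 1)]
      have h2 : (0 * Real.log (1 / δ) + 16) * Real.exp (-(2 * k * 1 * sg δ)) ≤ ε := s1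
      have h3 : 2 * k * (A - 1 - A) * sg δ = -(2 * k * 1 * sg δ) := by ring
      rw [h3]
      have h4 : 0 < Hx k A δ := Hx_pos h0
      nlinarith) (w2.trans (by linarith)) (by
      intro t t0 t1 htB u hu
      have h2 : Zk k δ u ≤ δ ^ (-W) := by
        by_contra h
        exact htB ⟨t0, t1, u, hu.1, hu.2, not_le.1 h⟩
      show Zk k δ u = FP k W δ u
      unfold FP
      rw [min_eq_left h2])
  have hsub : {t : ℝ | 0 ≤ t ∧ t ≤ X ∧ ∃ H : ℝ, Hx k A δ ≤ H ∧ H ≤ δ ^ (-D) ∧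
      ε ≤ |(1 / H) * (∫ u in t..(t + H), Zk k δ u) - 1|} ⊆
      {t : ℝ | 0 ≤ t ∧ t ≤ X ∧ ∃ H : ℝ, Hx k A δ ≤ H ∧ H ≤ δ ^ (-D) ∧
      ε / 2 ≤ |(1 / H) * (∫ u in t..(t + H), Zk k δ u) - m|} := by
    rintro t ⟨t0, t1, H, hH1, hH2, hH3⟩
    refine ⟨t0, t1, H, hH1, hH2, ?_⟩
    have hrε : r ≤ ε / 2 := by
      rw [hr]
      nlinarith
    have g1 : |m - 1| ≤ ε / 2 := by
      rw [abs_le]
      constructor <;> linarith
    have g2 := abs_sub_le ((1 / H) * (∫ u in t..(t + H), Zk k δ u)) m 1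
    linarith
  refine (measure_mono hsub).trans (hmain.trans ((add_le_add le_rfl HS).trans ?_))
  rw [← ENNReal.ofReal_add (by positivity) (by positivity)]
  refine ENNReal.ofReal_le_ofReal ?_
  have h5 : 48 * (3 * r) / ε ≤ ε / 4 := by
    rw [div_le_iff₀ hε, hr]
    nlinarith
  have h7 : (ε / 2 + 48 * (3 * r) / ε) * X + ε / 4 * X ≤ (ε / 2 + ε / 4) * X + ε / 4 * X := by
    refine add_le_add (mul_le_mul_of_nonneg_right (by linarith) hX0.le) le_rfl
  refine h7.trans (le_of_eq ?_)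
  ring

/-- short windows -/
lemma main_lo (hLaw : S_LAW) (hS : S_SUPW) (k : ℝ) (hk : 1 < k) (ε : ℝ) (hε : 0 < ε) :
    ∃ A0 : ℝ, ∀ A : ℝ, A0 ≤ A → Ev fun X δ =>
    volume {t : ℝ | 0 ≤ t ∧ t ≤ X ∧ ∃ H : ℝ, 0 < H ∧ H ≤ Hx k (-A) δ ∧
      ε ≤ (1 / H) * (∫ u in t..(t + H), Zk k δ u)} ≤ ENNReal.ofReal (ε * X) := by
  have hk0 : 0 < k := by linarith
  set W : ℝ := k ^ 2 + 1 with hW
  set r : ℝ := ε ^ 2 / 100 with hr
  have hr0 : 0 < r := by positivity
  obtain ⟨B0, hB0⟩ := eventually_atBot.1 ((tendsto_order.1 Phi_bot).2 r hr0)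
  refine ⟨2 - B0, fun A hA => ?_⟩
  set y : ℝ := -A + 1 with hy
  have hmr : mm y 1 ≤ r := (mm_le_Phi one_pos).trans (hB0 (y + 1) (by linarith)).le
  refine (((((mean_chi hLaw k y 1 W hk0 one_pos le_rfl r hr0).up.and
    (sup_lvl hS k hk (-A) y (by linarith) (ε / 4) (by positivity))).and
    (Ev.win (D := k ^ 2) (c := 1 / 4) (e := 1) (by norm_num) one_pos)).and (Hx_small k (-A))).and
    (FP_chi k y 1 W hk0 one_pos le_rfl)).mono ?_
  rintro X δ hX1 h0 h1 ⟨⟨⟨⟨Hc, HS⟩, w1⟩, hs2⟩, hFP⟩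
  rw [Real.rpow_one] at w1
  have hX0 : 0 < X := by linarith
  have E3 := (abs_le.1 (Hc (2 * X + 1) (by linarith))).2
  set F : ℝ → ℝ := fun u => FP k W δ u * chi k y 1 δ u with hF
  have hFc : Continuous F := (FP_cont hk0.le h1).mul (chi_cont zero_le_one h1)
  have hF0 : ∀ u, 0 ≤ F u := fun u => mul_nonneg (FP_nn h0.le u) (chi_nn u)
  have hb := weak_all (g := F) hFc hF0 (X := 2 * X) (c := ε / 2) (e := ε / 2 * X) (by linarith) (by positivity) (by
    have h2 : ∫ t in (0:ℝ)..(2 * X + 1), F t ≤ 2 * r * (2 * X + 1) := by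
      have h3 : mm y 1 * (2 * X + 1) ≤ r * (2 * X + 1) := mul_le_mul_of_nonneg_right hmr (by linarith)
      linarith
    have h4 : 2 * r * (2 * X + 1) ≤ 2 * r * (3 * X) := mul_le_mul_of_nonneg_left (by linarith) (by positivity)
    have h5 : 3 * (2 * r * (3 * X)) ≤ ε / 2 * (ε / 2 * X) := by
      rw [hr]
      have : 0 ≤ ε ^ 2 * X := by positivity
      nlinarith
    linarith)
  have hsub : {t : ℝ | 0 ≤ t ∧ t ≤ X ∧ ∃ H : ℝ, 0 < H ∧ H ≤ Hx k (-A) δ ∧
      ε ≤ (1 / H) * (∫ u in t..(t + H), Zk k δ u)} ⊆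
      {t | 0 ≤ t ∧ t ≤ 2 * X ∧ ∃ H, 0 < H ∧ t + H ≤ 2 * X ∧ ε / 2 * H < ∫ s in t..(t + H), F s} ∪
      {t : ℝ | 0 ≤ t ∧ t ≤ X ∧ ∃ u : ℝ, t ≤ u ∧ u ≤ t + Hx k (-A) δ ∧ Real.exp (Vl k y δ) < mz δ u} := by
    rintro t ⟨t0, t1, H, hH1, hH2, hH3⟩
    by_contra hcon
    simp only [Set.mem_union, not_or] at hcon
    obtain ⟨c1, c2⟩ := hcon
    apply c1
    refine ⟨t0, by linarith, H, hH1, by linarith, ?_⟩
    have h2 : ∫ u in t..(t + H), Zk k δ u = ∫ u in t..(t + H), F u := by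
      refine intervalIntegral.integral_congr fun u hu => ?_
      rw [Set.uIcc_of_le (by linarith)] at hu
      have h3 : mz δ u ≤ Real.exp (Vl k y δ) := by
        by_contra h
        exact c2 ⟨t0, t1, u, hu.1, hu.2.trans (by linarith), not_le.1 h⟩
      show Zk k δ u = FP k W δ u * chi k y 1 δ u
      rw [(hFP u).2, chi_one zero_le_one h3, mul_one]
    rw [h2, one_div, le_inv_mul_iff₀ hH1] at hH3
    nlinarith
  refine (measure_mono hsub).trans ((measure_union_le _ _).trans ((add_le_add hb HS).trans ?_))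
  rw [← ENNReal.ofReal_add (by positivity) (by positivity)]
  refine ENNReal.ofReal_le_ofReal ?_
  nlinarith

end Run7.h291.WC
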