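import Pool.Agent.Run7.h291.WC.B6

set_option autoImplicit false

/-! The critical windows: the results -/

namespace Run7.h291.WC

open Finset Filter MeasureTheory Topology Complex
open Pool.Agent.N748.MG Pool.Agent.N748.MJ Run7.h291.WN

/-- the position of a window in the transition -/
noncomputable def pos (k δ H : ℝ) : ℝ := Real.log (H * δ ^ (k ^ 2 - 1)) / (2 * k * sg δ)

lemma Hx_pos_eq {k δ H : ℝ} (hk : 0 < k) (h0 : 0 < δ) (h1 : δ ≤ 1 / 16) (hH : 0 < H) :
    Hx k (pos k δ H) δ = H := by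
  have hs := sg_pos h0 h1
  have h2 : Real.log (H * δ ^ (k ^ 2 - 1)) = Real.log H - (k ^ 2 - 1) * Real.log (1 / δ) := by
    rw [Real.log_mul hH.ne' (Real.rpow_pos_of_pos h0 _).ne', Real.log_rpow h0, one_div, Real.log_inv]
    ring
  have h3 : 2 * k * pos k δ H * sg δ = Real.log H - (k ^ 2 - 1) * Real.log (1 / δ) := by
    rw [← h2]
    unfold pos
    field_simp
  rw [Hx_exp h0, h3]
  rw [add_sub_cancel, Real.exp_log hH]

lemma mean_nn {k δ t H : ℝ} (h0 : 0 ≤ δ) (hH : 0 < H) : 0 ≤ (1 / H) * (∫ u in t..(t + H), Zk k δ u) :=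
  mul_nonneg (by positivity) (intervalIntegral.integral_nonneg (by linarith) fun u _ => Zk_nn h0 u)

/-- the law of the moments over windows -/
theorem crit_a (hM : S_MNB) (hLaw : S_LAW) (hS : S_SUPW) (k D : ℝ) (hk : 1 < k) (hD : 0 ≤ D) (ε : ℝ) (hε : 0 < ε) :
    Ev fun X δ => ∀ H : ℝ, 0 < H → H ≤ δ ^ (-D) →
    volume {t : ℝ | 0 ≤ t ∧ t ≤ X ∧ ε ≤ |(1 / H) * (∫ u in t..(t + H), Zk k δ u) - Phi (pos k δ H)|} ≤
      ENNReal.ofReal (ε * X) := by
  have hk0 : 0 < k := by linarith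
  set e : ℝ := min ε 1 with he
  have he0 : 0 < e := lt_min hε one_pos
  have he1 : e ≤ 1 := min_le_right _ _
  have heε : e ≤ ε := min_le_left _ _
  obtain ⟨A1, H1⟩ := main_up hM hLaw k D hk hD (e / 2) (by positivity) (by linarith)
  obtain ⟨A2, H2⟩ := main_lo hLaw hS k hk (e / 2) (by positivity)
  obtain ⟨A3, H3⟩ := eventually_atTop.1 ((tendsto_order.1 Phi_top).1 (1 - e / 2) (by linarith))
  obtain ⟨A4, H4⟩ := eventually_atBot.1 ((tendsto_order.1 Phi_bot).2 (e / 2) (by positivity))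
  set A : ℝ := max (max A1 A2) (max (max A3 (-A4)) 1) with hA
  have hA1 : A1 ≤ A := (le_max_left _ _).trans (le_max_left _ _)
  have hA2 : A2 ≤ A := (le_max_right _ _).trans (le_max_left _ _)
  have hA3 : A3 ≤ A := (le_max_left _ _).trans ((le_max_left _ _).trans (le_max_right _ _))
  have hA4 : -A4 ≤ A := (le_max_right _ _).trans ((le_max_left _ _).trans (le_max_right _ _))
  have hA5 : 1 ≤ A := (le_max_right _ _).trans (le_max_right _ _)
  set η : ℝ := e ^ 2 / 4000 with hη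
  have hη0 : 0 < η := by positivity
  have hηe : η ≤ e / 4000 := by
    rw [hη]
    have : e ^ 2 ≤ e := by nlinarith
    linarith
  obtain ⟨J, hJ⟩ := exists_nat_gt (2 * A / η)
  have hgrid := ev_fin (P := fun j X δ => volume {t : ℝ | 0 ≤ t ∧ t ≤ X ∧ ∃ H : ℝ,
      Hx k (-A + j * η) δ ≤ H ∧ H ≤ Hx k (-A + j * η + η) δ ∧
      e / 2 ≤ |(1 / H) * (∫ u in t..(t + H), Zk k δ u) - Phi (-A + j * η)|} ≤
        ENNReal.ofReal ((336 * η / (e / 2) + e / 4) * X)) J
    (fun j _ => main_pt hM hLaw hS k hk (-A + j * η) η (e / 2) (e / 4) hη0 (by linarith) (by linarith) (by positivity))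
  refine (((H1 A hA1).and (H2 A hA2)).and hgrid).mono ?_
  rintro X δ hX1 h0 h1 ⟨⟨E1, E2⟩, E3⟩ H hH0 hHD
  have hX0 : 0 < X := by linarith
  set x : ℝ := pos k δ H with hx
  have hHx : Hx k x δ = H := Hx_pos_eq hk0 h0 h1 hH0
  have hfin : volume {t : ℝ | 0 ≤ t ∧ t ≤ X ∧ e ≤ |(1 / H) * (∫ u in t..(t + H), Zk k δ u) - Phi x|} ≤
      ENNReal.ofReal (e * X) := by
    rcases le_or_gt A x with hc1 | hc1
    · -- long windows
      have hsub : {t : ℝ | 0 ≤ t ∧ t ≤ X ∧ e ≤ |(1 / H) * (∫ u in t..(t + H), Zk k δ u) - Phi x|} ⊆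
          {t : ℝ | 0 ≤ t ∧ t ≤ X ∧ ∃ H : ℝ, Hx k A δ ≤ H ∧ H ≤ δ ^ (-D) ∧
            e / 2 ≤ |(1 / H) * (∫ u in t..(t + H), Zk k δ u) - 1|} := by
        rintro t ⟨t0, t1, h2⟩
        refine ⟨t0, t1, H, ?_, hHD, ?_⟩
        · rw [← hHx]
          exact Hx_mono hk0 h0 hc1
        · have g1 : |1 - Phi x| ≤ e / 2 := by
            have q1 := (H3 x (by linarith)).le
            have q2 := Phi_le_one x
            rw [abs_le]
            constructor <;> linarith
          have g2 := abs_sub_le ((1 / H) * (∫ u in t..(t + H), Zk k δ u)) 1 (Phi x)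
          linarith
      refine (measure_mono hsub).trans (E1.trans (ENNReal.ofReal_le_ofReal ?_))
      nlinarith
    · rcases le_or_gt x (-A) with hc2 | hc2
      · -- short windows
        have hsub : {t : ℝ | 0 ≤ t ∧ t ≤ X ∧ e ≤ |(1 / H) * (∫ u in t..(t + H), Zk k δ u) - Phi x|} ⊆
            {t : ℝ | 0 ≤ t ∧ t ≤ X ∧ ∃ H : ℝ, 0 < H ∧ H ≤ Hx k (-A) δ ∧
              e / 2 ≤ (1 / H) * (∫ u in t..(t + H), Zk k δ u)} := by
          rintro t ⟨t0, t1, h2⟩
          refine ⟨t0, t1, H, hH0, ?_, ?_⟩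
          · rw [← hHx]
            exact Hx_mono hk0 h0 hc2
          · by_contra hcon
            rw [not_le] at hcon
            have q1 := (H4 x (by linarith)).le
            have q2 := Phi_nn x
            have q3 := mean_nn (k := k) (t := t) h0.le hH0
            have q4 : |(1 / H) * (∫ u in t..(t + H), Zk k δ u) - Phi x| < e := by
              rw [abs_lt]
              constructor <;> linarith
            linarith
        refine (measure_mono hsub).trans (E2.trans (ENNReal.ofReal_le_ofReal ?_))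
        nlinarith
      · -- the transition
        set j : ℕ := ⌊(x + A) / η⌋₊ with hj
        have hxA : 0 ≤ (x + A) / η := div_nonneg (by linarith) hη0.le
        have hj1 : (j:ℝ) ≤ (x + A) / η := Nat.floor_le hxA
        have hj2 : (x + A) / η < j + 1 := Nat.lt_floor_add_one _
        have hjJ : j < J := by
          have h3 : (x + A) / η < 2 * A / η := by
            refine div_lt_div_of_pos_right ?_ hη0
            linarith
          have h4 : (j:ℝ) < J := by linarith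
          exact_mod_cast h4
        rw [le_div_iff₀ hη0] at hj1
        rw [div_lt_iff₀ hη0] at hj2
        have hsub : {t : ℝ | 0 ≤ t ∧ t ≤ X ∧ e ≤ |(1 / H) * (∫ u in t..(t + H), Zk k δ u) - Phi x|} ⊆
            {t : ℝ | 0 ≤ t ∧ t ≤ X ∧ ∃ H : ℝ, Hx k (-A + j * η) δ ≤ H ∧ H ≤ Hx k (-A + j * η + η) δ ∧
              e / 2 ≤ |(1 / H) * (∫ u in t..(t + H), Zk k δ u) - Phi (-A + j * η)|} := by
          rintro t ⟨t0, t1, h2⟩
          refine ⟨t0, t1, H, ?_, ?_, ?_⟩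
          · rw [← hHx]
            exact Hx_mono hk0 h0 (by linarith)
          · rw [← hHx]
            exact Hx_mono hk0 h0 (by linarith)
          · have q1 := Phi_mono (show -A + j * η ≤ x by linarith)
            have q2 := Phi_lip (show -A + j * η ≤ x by linarith)
            have q3 : |Phi (-A + j * η) - Phi x| ≤ e / 4000 := by
              rw [abs_le]
              constructor <;> linarith
            have g2 := abs_sub_le ((1 / H) * (∫ u in t..(t + H), Zk k δ u)) (Phi (-A + j * η)) (Phi x)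
            linarith
        refine (measure_mono hsub).trans ((E3 j hjJ).trans (ENNReal.ofReal_le_ofReal ?_))
        refine mul_le_mul_of_nonneg_right ?_ hX0.le
        have : 336 * η / (e / 2) ≤ e / 4 := by
          rw [div_le_iff₀ (by positivity), hη]
          nlinarith
        linarith
  have hsub : {t : ℝ | 0 ≤ t ∧ t ≤ X ∧ ε ≤ |(1 / H) * (∫ u in t..(t + H), Zk k δ u) - Phi x|} ⊆
      {t : ℝ | 0 ≤ t ∧ t ≤ X ∧ e ≤ |(1 / H) * (∫ u in t..(t + H), Zk k δ u) - Phi x|} := by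
    rintro t ⟨t0, t1, h2⟩
    exact ⟨t0, t1, heε.trans h2⟩
  refine (measure_mono hsub).trans (hfin.trans (ENNReal.ofReal_le_ofReal ?_))
  exact mul_le_mul_of_nonneg_right heε hX0.le

/-- all windows outside the transition at once -/
theorem crit_b (hM : S_MNB) (hLaw : S_LAW) (hS : S_SUPW) (k D : ℝ) (hk : 1 < k) (hD : 0 ≤ D) (ε : ℝ) (hε : 0 < ε) :
    ∃ A : ℝ, Ev fun X δ => volume {t : ℝ | 0 ≤ t ∧ t ≤ X ∧ ∃ H : ℝ, 0 < H ∧ H ≤ δ ^ (-D) ∧
      ((A ≤ pos k δ H ∧ ε ≤ |(1 / H) * (∫ u in t..(t + H), Zk k δ u) - 1|) ∨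
        (pos k δ H ≤ -A ∧ ε ≤ (1 / H) * (∫ u in t..(t + H), Zk k δ u)))} ≤ ENNReal.ofReal (ε * X) := by
  have hk0 : 0 < k := by linarith
  set e : ℝ := min ε 1 with he
  have he0 : 0 < e := lt_min hε one_pos
  have he1 : e ≤ 1 := min_le_right _ _
  have heε : e ≤ ε := min_le_left _ _
  obtain ⟨A1, H1⟩ := main_up hM hLaw k D hk hD (e / 2) (by positivity) (by linarith)
  obtain ⟨A2, H2⟩ := main_lo hLaw hS k hk (e / 2) (by positivity)
  refine ⟨max A1 A2, ((H1 (max A1 A2) (le_max_left _ _)).and (H2 (max A1 A2) (le_max_right _ _))).mono ?_⟩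
  rintro X δ hX1 h0 h1 ⟨E1, E2⟩
  have hX0 : 0 < X := by linarith
  set A : ℝ := max A1 A2 with hA
  have hsub : {t : ℝ | 0 ≤ t ∧ t ≤ X ∧ ∃ H : ℝ, 0 < H ∧ H ≤ δ ^ (-D) ∧
      ((A ≤ pos k δ H ∧ ε ≤ |(1 / H) * (∫ u in t..(t + H), Zk k δ u) - 1|) ∨
        (pos k δ H ≤ -A ∧ ε ≤ (1 / H) * (∫ u in t..(t + H), Zk k δ u)))} ⊆
      {t : ℝ | 0 ≤ t ∧ t ≤ X ∧ ∃ H : ℝ, Hx k A δ ≤ H ∧ H ≤ δ ^ (-D) ∧
        e / 2 ≤ |(1 / H) * (∫ u in t..(t + H), Zk k δ u) - 1|} ∪
      {t : ℝ | 0 ≤ t ∧ t ≤ X ∧ ∃ H : ℝ, 0 < H ∧ H ≤ Hx k (-A) δ ∧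
        e / 2 ≤ (1 / H) * (∫ u in t..(t + H), Zk k δ u)} := by
    rintro t ⟨t0, t1, H, hH0, hHD, hor⟩
    have hHx : Hx k (pos k δ H) δ = H := Hx_pos_eq hk0 h0 h1 hH0
    rcases hor with ⟨h2, h3⟩ | ⟨h2, h3⟩
    · refine Or.inl ⟨t0, t1, H, ?_, hHD, by linarith⟩
      rw [← hHx]
      exact Hx_mono hk0 h0 h2
    · refine Or.inr ⟨t0, t1, H, hH0, ?_, by linarith⟩
      rw [← hHx]
      exact Hx_mono hk0 h0 h2
  refine (measure_mono hsub).trans ((measure_union_le _ _).trans ((add_le_add E1 E2).trans ?_))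
  rw [← ENNReal.ofReal_add (by positivity) (by positivity)]
  refine ENNReal.ofReal_le_ofReal ?_
  nlinarith

end Run7.h291.WC
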